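import Pool.Agent.Q246.LN.Liou
import Pool.Agent.Y118.HP.Nm
import Pool.Agent.TH456.TM.Inst

/-!
# Polynomials in algebraic integers of bounded degree and in a number with a transcendence measure
-/

set_option autoImplicit false

open Module NumberField

namespace Pool.Agent.Q189.HC

open Pool.Agent.Q246.NR Pool.Agent.Q246.LN Pool.Agent.Y916.Sl Pool.Agent.Y916.Al
open Pool.Agent.TH456.TM (MeasT)

/-- the point with the coordinates `z` and `x_j` -/
def op {k : ℕ} (z : ℂ) (x : Fin k → ℂ) : Option (Fin k) → ℂ := fun o => o.elim z x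

/-- the coefficients of a polynomial in one variable -/
lemma coeff_one (M : MvPolynomial Unit ℤ) (i : ℕ) :
    |(((MvPolynomial.aeval (fun _ => (Polynomial.X : Polynomial ℤ)) M).coeff i : ℤ) : ℝ)| ≤ len M := by
  classical
  rw [MvPolynomial.aeval_def, MvPolynomial.eval₂_eq', Polynomial.finsetSum_coeff, len_eq_int]
  push_cast
  refine (Finset.abs_sum_le_sum_abs _ _).trans (Finset.sum_le_sum fun d _ => ?_)
  have h1 : (algebraMap ℤ (Polynomial ℤ)) (MvPolynomial.coeff d M) = Polynomial.C (MvPolynomial.coeff d M) := rfl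
  rw [h1]
  have h2 : ∏ j : Unit, (Polynomial.X : Polynomial ℤ) ^ d j = Polynomial.X ^ d () := by
    simp
  rw [h2, Polynomial.coeff_C_mul_X_pow]
  split_ifs
  · exact le_rfl
  · simp

lemma natDegree_one (M : MvPolynomial Unit ℤ) {D : ℕ} (hD : M.totalDegree ≤ D) :
    (MvPolynomial.aeval (fun _ => (Polynomial.X : Polynomial ℤ)) M).natDegree ≤ D := by
  classical
  rw [MvPolynomial.aeval_def, MvPolynomial.eval₂_eq']
  refine Polynomial.natDegree_sum_le_of_forall_le _ _ fun d hd => ?_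
  have h1 : (algebraMap ℤ (Polynomial ℤ)) (MvPolynomial.coeff d M) = Polynomial.C (MvPolynomial.coeff d M) := rfl
  have h2 : ∏ j : Unit, (Polynomial.X : Polynomial ℤ) ^ d j = Polynomial.X ^ d () := by
    simp
  rw [h1, h2]
  refine (Polynomial.natDegree_C_mul_X_pow_le _ _).trans ?_
  have h3 := (MvPolynomial.le_totalDegree hd).trans hD
  rw [Finsupp.sum_fintype _ _ (fun _ => rfl)] at h3
  simpa using h3

lemma aeval_one (M : MvPolynomial Unit ℤ) (z : ℂ) :
    Polynomial.aeval z (MvPolynomial.aeval (fun _ => (Polynomial.X : Polynomial ℤ)) M) = MvPolynomial.aeval (fun _ => z) M := by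
  have h1 := MvPolynomial.comp_aeval_apply (f := fun _ : Unit => (Polynomial.X : Polynomial ℤ))
    (Polynomial.aeval z : Polynomial ℤ →ₐ[ℤ] ℂ) M
  rw [h1]
  simp

theorem liouT {θ : ℂ} (hθ : MeasT θ) (m k D : ℕ) : ∃ (κ : ℕ) (c : ℝ), 0 < c ∧
    ∀ (x : Fin k → ℂ) (T : ℝ), 1 ≤ T → (∀ j, AInt m T (x j)) → ∀ P : MvPolynomial (Option (Fin k)) ℤ, P.totalDegree ≤ D →
    ∀ Λ : ℝ, 1 ≤ Λ → len P ≤ Λ → (∃ z : ℂ, MvPolynomial.aeval (op z x) P ≠ 0) →
      c ≤ (Λ * T ^ D) ^ κ * ‖MvPolynomial.aeval (op θ x) P‖ := by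
  classical
  obtain ⟨κ₀, c, hκ₀, hc, hmeas⟩ := hθ (m ^ k * D)
  set Θ : ℝ := max 1 ‖θ‖ with hΘ
  have hΘ1 : 1 ≤ Θ := le_max_left _ _
  refine ⟨m ^ k * ⌈κ₀⌉₊ + m ^ k, c / (Θ ^ D) ^ m ^ k, by positivity, fun x T hT hx P hD Λ hΛ1 hΛ hz => ?_⟩
  obtain ⟨K, hfd, hdeg, hmem⟩ := comp_deg m x T hx
  have : NumberField K := { to_charZero := inferInstance, to_finiteDimensional := hfd }
  have hint : ∀ j, IsIntegral ℤ (⟨x j, hmem j⟩ : K) := by
    intro j
    obtain ⟨f, h1, h2, h3, h4⟩ := hx j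
    refine ⟨f, h1, ?_⟩
    apply (algebraMap K ℂ).injective
    have h5 := Polynomial.aeval_algebraMap_apply ℂ (⟨x j, hmem j⟩ : K) f
    rw [map_zero]
    have h6 : (algebraMap K ℂ) (Polynomial.eval₂ (algebraMap ℤ K) (⟨x j, hmem j⟩ : K) f) =
        Polynomial.aeval (x j) f := h5.symm
    rw [h6, h3]
  set x' : Fin k → 𝓞 K := fun j => ⟨⟨x j, hmem j⟩, hint j⟩ with hx'
  have hconj : ∀ (σ : K →+* ℂ) j, ‖σ (x' j : K)‖ ≤ T := by
    intro σ j
    obtain ⟨f, h1, h2, h3, h4⟩ := hx j
    apply h4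
    have h5 : Polynomial.aeval (⟨x j, hmem j⟩ : K) f = 0 := by
      apply (algebraMap K ℂ).injective
      rw [← Polynomial.aeval_algebraMap_apply, map_zero]
      exact h3
    have h6 := Polynomial.hom_eval₂ f (algebraMap ℤ K) σ (⟨x j, hmem j⟩ : K)
    rw [← Polynomial.aeval_def, h5, map_zero] at h6
    rw [Polynomial.aeval_def, h6]
    congr 1
    exact RingHom.ext_int _ _
  -- the polynomial in one variable
  set p : MvPolynomial Unit (𝓞 K) := MvPolynomial.aeval (fun o : Option (Fin k) =>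
    (o.elim (MvPolynomial.X ()) fun j => MvPolynomial.C (x' j) : MvPolynomial Unit (𝓞 K))) P with hp
  set Q : (K →+* ℂ) → MvPolynomial Unit ℂ := fun ψ => MvPolynomial.aeval (fun o : Option (Fin k) =>
    (o.elim (MvPolynomial.X ()) fun j => MvPolynomial.C (ψ (x' j : K)) : MvPolynomial Unit ℂ)) P with hQ
  have hpQ : ∀ ψ : K →+* ℂ, p.map (ψ.comp (algebraMap (𝓞 K) K)) = Q ψ := by
    intro ψ
    rw [hp, hQ]
    simp only
    rw [MvPolynomial.aeval_def, MvPolynomial.hom_eval₂, MvPolynomial.aeval_def]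
    congr 1
    · exact RingHom.ext_int _ _
    · funext o
      rcases o with _ | j
      · simp
      · simp
  have hval : ∀ (ψ : K →+* ℂ) (z : ℂ), MvPolynomial.eval (fun _ => z) (Q ψ) =
      MvPolynomial.aeval (op z fun j => ψ (x' j : K)) P := by
    intro ψ z
    rw [hQ]
    simp only
    rw [MvPolynomial.aeval_def, MvPolynomial.hom_eval₂, MvPolynomial.aeval_def]
    congr 1
    · exact RingHom.ext_int _ _
    · funext o
      rcases o with _ | j
      · simp [op]
      · simp [op]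
  have hQlen : ∀ ψ, len (Q ψ) ≤ Λ * T ^ D := by
    intro ψ
    refine (len_aeval (R := ℂ) (fun a => by rw [Complex.norm_intCast]) _ hT (fun o => ?_) P hD).trans
      (mul_le_mul_of_nonneg_right hΛ (by positivity))
    rcases o with _ | j
    · show len (MvPolynomial.X () : MvPolynomial Unit ℂ) ≤ T
      rw [len_X]
      exact hT
    · show len (MvPolynomial.C (ψ (x' j : K)) : MvPolynomial Unit ℂ) ≤ T
      rw [len_C]
      exact hconj ψ j
  have hp0 : p ≠ 0 := by
    obtain ⟨z, hz⟩ := hz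
    intro h0
    apply hz
    have h1 := hval (algebraMap K ℂ) z
    rw [← hpQ, h0, map_zero, map_zero] at h1
    exact h1.symm
  have hQ0 : ∀ ψ, Q ψ ≠ 0 := by
    intro ψ h0
    rw [← hpQ] at h0
    apply hp0
    refine MvPolynomial.map_injective (ψ.comp (algebraMap (𝓞 K) K)) ?_ (by rw [h0, map_zero])
    exact ψ.injective.comp (FaithfulSMul.algebraMap_injective (𝓞 K) K)
  obtain ⟨M, hM⟩ := Pool.Agent.Y118.HP.exists_norm K p
  simp only [hpQ] at hM
  have hcard : Fintype.card (K →+* ℂ) ≤ m ^ k := by rw [NumberField.Embeddings.card]; exact hdeg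
  have hΛT : 1 ≤ Λ * T ^ D := by
    have : 1 ≤ T ^ D := one_le_pow₀ hT
    nlinarith
  -- size of `M`
  have hMlen : len M ≤ (Λ * T ^ D) ^ m ^ k := by
    have h1 : len M ≤ len (∏ ψ, Q ψ) := by
      rw [← hM]
      unfold len
      have h2 : M.support ⊆ (M.map (Int.castRingHom ℂ)).support := by
        intro d hd
        rw [MvPolynomial.mem_support_iff] at hd ⊢
        rw [MvPolynomial.coeff_map, eq_intCast]
        exact_mod_cast hd
      refine (Finset.sum_le_sum fun d _ => ?_).trans (Finset.sum_le_sum_of_subset_of_nonneg h2 fun _ _ _ => norm_nonneg _)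
      rw [MvPolynomial.coeff_map, eq_intCast, Complex.norm_intCast, Int.norm_eq_abs]
    refine h1.trans ((len_prod _ _).trans ?_)
    calc ∏ ψ : K →+* ℂ, len (Q ψ) ≤ ∏ _ψ : K →+* ℂ, Λ * T ^ D :=
          Finset.prod_le_prod (fun _ _ => len_nonneg _) fun ψ _ => hQlen ψ
      _ = (Λ * T ^ D) ^ Fintype.card (K →+* ℂ) := by rw [Finset.prod_const, Finset.card_univ]
      _ ≤ _ := pow_le_pow_right₀ hΛT hcard
  have hMdeg : M.totalDegree ≤ m ^ k * D := by
    have h1 : M.totalDegree ≤ (M.map (Int.castRingHom ℂ)).totalDegree := by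
      rw [MvPolynomial.totalDegree, MvPolynomial.totalDegree]
      refine Finset.sup_mono fun d hd => ?_
      rw [MvPolynomial.mem_support_iff] at hd ⊢
      rw [MvPolynomial.coeff_map, eq_intCast]
      exact_mod_cast hd
    rw [hM] at h1
    refine h1.trans ((MvPolynomial.totalDegree_finsetProd _ _).trans ?_)
    have h2 : ∀ ψ, (Q ψ).totalDegree ≤ D := by
      intro ψ
      rw [hQ]
      simp only
      rw [MvPolynomial.aeval_def, MvPolynomial.eval₂_eq']
      refine (MvPolynomial.totalDegree_finsetSum _ _).trans (Finset.sup_le fun d hd => ?_)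
      have h3 : (algebraMap ℤ (MvPolynomial Unit ℂ)) (MvPolynomial.coeff d P) = MvPolynomial.C ((MvPolynomial.coeff d P : ℤ) : ℂ) := by
        rw [eq_intCast, map_intCast]
      refine (MvPolynomial.totalDegree_mul _ _).trans ?_
      rw [h3, MvPolynomial.totalDegree_C, zero_add]
      refine (MvPolynomial.totalDegree_finsetProd _ _).trans ?_
      have h4 := (MvPolynomial.le_totalDegree hd).trans hD
      rw [Finsupp.sum_fintype _ _ (fun _ => rfl)] at h4
      refine (Finset.sum_le_sum fun o _ => ?_).trans h4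
      refine (MvPolynomial.totalDegree_pow _ _).trans ?_
      rcases o with _ | j
      · show _ * (MvPolynomial.X () : MvPolynomial Unit ℂ).totalDegree ≤ _
        rw [MvPolynomial.totalDegree_X, mul_one]
      · show _ * (MvPolynomial.C (ψ (x' j : K)) : MvPolynomial Unit ℂ).totalDegree ≤ _
        rw [MvPolynomial.totalDegree_C, mul_zero]
        exact Nat.zero_le _
    calc ∑ ψ : K →+* ℂ, (Q ψ).totalDegree ≤ ∑ _ψ : K →+* ℂ, D := Finset.sum_le_sum fun ψ _ => h2 ψ
      _ = Fintype.card (K →+* ℂ) * D := by rw [Finset.sum_const, Finset.card_univ, smul_eq_mul]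
      _ ≤ _ := Nat.mul_le_mul_right _ hcard
  set q : Polynomial ℤ := MvPolynomial.aeval (fun _ => (Polynomial.X : Polynomial ℤ)) M with hq
  have hqv : ∀ z : ℂ, Polynomial.aeval z q = ∏ ψ : K →+* ℂ, MvPolynomial.aeval (op z fun j => ψ (x' j : K)) P := by
    intro z
    rw [hq, aeval_one]
    have e1 : MvPolynomial.aeval (fun _ : Unit => z) M = MvPolynomial.eval (fun _ => z) (M.map (Int.castRingHom ℂ)) := by
      rw [MvPolynomial.eval_map, MvPolynomial.aeval_def]
      rfl
    rw [e1, hM, map_prod]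
    exact Finset.prod_congr rfl fun ψ _ => hval ψ z
  have hq0 : q ≠ 0 := by
    intro h0
    have h1 : ∏ ψ, Q ψ = 0 := by
      refine MvPolynomial.funext fun z => ?_
      rw [map_zero, map_prod]
      have h2 := hqv (z ())
      rw [h0, map_zero] at h2
      rw [h2]
      refine Finset.prod_congr rfl fun ψ _ => ?_
      rw [← hval]
    exact Finset.prod_ne_zero_iff.2 (fun ψ _ => hQ0 ψ) h1
  have h1 := hmeas q hq0 (natDegree_one M hMdeg) ((Λ * T ^ D) ^ m ^ k) (one_le_pow₀ hΛT)
    (fun j => (coeff_one M j).trans hMlen)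
  -- the other factors
  set B : ℝ := Λ * T ^ D with hB
  have hB0 : 0 < B := by linarith
  have h2 : ‖Polynomial.aeval θ q‖ ≤ ‖MvPolynomial.aeval (op θ x) P‖ * (B * Θ ^ D) ^ m ^ k := by
    rw [hqv, norm_prod, ← Finset.mul_prod_erase Finset.univ _ (Finset.mem_univ (algebraMap K ℂ))]
    have h3 : (fun j => (algebraMap K ℂ) (x' j : K)) = x := rfl
    rw [h3]
    refine mul_le_mul_of_nonneg_left ?_ (norm_nonneg _)
    have h4 : 1 ≤ B * Θ ^ D := by
      have : 1 ≤ Θ ^ D := one_le_pow₀ hΘ1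
      nlinarith
    have h5 : ∀ ψ : K →+* ℂ, ‖MvPolynomial.aeval (op θ fun j => ψ (x' j : K)) P‖ ≤ B * Θ ^ D := by
      intro ψ
      refine (Pool.Agent.Q246.NR.norm_aeval_le (V := T * Θ) _ (by nlinarith) (fun o => ?_) P hD).trans ?_
      · rcases o with _ | j
        · show ‖θ‖ ≤ _
          have : ‖θ‖ ≤ Θ := le_max_right _ _
          nlinarith
        · show ‖ψ (x' j : K)‖ ≤ _
          have := hconj ψ j
          nlinarith
      · rw [mul_pow, ← mul_assoc, hB]
        refine mul_le_mul_of_nonneg_right ?_ (by positivity)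
        exact mul_le_mul_of_nonneg_right hΛ (by positivity)
    calc _ ≤ ∏ _ψ ∈ Finset.univ.erase (algebraMap K ℂ), (B * Θ ^ D) :=
          Finset.prod_le_prod (fun _ _ => norm_nonneg _) fun ψ _ => h5 ψ
      _ = (B * Θ ^ D) ^ (Finset.univ.erase (algebraMap K ℂ)).card := by rw [Finset.prod_const]
      _ ≤ _ := by
          refine pow_le_pow_right₀ h4 ((Finset.card_le_univ _).trans hcard)
  have h3 : (B ^ m ^ k) ^ κ₀ ≤ B ^ (m ^ k * ⌈κ₀⌉₊) := by
    rw [pow_mul]
    have h4 : (1 : ℝ) ≤ B ^ m ^ k := one_le_pow₀ hΛT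
    calc (B ^ m ^ k) ^ κ₀ ≤ (B ^ m ^ k) ^ ((⌈κ₀⌉₊ : ℕ) : ℝ) := Real.rpow_le_rpow_of_exponent_le h4 (Nat.le_ceil _)
      _ = _ := by rw [Real.rpow_natCast]
  rw [div_le_iff₀ (by positivity)]
  calc c ≤ (B ^ m ^ k) ^ κ₀ * ‖Polynomial.aeval θ q‖ := h1
    _ ≤ B ^ (m ^ k * ⌈κ₀⌉₊) * (‖MvPolynomial.aeval (op θ x) P‖ * (B * Θ ^ D) ^ m ^ k) :=
        mul_le_mul h3 h2 (norm_nonneg _) (by positivity)
    _ = _ := by rw [mul_pow, pow_add]; ring

/-- coefficients -/
lemma cnx (P : Polynomial ℤ) (i : ℕ) : (P.comp (-Polynomial.X)).coeff i = (-1) ^ i * P.coeff i := by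
  have h1 : (-Polynomial.X : Polynomial ℤ) = Polynomial.C (-1) * Polynomial.X := by simp
  rw [h1, Polynomial.comp_C_mul_X_coeff, mul_comm]

/-- square roots -/
theorem measT_sqrt {θ μ : ℂ} (hθ : MeasT θ) (hμ : μ ^ 2 = θ) : MeasT μ := by
  intro D
  obtain ⟨κ, c, hκ, hc, h⟩ := hθ D
  set M : ℝ := max 1 ‖μ‖ with hM
  have hM1 : 1 ≤ M := le_max_left _ _
  set L : ℝ := (D : ℝ) + 1 with hL
  have hL1 : 1 ≤ L := by
    have : (0 : ℝ) ≤ D := Nat.cast_nonneg D
    linarith
  refine ⟨2 * κ + 1, c / ((L ^ 2) ^ κ * (L * M ^ D)), by positivity, by positivity, fun P hP hPD H hH hPH => ?_⟩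
  set Q : Polynomial ℤ := P * P.comp (-Polynomial.X) with hQ
  have hQ0 : Q ≠ 0 := by
    refine mul_ne_zero hP fun h0 => hP ?_
    have h1 : (P.comp (-Polynomial.X)).comp (-Polynomial.X) = P := by
      rw [Polynomial.comp_assoc]
      simp
    rw [← h1, h0, Polynomial.zero_comp]
  have hodd : ∀ i, ¬ 2 ∣ i → Q.coeff i = 0 := by
    intro i hi
    have h1 : Q.comp (-Polynomial.X) = Q := by
      rw [hQ, Polynomial.mul_comp, Polynomial.comp_assoc]
      simp [mul_comm]
    have h2 := congrArg (fun p => Polynomial.coeff p i) h1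
    simp only [cnx] at h2
    have h3 : Odd i := by
      rw [← Nat.not_even_iff_odd, even_iff_two_dvd]
      exact hi
    rw [h3.neg_one_pow] at h2
    omega
  set R : Polynomial ℤ := Polynomial.contract 2 Q with hR
  have hRQ : Polynomial.expand ℤ 2 R = Q := by
    ext i
    rw [Polynomial.coeff_expand (by norm_num), hR, Polynomial.coeff_contract (by norm_num)]
    split_ifs with h1
    · rw [Nat.div_mul_cancel h1]
    · exact (hodd i h1).symm
  have hR0 : R ≠ 0 := by
    intro h0
    rw [h0, map_zero] at hRQ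
    exact hQ0 hRQ.symm
  have hRD : R.natDegree ≤ D := by
    have h1 : R.natDegree * 2 = Q.natDegree := by rw [← hRQ, Polynomial.natDegree_expand]
    have h2 : Q.natDegree ≤ D + D := by
      refine Polynomial.natDegree_mul_le.trans (Nat.add_le_add hPD ?_)
      refine Polynomial.natDegree_comp_le.trans ?_
      rw [Polynomial.natDegree_neg, Polynomial.natDegree_X, mul_one]
      exact hPD
    omega
  have hRH : ∀ j, |(R.coeff j : ℝ)| ≤ L ^ 2 * H ^ 2 := by
    intro j
    rw [hR, Polynomial.coeff_contract (by norm_num), hQ, Polynomial.coeff_mul]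
    push_cast
    refine (Finset.abs_sum_le_sum_abs _ _).trans ?_
    have h1 : ∀ x ∈ (Finset.HasAntidiagonal.antidiagonal (j * 2) : Finset (ℕ × ℕ)), |((P.coeff x.1 : ℤ) : ℝ) * ((P.comp (-Polynomial.X)).coeff x.2 : ℝ)| ≤
        if x.1 ≤ D then H ^ 2 else 0 := by
      intro x _
      rw [abs_mul, cnx]
      split_ifs with h1
      · push_cast
        rw [abs_mul, abs_pow, abs_neg, abs_one, one_pow, one_mul, pow_two]
        exact mul_le_mul (hPH _) (hPH _) (abs_nonneg _) (by linarith)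
      · rw [Polynomial.coeff_eq_zero_of_natDegree_lt (by omega)]
        simp
    refine (Finset.sum_le_sum h1).trans ?_
    rw [← Finset.sum_filter, Finset.sum_const, nsmul_eq_mul]
    have h2 : (((Finset.HasAntidiagonal.antidiagonal (j * 2) : Finset (ℕ × ℕ))).filter fun x => x.1 ≤ D).card ≤ D + 1 := by
      calc _ ≤ (Finset.range (D + 1)).card := by
            refine Finset.card_le_card_of_injOn (fun x => x.1) (fun x hx => ?_) fun x hx y hy hxy => ?_
            · simp only [Finset.coe_filter, Set.mem_ofPred_eq] at hx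
              simp only [Finset.coe_range, Set.mem_Iio]
              omega
            · simp only [Finset.coe_filter, Set.mem_ofPred_eq, Finset.HasAntidiagonal.mem_antidiagonal] at hx hy
              simp only at hxy
              exact Prod.ext hxy (by omega)
        _ = D + 1 := Finset.card_range _
    have h3 : (((((Finset.HasAntidiagonal.antidiagonal (j * 2) : Finset (ℕ × ℕ))).filter fun x => x.1 ≤ D).card : ℕ) : ℝ) ≤ L := by
      rw [hL]
      exact_mod_cast h2
    refine mul_le_mul_of_nonneg_right (h3.trans ?_) (by positivity)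
    nlinarith
  have h1 := h R hR0 hRD (L ^ 2 * H ^ 2) (by
    have : 1 ≤ H ^ 2 := one_le_pow₀ hH
    have : 1 ≤ L ^ 2 := one_le_pow₀ hL1
    nlinarith) hRH
  have h2 : Polynomial.aeval θ R = Polynomial.aeval μ P * Polynomial.aeval (-μ) P := by
    rw [← hμ, ← Polynomial.expand_aeval, hRQ, hQ, map_mul, Polynomial.aeval_comp]
    simp
  have h3 : ‖Polynomial.aeval (-μ) P‖ ≤ L * H * M ^ D := by
    rw [Polynomial.aeval_eq_sum_range' (lt_of_le_of_lt hPD (Nat.lt_succ_self D))]
    refine (norm_sum_le _ _).trans ?_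
    calc _ ≤ ∑ _i ∈ Finset.range D.succ, H * M ^ D := by
          refine Finset.sum_le_sum fun i hi => ?_
          rw [Finset.mem_range] at hi
          rw [zsmul_eq_mul, norm_mul, Complex.norm_intCast, norm_pow, norm_neg]
          refine mul_le_mul (hPH i) ?_ (by positivity) (by linarith)
          exact (pow_le_pow_left₀ (norm_nonneg _) (le_max_right _ _) _).trans (pow_le_pow_right₀ hM1 (by omega))
      _ = _ := by
          rw [Finset.sum_const, Finset.card_range, nsmul_eq_mul, hL]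
          push_cast
          ring
  rw [h2, norm_mul] at h1
  have hH0 : 0 ≤ H := by linarith
  have h4 : (L ^ 2 * H ^ 2) ^ κ = (L ^ 2) ^ κ * H ^ (2 * κ) := by
    rw [Real.mul_rpow (by positivity) (by positivity)]
    congr 1
    rw [Real.rpow_mul hH0]
    norm_num
  rw [div_le_iff₀ (by positivity)]
  calc c ≤ (L ^ 2 * H ^ 2) ^ κ * (‖Polynomial.aeval μ P‖ * ‖Polynomial.aeval (-μ) P‖) := h1
    _ ≤ (L ^ 2 * H ^ 2) ^ κ * (‖Polynomial.aeval μ P‖ * (L * H * M ^ D)) := by
        refine mul_le_mul_of_nonneg_left ?_ (by positivity)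
        exact mul_le_mul_of_nonneg_left h3 (norm_nonneg _)
    _ = _ := by
        rw [h4, Real.rpow_add (by linarith), Real.rpow_one]
        ring

end Pool.Agent.Q189.HC
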