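import Pool.Agent.Q189.MF.Conv
import Pool.Agent.Y118.HG.Kfin
import Pool.Agent.Y119.HY.Fin2
import Pool.Agent.Y119.J.Gen
import Pool.Agent.Q189.HG.Conn

/-!
# Hyperelliptic families: the family of G-functions
-/

set_option autoImplicit false

open PowerSeries

namespace Pool.Agent.Q189.HC

open Pool.Agent.Y118.HP Pool.Agent.Y118.HG
open Pool.Agent.Y119.HZ (ix evq)
open Pool.Agent.Y113 (SDc ps)
open Pool.Agent.Y120.GH (cx Cw ou)

variable {n : ℕ} {a : Fin n → ℝ} {m : Fin (n + 1)} {f : Polynomial ℚ}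

/-- a common denominator -/
theorem common_den {ι : Type} [Fintype ι] (P : ι → Polynomial ℚ) : ∃ D : ℤ, D ≠ 0 ∧ ∀ o, ∃ p : Polynomial ℤ,
    p.map (Int.castRingHom ℚ) = Polynomial.C (D : ℚ) * P o := by
  classical
  have h1 : ∀ o, ∃ (b : ℤ) (q : Polynomial ℤ), b ≠ 0 ∧ q.map (Int.castRingHom ℚ) = Polynomial.C (b : ℚ) * P o := by
    intro o
    obtain ⟨b, hb0, hb⟩ := IsLocalization.integerNormalization_spec (nonZeroDivisors ℤ) (P o)
    refine ⟨b, _, nonZeroDivisors.ne_zero hb0, hb.trans ?_⟩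
    rw [← Polynomial.smul_eq_C_mul]
    exact (Int.cast_smul_eq_zsmul ℚ b (P o)).symm
  choose b q hb hq using h1
  refine ⟨∏ o, b o, Finset.prod_ne_zero_iff.2 fun o _ => hb o, fun o =>
    ⟨Polynomial.C (∏ o' ∈ Finset.univ.erase o, b o') * q o, ?_⟩⟩
  rw [Polynomial.map_mul, hq, Polynomial.map_C, ← Finset.mul_prod_erase Finset.univ b (Finset.mem_univ o)]
  push_cast
  rw [eq_intCast, Polynomial.C_mul]
  push_cast
  ring

/-- the family -/
noncomputable def hz (Δ : ZDat n a m f) (c : Fin (n * n)) : ℚ⟦X⟧ := Δ.Z (ix n c).2 (ix n c).1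

theorem size_hz (Δ : ZDat n a m f) : ∃ C : ℝ, 1 ≤ C ∧ ∀ i m, |((coeff m (hz Δ i) : ℚ) : ℝ)| ≤ C ^ (m + 1) := by
  obtain ⟨C, hC, hs, -⟩ := Pool.Agent.Y119.HY.SDc.unif (y := fun p : Fin n × Fin n => Δ.Z p.2 p.1) fun p => Δ.sdZ p.2 p.1
  exact ⟨C, hC, fun i m => hs (ix n i) m⟩

/-- the constant terms -/
theorem Z_zero (hn : Even n) (ha : StrictMono a) (h0 : InGap a m 0)
    (hf : f.map (algebraMap ℚ ℝ) = ∏ i, (Polynomial.X - Polynomial.C (a i))) (Δ : ZDat n a m f) (i j : Fin n) :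
    coeff 0 (Δ.Z i j) = if i = j then 1 else 0 := by
  have h1 := Δ.val.self_of_nhds
  set R := RM a m 0 with hR
  set U := Δ.U.map (Polynomial.aeval (0 : ℝ)) with hU
  set V := Δ.V.map (Polynomial.aeval (0 : ℝ)) with hV
  have hleg : R * (V * jm ℝ n * V.transpose) * R.transpose = Real.pi • jm ℝ n := by
    rw [← Qp_aeval Δ.VJ]
    exact RM_leg hn ha hf h0
  have hdet : IsUnit R.det := by
    rw [isUnit_iff_ne_zero]
    intro h2
    have := congrArg Matrix.det hleg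
    rw [Matrix.det_mul, Matrix.det_mul, h2, zero_mul, zero_mul, Matrix.det_smul] at this
    exact mul_ne_zero (pow_ne_zero _ Real.pi_ne_zero) (jm_det hn) this.symm
  have hUV : U * V = 1 := by rw [hU, hV, ← map_aeval_mul, Δ.UV, map_aeval_one]
  have h2 : V * Ez Δ.Z 0 * U = 1 := by
    have h3 := congrArg (fun M => R⁻¹ * M) h1
    simp only [← Matrix.mul_assoc, Matrix.nonsing_inv_mul _ hdet, Matrix.one_mul] at h3
    exact h3.symm
  have h3 : Ez Δ.Z 0 = 1 := by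
    calc Ez Δ.Z 0 = (U * V) * Ez Δ.Z 0 * (U * V) := by rw [hUV, Matrix.one_mul, Matrix.mul_one]
      _ = U * (V * Ez Δ.Z 0 * U) * V := by simp only [Matrix.mul_assoc]
      _ = 1 := by rw [h2, Matrix.mul_one, hUV]
  have h4 := congrFun (congrFun h3 i) j
  rw [Ez_apply, Matrix.one_apply] at h4
  have h5 : Pool.Agent.Y37.GF.E (Δ.Z i j) 0 = ((coeff 0 (Δ.Z i j) : ℚ) : ℝ) := by
    unfold Pool.Agent.Y37.GF.E
    rw [tsum_eq_single 0]
    · simp
    · intro k hk
      rw [zero_pow hk, mul_zero]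
  rw [h5] at h4
  split_ifs at h4 with hij
  · rw [if_pos hij]
    exact_mod_cast h4
  · rw [if_neg hij]
    exact_mod_cast h4

theorem gfs_hz (hn : Even n) (ha : StrictMono a) (h0 : InGap a m 0)
    (hf : f.map (algebraMap ℚ ℝ) = ∏ i, (Polynomial.X - Polynomial.C (a i))) (hf0 : f.coeff 0 ≠ 0) (Δ : ZDat n a m f) :
    ∃ (T : Polynomial ℤ) (A : Fin (n * n) → Fin (n * n) → Polynomial ℤ), Pool.Agent.Y916.Af.GFs T A (hz Δ) := by
  classical
  -- a common denominator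
  obtain ⟨D, hD0, hD⟩ : ∃ D : ℤ, D ≠ 0 ∧ ∀ o : Option (Fin n × Fin n), ∃ p : Polynomial ℤ,
      p.map (Int.castRingHom ℚ) = Polynomial.C (D : ℚ) * (o.elim f fun x => Δ.A x.1 x.2) := common_den _
  choose p hp using hD
  set T : Polynomial ℤ := p none with hT
  set A' : Fin n → Fin n → Polynomial ℤ := fun i k => Polynomial.X * p (some (k, i)) with hA'
  set H : Matrix (Fin n) (Fin n) ℚ⟦X⟧ := Matrix.of fun i j => Δ.Z j i with hH
  set W' : Matrix (Fin n) (Fin n) ℚ⟦X⟧ := Matrix.of fun i j => Δ.W j i with hW'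
  have hT0 : T ≠ 0 := by
    intro h
    have h1 := hp none
    rw [← hT, h, Polynomial.map_zero] at h1
    have h2 := congrArg (Polynomial.eval 0) h1
    simp only [Polynomial.eval_zero, Polynomial.eval_mul, Polynomial.eval_C, Option.elim_none,
      ← Polynomial.coeff_zero_eq_eval_zero] at h2
    exact mul_ne_zero (by exact_mod_cast hD0) hf0 h2.symm
  have hN0 : (0 : Matrix (Fin n) (Fin n) ℚ) ^ n = 0 := by
    rcases Nat.eq_zero_or_pos n with h | h
    · subst h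
      exact Subsingleton.elim _ _
    · exact zero_pow (by omega)
  have hNz : ∀ i j, (((fun _ _ => (0 : ℤ)) i j : ℤ) : ℚ) = (0 : Matrix (Fin n) (Fin n) ℚ) i j := fun i j => by simp
  have hHW : H * W' = 1 := by
    funext i j
    have h1 : (Δ.W * Δ.Z) j i = (1 : Matrix (Fin n) (Fin n) ℚ⟦X⟧) j i := by rw [Δ.WZ]
    rw [Matrix.mul_apply] at h1 ⊢
    rw [Matrix.one_apply] at h1 ⊢
    have h2 : (if i = j then (1 : ℚ⟦X⟧) else 0) = if j = i then 1 else 0 := by
      simp only [eq_comm]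
    rw [h2, ← h1]
    exact Finset.sum_congr rfl fun k _ => mul_comm _ _
  have h00 : ∀ i j, coeff 0 (H i j) = if i = j then 1 else 0 := by
    intro i j
    have h2 : (if i = j then (1 : ℚ) else 0) = if j = i then 1 else 0 := by
      simp only [eq_comm]
    rw [h2]
    exact Z_zero hn ha h0 hf Δ j i
  have hps : ∀ o, ps (p o) = C (D : ℚ) * ((o.elim f fun x => Δ.A x.1 x.2 : Polynomial ℚ) : ℚ⟦X⟧) := by
    intro o
    unfold Pool.Agent.Y113.ps
    rw [hp, Polynomial.coe_mul, Polynomial.coe_C]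
  have hode' : ∀ i j, ps T * (X * d⁄dX ℚ (H i j) + ∑ k, H i k * C ((0 : Matrix (Fin n) (Fin n) ℚ) k j)) =
      ∑ k, ps (A' i k) * H k j := by
    intro i j
    have h1 := Δ.ode j i
    have h2 : ∑ k, H i k * C ((0 : Matrix (Fin n) (Fin n) ℚ) k j) = 0 :=
      Finset.sum_eq_zero fun k _ => by simp
    rw [h2, add_zero]
    have h3 : ∀ k, ps (A' i k) * H k j = X * C (D : ℚ) * (Δ.Z j k * (Δ.A k i : ℚ⟦X⟧)) := by
      intro k
      have h4 : ps (A' i k) = X * ps (p (some (k, i))) := by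
        rw [hA']
        simp only
        rw [Pool.Agent.Y113.ps_mul]
        congr 1
        unfold Pool.Agent.Y113.ps
        rw [Polynomial.map_X, Polynomial.coe_X]
      rw [h4, hps]
      simp only [Option.elim_some]
      show X * (C (D : ℚ) * _) * Δ.Z j k = _
      ring
    simp only [h3]
    rw [← Finset.mul_sum, ← h1, hT, hps]
    simp only [Option.elim_none]
    show C (D : ℚ) * (f : ℚ⟦X⟧) * (X * d⁄dX ℚ (Δ.Z j i)) = _
    ring
  have hHs : ∀ i j, SDc (H i j) := fun i j => Δ.sdZ j i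
  have hWs : ∀ i j, SDc (W' i j) := fun i j => Δ.sdW j i
  obtain ⟨q, C, hGS⟩ := Pool.Agent.Y119.HZ.gsysL hN0 hHW hode' hHs hWs
  refine ⟨Polynomial.X * T, fun a c => Pool.Agent.Y119.HZ.A3 T A' (fun _ _ => 0) (ix n a) (ix n c),
    mul_ne_zero Polynomial.X_ne_zero hT0, fun i => ?_, ?_, ⟨q, C, hGS.reindex (ix n)⟩,
    Pool.Agent.Y119.HZ.qu_gen hN0 hNz h00 hode' hHs⟩
  · have h1 := Pool.Agent.Y119.HZ.ode_A3 hNz hode' (ix n i)
    have h2 : ∑ j : Fin (n * n), ps (Pool.Agent.Y119.HZ.A3 T A' (fun _ _ => 0) (ix n i) (ix n j)) * H (ix n j).1 (ix n j).2 =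
        ∑ q, ps (Pool.Agent.Y119.HZ.A3 T A' (fun _ _ => 0) (ix n i) q) * H q.1 q.2 :=
      Equiv.sum_comp (ix n) fun q => ps (Pool.Agent.Y119.HZ.A3 T A' (fun _ _ => 0) (ix n i) q) * H q.1 q.2
    exact h1.trans h2.symm
  · obtain ⟨C, -, h⟩ := size_hz Δ
    exact ⟨C, h⟩

end Pool.Agent.Q189.HC
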