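import Pool.Agent.Q189.HC.Val

/-!
# Families whose fibres are connected by rational curves
-/

set_option autoImplicit false

open PowerSeries

namespace Pool.Agent.Q189.HC

open Pool.Agent.Y119.HZ (ix evq isom_inv isom_mul)
open Pool.Agent.Y120.GH (cx Cw ou)

section
variable {r : ℕ} {h : Fin r → ℚ⟦X⟧}

lemma mem_Cw' {K : ℝ} (hC : 1 ≤ K) (hs : ∀ i m, |((coeff m (h i) : ℚ) : ℝ)| ≤ K ^ (m + 1)) (i : Fin r) :
    cx (h i) ∈ Cw K := Pool.Agent.Y120.GH.cx_mem (by linarith) fun m => hs i m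

/-- evaluation of the polynomials in the functions -/
theorem ou_aeval' {K : ℝ} (hC : 1 ≤ K) (hs : ∀ i m, |((coeff m (h i) : ℚ) : ℝ)| ≤ K ^ (m + 1))
    (R : MvPolynomial (Fin r) (Polynomial ℚ)) :
    cx (MvPolynomial.aeval h R) ∈ Cw K ∧ ∀ t : ℂ, K < ‖t‖ → ou (cx (MvPolynomial.aeval h R)) t =
      MvPolynomial.eval₂ (evq (1 / t)) (fun a => ou (cx (h a)) t) R := by
  have hC0 : 0 ≤ K := by linarith
  induction R using MvPolynomial.induction_on with
  | C p =>
    have h1 : MvPolynomial.aeval h (MvPolynomial.C p) = (p : ℚ⟦X⟧) := by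
      rw [MvPolynomial.aeval_C, PowerSeries.algebraMap_apply']
      simp
    rw [h1]
    refine ⟨by rw [Pool.Agent.Y120.GH.cx_poly]; exact Pool.Agent.Y120.GH.poly_mem _, fun t ht => ?_⟩
    rw [Pool.Agent.Y120.GH.cx_poly, Pool.Agent.Y120.GH.ou_poly, MvPolynomial.eval₂_C, Polynomial.eval_map]
    rfl
  | add p q hp hq =>
    rw [map_add, map_add]
    refine ⟨Subring.add_mem _ hp.1 hq.1, fun t ht => ?_⟩
    rw [Pool.Agent.Y120.GH.ou_add hC0 hp.1 hq.1 ht, MvPolynomial.eval₂_add, hp.2 t ht, hq.2 t ht]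
  | mul_X p j hp =>
    have h1 := mem_Cw' hC hs j
    rw [map_mul, map_mul, MvPolynomial.aeval_X]
    refine ⟨Subring.mul_mem _ hp.1 h1, fun t ht => ?_⟩
    rw [Pool.Agent.Y120.GH.ou_mul hC0 hp.1 h1 ht, MvPolynomial.eval₂_mul, hp.2 t ht, MvPolynomial.eval₂_X]

/-- polynomials as functions of the point -/
noncomputable def vp (R : MvPolynomial (Fin r) (Polynomial ℚ)) (X : Fin r → ℂ) : Polynomial ℂ :=
  MvPolynomial.eval₂ (Polynomial.mapRingHom (algebraMap ℚ ℂ)) (fun a => Polynomial.C (X a)) R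

/-- polynomials as functions on a curve -/
noncomputable def vc (R : MvPolynomial (Fin r) (Polynomial ℚ)) (x : ℂ) (Γ : Fin r → Polynomial ℂ) :
    Polynomial ℂ :=
  MvPolynomial.eval₂ (Polynomial.C.comp (evq x)) Γ R

lemma eval_vp (R : MvPolynomial (Fin r) (Polynomial ℚ)) (X : Fin r → ℂ) (z : ℂ) :
    (vp R X).eval z = MvPolynomial.eval₂ (evq z) X R := by
  rw [vp, ← Polynomial.coe_evalRingHom, MvPolynomial.hom_eval₂]
  have h1 : (Polynomial.evalRingHom z).comp (Polynomial.mapRingHom (algebraMap ℚ ℂ)) = evq z := by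
    refine Polynomial.ringHom_ext (fun a => ?_) ?_
    · simp [Pool.Agent.Y119.HZ.evq]
    · simp [Pool.Agent.Y119.HZ.evq]
  rw [h1]
  congr 1
  funext a
  simp

lemma eval_vc (R : MvPolynomial (Fin r) (Polynomial ℚ)) (x : ℂ) (Γ : Fin r → Polynomial ℂ) (s : ℂ) :
    (vc R x Γ).eval s = (vp R fun a => (Γ a).eval s).eval x := by
  rw [eval_vp, vc, ← Polynomial.coe_evalRingHom, MvPolynomial.hom_eval₂]
  have h1 : (Polynomial.evalRingHom s).comp (Polynomial.C.comp (evq x)) = evq x := by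
    refine RingHom.ext fun a => ?_
    simp
  rw [h1]

/-- families whose fibres contain a set connected by rational curves -/
theorem conn_gen {K : ℝ} (hK : 1 ≤ K) (hs : ∀ i m, |((coeff m (h i) : ℚ) : ℝ)| ≤ K ^ (m + 1)) (G : Set (Fin r → ℂ))
    (hM : ∀ t : ℂ, K < ‖t‖ → (fun a => ou (cx (h a)) t) ∈ G)
    (hV : ∀ X ∈ G, ∀ x : ℂ, X ∈ Pool.Agent.Y916.Af.Vc h x)
    (hG : ∀ X ∈ G, ∀ Y ∈ G, ∃ Γ : Fin r → Polynomial ℂ, (fun a => (Γ a).eval 0) = X ∧ (fun a => (Γ a).eval 1) = Y ∧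
      ∀ s : ℂ, (fun a => (Γ a).eval s) ∈ G) : Pool.Agent.Y118.UL.Conn h := by
  classical
  have hK0 : 0 ≤ K := by linarith
  intro A B halg
  set φ := algebraMap ℚ⟦X⟧ (FractionRing ℚ⟦X⟧) with hφ
  have hinj : Function.Injective φ := IsFractionRing.injective ℚ⟦X⟧ (FractionRing ℚ⟦X⟧)
  by_cases hB : MvPolynomial.aeval h B = 0
  · refine ⟨0, 1, one_ne_zero, ?_⟩
    rw [hB]
    simp
  have hB0 : φ (MvPolynomial.aeval h B) ≠ 0 := fun h0 => hB (hinj (by rw [h0, map_zero]))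
  obtain ⟨P, hP0, hP⟩ := halg
  set m := P.natDegree with hm
  set a := MvPolynomial.aeval h A with ha
  set b := MvPolynomial.aeval h B with hb
  -- the relation
  set R : MvPolynomial (Fin r) (Polynomial ℚ) :=
    ∑ i ∈ Finset.range (m + 1), MvPolynomial.C (P.coeff i) * (A ^ i * B ^ (m - i)) with hR
  have hR0 : MvPolynomial.aeval h R = 0 := by
    apply hinj
    rw [map_zero]
    have h1 : φ (MvPolynomial.aeval h R) = Polynomial.aeval (φ a / φ b) P * φ b ^ m := by
      rw [Polynomial.aeval_eq_sum_range, Finset.sum_mul, hR, map_sum, map_sum]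
      refine Finset.sum_congr rfl fun i hi => ?_
      rw [Finset.mem_range] at hi
      rw [map_mul, map_mul, map_mul, map_mul, map_pow, map_pow, map_pow, map_pow, MvPolynomial.aeval_C, Algebra.smul_def,
        div_pow, ← IsScalarTower.algebraMap_apply (Polynomial ℚ) ℚ⟦X⟧ (FractionRing ℚ⟦X⟧)]
      have h4 : φ b ^ m = φ b ^ i * φ b ^ (m - i) := by rw [← pow_add]; congr 1; omega
      rw [h4, ← ha, ← hb]
      have h6 : φ a ^ i / φ b ^ i * φ b ^ i = φ a ^ i := div_mul_cancel₀ _ (pow_ne_zero _ hB0)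
      linear_combination -(algebraMap (Polynomial ℚ) (FractionRing ℚ⟦X⟧) (P.coeff i) * φ b ^ (m - i)) * h6
    rw [h1, hP, zero_mul]
  -- the specialisations
  have hX : ∀ X ∈ G, ∀ x : ℂ, (vp R X).eval x = 0 := by
    intro X hX x
    rw [eval_vp]
    exact hV X hX x R hR0
  -- the leading coefficient
  set p := P.leadingCoeff with hp
  have hp0 : p ≠ 0 := Polynomial.leadingCoeff_ne_zero.2 hP0
  set pc : Polynomial ℂ := p.map (algebraMap ℚ ℂ) with hpc
  have hpc0 : pc ≠ 0 := (Polynomial.map_ne_zero_iff (algebraMap ℚ ℂ).injective).2 hp0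
  have hratio : ∀ x : ℂ, pc.eval x ≠ 0 → ∀ X ∈ G, ∀ Y ∈ G,
      (vp A X).eval x * (vp B Y).eval x = (vp A Y).eval x * (vp B X).eval x := by
    intro x hx X hXi Y hYi
    obtain ⟨Γ, hΓ0, hΓ1, hΓ⟩ := hG X hXi Y hYi
    set Px : Polynomial ℂ := P.map (evq x) with hPx
    have hPxd : Px.natDegree = m := by
      rw [hPx, hm]
      refine Polynomial.natDegree_map_of_leadingCoeff_ne_zero _ ?_
      intro h0
      apply hx
      rw [hpc, Polynomial.eval_map]
      exact h0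
    have hPx0 : Px ≠ 0 := by
      intro h0
      have h1 : Px.coeff m = 0 := by rw [h0, Polynomial.coeff_zero]
      rw [hPx, Polynomial.coeff_map] at h1
      apply hx
      rw [hpc, Polynomial.eval_map]
      exact h1
    have h1 := Pool.Agent.Q189.HG.ratio Px hPx0 (vc A x Γ) (vc B x Γ) (by
      refine Polynomial.funext fun s => ?_
      rw [Polynomial.eval_zero, Polynomial.eval_finsetSum, hPxd]
      have h2 := hX _ (hΓ s) x
      rw [eval_vp, hR, ← MvPolynomial.coe_eval₂Hom, map_sum] at h2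
      rw [← h2]
      refine Finset.sum_congr rfl fun i _ => ?_
      rw [Polynomial.eval_mul, Polynomial.eval_mul, Polynomial.eval_pow, Polynomial.eval_pow, Polynomial.eval_C,
        eval_vc, eval_vc, eval_vp, eval_vp, map_mul, map_mul, map_pow, map_pow, MvPolynomial.coe_eval₂Hom,
        MvPolynomial.eval₂_C, hPx, Polynomial.coeff_map]) 0 1
    rw [eval_vc, eval_vc, eval_vc, eval_vc, hΓ0, hΓ1] at h1
    exact h1
  -- the polynomial version
  have hpoly : ∀ X ∈ G, ∀ Y ∈ G, vp A X * vp B Y = vp A Y * vp B X := by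
    intro X hXi Y hYi
    have h1 : pc * (vp A X * vp B Y - vp A Y * vp B X) = 0 := by
      refine Polynomial.funext fun x => ?_
      rw [Polynomial.eval_mul, Polynomial.eval_sub, Polynomial.eval_mul, Polynomial.eval_mul, Polynomial.eval_zero]
      by_cases hx : pc.eval x = 0
      · rw [hx, zero_mul]
      · rw [hratio x hx X hXi Y hYi, sub_self, mul_zero]
    exact sub_eq_zero.1 ((mul_eq_zero.1 h1).resolve_left hpc0)
  have hcx : Function.Injective (cx : ℚ⟦X⟧ →+* PowerSeries ℂ) := by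
    intro f g hfg
    ext i
    have h1 := congrArg (coeff i) hfg
    rw [Pool.Agent.Y120.GH.coeff_cx, Pool.Agent.Y120.GH.coeff_cx] at h1
    exact_mod_cast h1
  -- a point with nonvanishing denominator
  set Mv : ℂ → Fin r → ℂ := fun t a => ou (cx (h a)) t with hMv
  have hval : ∀ (R : MvPolynomial (Fin r) (Polynomial ℚ)) (t : ℂ), K < ‖t‖ →
      ou (cx (MvPolynomial.aeval h R)) t = (vp R (Mv t)).eval (1 / t) := by
    intro R t ht
    rw [(ou_aeval' hK hs R).2 t ht, eval_vp]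
  have hev : ∀ᶠ t : ℂ in nhds ((K + 1 : ℝ) : ℂ), K < ‖t‖ := by
    refine (isOpen_lt continuous_const continuous_norm).mem_nhds ?_
    show K < ‖((K + 1 : ℝ) : ℂ)‖
    rw [Complex.norm_real, Real.norm_of_nonneg (by linarith)]
    linarith
  obtain ⟨Y, hYi, hY⟩ : ∃ Y ∈ G, vp B Y ≠ 0 := by
    by_contra hcon
    push Not at hcon
    apply hB
    apply hcx
    rw [map_zero]
    refine Pool.Agent.Y120.GH.ou_inj hK0 (ou_aeval' hK hs B).1 (p := ((K + 1 : ℝ) : ℂ)) hev.self_of_nhds ?_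
    filter_upwards [hev] with t ht
    rw [hval B t ht, hcon _ (hM t ht), Polynomial.eval_zero]
  have hrel : ((vp B Y : Polynomial ℂ) : PowerSeries ℂ) * cx a = ((vp A Y : Polynomial ℂ) : PowerSeries ℂ) * cx b := by
    rw [← sub_eq_zero]
    refine Pool.Agent.Y120.GH.ou_inj hK0 (p := ((K + 1 : ℝ) : ℂ)) ?_ hev.self_of_nhds ?_
    · exact Subring.sub_mem _ (Subring.mul_mem _ (Pool.Agent.Y120.GH.poly_mem _) (ou_aeval' hK hs A).1)
        (Subring.mul_mem _ (Pool.Agent.Y120.GH.poly_mem _) (ou_aeval' hK hs B).1)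
    · filter_upwards [hev] with t ht
      have e1 : ((vp B Y : Polynomial ℂ) : PowerSeries ℂ) * cx a - ((vp A Y : Polynomial ℂ) : PowerSeries ℂ) * cx b =
          ((vp B Y : Polynomial ℂ) : PowerSeries ℂ) * cx a + ((-vp A Y : Polynomial ℂ) : PowerSeries ℂ) * cx b := by
        rw [sub_eq_add_neg, ← neg_mul]
        congr 2
      rw [e1, Pool.Agent.Y120.GH.ou_add hK0 (Subring.mul_mem _ (Pool.Agent.Y120.GH.poly_mem _) (ou_aeval' hK hs A).1)
        (Subring.mul_mem _ (Pool.Agent.Y120.GH.poly_mem _) (ou_aeval' hK hs B).1) ht,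
        Pool.Agent.Y120.GH.ou_mul hK0 (Pool.Agent.Y120.GH.poly_mem _) (ou_aeval' hK hs A).1 ht,
        Pool.Agent.Y120.GH.ou_mul hK0 (Pool.Agent.Y120.GH.poly_mem _) (ou_aeval' hK hs B).1 ht,
        Pool.Agent.Y120.GH.ou_poly, Pool.Agent.Y120.GH.ou_poly, hval A t ht, hval B t ht]
      have h1 := congrArg (Polynomial.eval (1 / t)) (hpoly _ (hM t ht) Y hYi)
      rw [Polynomial.eval_mul, Polynomial.eval_mul] at h1
      rw [Polynomial.eval_neg]
      linear_combination h1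
  -- descent
  have hdep : ¬ LinearIndependent (Polynomial ℚ) (![a, b] : Fin 2 → ℚ⟦X⟧) := by
    intro hli
    have h1 := Pool.Agent.Y120.GH.li_cx hli ![vp B Y, -vp A Y] (by
      rw [Fin.sum_univ_two]
      simp only [Matrix.cons_val_zero, Matrix.cons_val_one]
      have e1 : ((-vp A Y : Polynomial ℂ) : PowerSeries ℂ) = -((vp A Y : Polynomial ℂ) : PowerSeries ℂ) := by simp
      rw [e1, hrel]
      ring) 0
    exact hY h1
  rw [Fintype.not_linearIndependent_iff] at hdep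
  obtain ⟨c, hc, i, hi⟩ := hdep
  rw [Fin.sum_univ_two] at hc
  simp only [Matrix.cons_val_zero, Matrix.cons_val_one] at hc
  rw [Algebra.smul_def, Algebra.smul_def] at hc
  have hc0 : c 0 ≠ 0 := by
    intro h0
    rw [h0, map_zero, zero_mul, zero_add] at hc
    have h1 := (mul_eq_zero.1 hc).resolve_right hB
    have h2 : c 1 = 0 := Pool.Agent.Y118.UL.ps_inj (by rw [h1, map_zero])
    fin_cases i
    · exact hi h0
    · exact hi h2
  refine ⟨-c 1, c 0, hc0, ?_⟩
  have hc0' : algebraMap (Polynomial ℚ) (FractionRing ℚ⟦X⟧) (c 0) ≠ 0 := by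
    rw [IsScalarTower.algebraMap_apply (Polynomial ℚ) ℚ⟦X⟧ (FractionRing ℚ⟦X⟧)]
    intro h0
    have h1 : algebraMap (Polynomial ℚ) ℚ⟦X⟧ (c 0) = 0 := hinj (by rw [← hφ] at h0; rw [h0, map_zero])
    exact hc0 (Pool.Agent.Y118.UL.ps_inj (by rw [h1, map_zero]))
  rw [div_eq_div_iff hB0 hc0']
  have h3 := congrArg φ hc
  rw [map_add, map_mul, map_mul, map_zero, ← IsScalarTower.algebraMap_apply (Polynomial ℚ) ℚ⟦X⟧ (FractionRing ℚ⟦X⟧),
    ← IsScalarTower.algebraMap_apply (Polynomial ℚ) ℚ⟦X⟧ (FractionRing ℚ⟦X⟧)] at h3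
  rw [map_neg]
  linear_combination h3

end

end Pool.Agent.Q189.HC
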