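import Pool.Agent.Q246.NR2.Trans

/-!
# Substitution with a common denominator
-/

set_option autoImplicit false

namespace Pool.Agent.Q189.HC

open Pool.Agent.Q246.NR Pool.Agent.Q246.NR2

/-- polynomials in quotients of polynomials with a common denominator -/
theorem sub {V σ : Type} [Fintype V] [Fintype σ] [DecidableEq V] [DecidableEq σ]
    (S : V → MvPolynomial σ ℤ) (E : MvPolynomial σ ℤ) (d : ℕ) : ∃ (D : ℕ) (Λ : ℝ), 1 ≤ Λ ∧
    ∀ (P : MvPolynomial V ℤ), P.totalDegree ≤ d → ∀ H : ℝ, (∀ e, |((P.coeff e : ℤ) : ℝ)| ≤ H) →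
    ∃ P' : MvPolynomial σ ℤ, P'.totalDegree ≤ D ∧ len P' ≤ Λ * H ∧
      ∀ (u : σ → ℂ) (y : V → ℂ), (∀ v, MvPolynomial.aeval u E * y v = MvPolynomial.aeval u (S v)) →
        MvPolynomial.aeval u P' = MvPolynomial.aeval u E ^ d * MvPolynomial.aeval y P := by
  classical
  set M : (V → Fin (d + 1)) → MvPolynomial σ ℤ := fun e => E ^ (d - ∑ v, (e v : ℕ)) * ∏ v, S v ^ (e v : ℕ) with hM
  refine ⟨∑ e, (M e).totalDegree, 1 + ∑ e, len (M e), ?_, fun P hP H hH => ?_⟩
  · have : 0 ≤ ∑ e, len (M e) := Finset.sum_nonneg fun _ _ => len_nonneg _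
    linarith
  have hH0 : 0 ≤ H := (abs_nonneg _).trans (hH 0)
  refine ⟨∑ e, MvPolynomial.C (P.coeff (tB e)) * M e, ?_, ?_, ?_⟩
  · refine (MvPolynomial.totalDegree_finsetSum _ _).trans (Finset.sup_le fun e _ => ?_)
    refine (MvPolynomial.totalDegree_mul _ _).trans ?_
    rw [MvPolynomial.totalDegree_C, zero_add]
    exact Finset.single_le_sum (f := fun e => (M e).totalDegree) (fun _ _ => Nat.zero_le _) (Finset.mem_univ e)
  · refine (len_sum _ _).trans ?_
    calc _ ≤ ∑ e : V → Fin (d + 1), H * len (M e) := by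
          refine Finset.sum_le_sum fun e _ => ?_
          refine (len_mul _ _).trans ?_
          rw [len_C, Int.norm_eq_abs]
          exact mul_le_mul_of_nonneg_right (hH _) (len_nonneg _)
      _ = (∑ e, len (M e)) * H := by
          rw [Finset.sum_mul]
          exact Finset.sum_congr rfl fun e _ => mul_comm _ _
      _ ≤ _ := mul_le_mul_of_nonneg_right (by linarith) hH0
  · intro u y hy
    rw [MvPolynomial.aeval_def y, eval_tB _ P hP, map_sum, Finset.mul_sum]
    refine Finset.sum_congr rfl fun e _ => ?_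
    by_cases hdeg : ∑ v, (e v : ℕ) ≤ d
    · rw [map_mul, MvPolynomial.aeval_C, hM]
      beta_reduce
      rw [map_mul, map_pow, map_prod]
      have h1 : ∀ v, MvPolynomial.aeval u (S v ^ (e v : ℕ)) = MvPolynomial.aeval u E ^ (e v : ℕ) * y v ^ (e v : ℕ) := by
        intro v
        rw [map_pow, ← hy v, mul_pow]
      simp only [h1]
      rw [Finset.prod_mul_distrib, Finset.prod_pow_eq_pow_sum]
      have h3 : MvPolynomial.aeval u E ^ d = MvPolynomial.aeval u E ^ (d - ∑ v, (e v : ℕ)) *
          MvPolynomial.aeval u E ^ (∑ v, (e v : ℕ)) := by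
        rw [← pow_add, Nat.sub_add_cancel hdeg]
      rw [h3]
      ring
    · have h0 : P.coeff (tB e) = 0 := by
        by_contra hne
        apply hdeg
        have h1 := (MvPolynomial.le_totalDegree (MvPolynomial.mem_support_iff.2 hne)).trans hP
        rw [Finsupp.sum_fintype _ _ (fun _ => rfl)] at h1
        simpa only [tB_apply] using h1
      rw [h0]
      simp

lemma coeff_le_len {σ : Type} (P : MvPolynomial σ ℤ) (e) : |((P.coeff e : ℤ) : ℝ)| ≤ len P := by
  have h := norm_coeff_le_len P e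
  rwa [Int.norm_eq_abs] at h

end Pool.Agent.Q189.HC
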