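import Pool.Agent.Q189.HC.Inv
import Pool.Agent.Q189.HC.Sub
import Pool.Agent.Q189.HC.Liou
import Pool.Agent.Q189.HG.Fin

/-!
# Hyperelliptic families: the periods as coordinates, and the transfer of near relations
-/

set_option autoImplicit false

open PowerSeries

namespace Pool.Agent.Q189.HC

open Pool.Agent.Y118.HP Pool.Agent.Y118.HG
open Pool.Agent.Y119.HZ (ix evq)
open Pool.Agent.Y120.GH (cx Cw ou inn)
open Pool.Agent.Q246.NR Pool.Agent.Q246.NR2 Pool.Agent.Q189.MF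
open Pool.Agent.Q189.HG (pnt)

section rvp
variable {σ : Type}

/-- the polynomial `x ^ K p (1 / x)` -/
noncomputable def rvp (K : ℕ) (p : Polynomial ℤ) (τ : σ) : MvPolynomial σ ℤ :=
  ∑ i ∈ Finset.range (K + 1), MvPolynomial.C (p.coeff i) * MvPolynomial.X τ ^ (K - i)

lemma aeval_rvp {K : ℕ} {p : Polynomial ℤ} (hK : p.natDegree ≤ K) (τ : σ) (u : σ → ℂ) (hu : u τ ≠ 0) :
    MvPolynomial.aeval u (rvp K p τ) = u τ ^ K * Polynomial.aeval (1 / u τ) p := by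
  unfold rvp
  rw [map_sum, Polynomial.aeval_eq_sum_range' (Nat.lt_succ_of_le hK), Finset.mul_sum]
  refine Finset.sum_congr rfl fun i hi => ?_
  rw [Finset.mem_range] at hi
  rw [map_mul, MvPolynomial.aeval_C, map_pow, MvPolynomial.aeval_X, zsmul_eq_mul]
  have h1 : u τ ^ K = u τ ^ (K - i) * u τ ^ i := by rw [← pow_add]; congr 1; omega
  rw [h1, one_div, inv_pow]
  have h2 : u τ ^ i ≠ 0 := pow_ne_zero _ hu
  rw [eq_intCast]
  field_simp

end rvp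

variable {k : ℕ} {n : Fin k → ℕ} {a : ∀ j, Fin (n j) → ℝ} {m : ∀ j, Fin (n j + 1)} {f : Fin k → Polynomial ℚ}

/-- the coordinates: a number and a square matrix for every `j` -/
abbrev Crd (n : Fin k → ℕ) : Type := Σ j : Fin k, Option (Fin (n j) × Fin (n j))

/-- the constants -/
abbrev Cst (n : Fin k → ℕ) (g : ℕ) : Type := Option (Fin g) ⊕ (Σ j : Fin k, Fin (n j) × Fin (n j))

/-- the number of the constants -/
def gg (n : Fin k → ℕ) (g : ℕ) : ℕ := Fintype.card (Cst n g)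

/-- numbering -/
noncomputable def en (n : Fin k → ℕ) (g : ℕ) : Cst n g ≃ Fin (gg n g) := Fintype.equivFin _

/-- the number `2πi` -/
noncomputable def tpi : ℂ := 2 * Real.pi * Complex.I

/-- the constants -/
noncomputable def zz (Δ : ∀ j, ZDat (n j) (a j) (m j) (f j)) {g : ℕ} (ζ : Fin g → ℂ) : Cst n g → ℂ :=
  Sum.elim (op tpi ζ) fun x => AC (a x.1) (m x.1) (Δ x.1).V x.2.1 x.2.2

/-- the constants -/
noncomputable def zf (Δ : ∀ j, ZDat (n j) (a j) (m j) (f j)) {g : ℕ} (ζ : Fin g → ℂ) (i : Fin (gg n g)) : ℂ :=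
  zz Δ ζ ((en n g).symm i)

/-- the variables -/
abbrev Vr (n : Fin k → ℕ) (g : ℕ) : Type := (Σ j : Fin k, Option (Fin (n j * n j))) ⊕ (Fin (gg n g) ⊕ Fin k)

/-- the denominator -/
noncomputable def EE (n : Fin k → ℕ) (g : ℕ) (D : ℤ) (K : ℕ) : MvPolynomial (Vr n g) ℤ :=
  MvPolynomial.C D * ∏ j, MvPolynomial.X (Sum.inr (Sum.inr j)) ^ K

/-- the substitution -/
noncomputable def SC (g : ℕ) (D : ℤ) (K : ℕ) (p : (Σ j : Fin k, Fin (n j) × Fin (n j)) → Polynomial ℤ) :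
    Crd n ⊕ (Option (Fin g) ⊕ Fin k) → MvPolynomial (Vr n g) ℤ
  | Sum.inl ⟨j, none⟩ => EE n g D K * MvPolynomial.X (Sum.inl ⟨j, none⟩)
  | Sum.inl ⟨j, some x⟩ => (∏ i ∈ Finset.univ.erase j, MvPolynomial.X (Sum.inr (Sum.inr i)) ^ K) *
      ∑ q, (∑ p', MvPolynomial.X (Sum.inr (Sum.inl (en n g (Sum.inr ⟨j, (x.1, p')⟩)))) *
        MvPolynomial.X (Sum.inl ⟨j, some ((ix (n j)).symm (q, p'))⟩)) * rvp K (p ⟨j, (q, x.2)⟩) (Sum.inr (Sum.inr j))
  | Sum.inr (Sum.inl o) => EE n g D K * MvPolynomial.X (Sum.inr (Sum.inl (en n g (Sum.inl o))))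
  | Sum.inr (Sum.inr j) => EE n g D K * MvPolynomial.X (Sum.inr (Sum.inr j))

/-- the point of the machine -/
def yC (l : Fin k → ℂ) (W : ∀ j, Matrix (Fin (n j)) (Fin (n j)) ℂ) : (Σ j : Fin k, Option (Fin (n j * n j))) → ℂ
  | ⟨j, none⟩ => l j
  | ⟨j, some e⟩ => co (W j) e

/-- the periods in terms of the matrix `W` -/
noncomputable def Xm (Δ : ∀ j, ZDat (n j) (a j) (m j) (f j)) (t : Fin k → ℂ) (W : ∀ j, Matrix (Fin (n j)) (Fin (n j)) ℂ) (j : Fin k) :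
    Matrix (Fin (n j)) (Fin (n j)) ℂ :=
  AC (a j) (m j) (Δ j).V * W j * (Δ j).U.map (Polynomial.aeval (1 / t j))

lemma EE_eval {g : ℕ} (D : ℤ) (K : ℕ) (y : (Σ j : Fin k, Option (Fin (n j * n j))) → ℂ) (z : Fin (gg n g) → ℂ) (t : Fin k → ℂ) :
    MvPolynomial.aeval (Sum.elim y (Sum.elim z t)) (EE n g D K) = (D : ℂ) * ∏ j, t j ^ K := by
  unfold EE
  rw [map_mul, MvPolynomial.aeval_C, map_prod]
  simp only [map_pow, MvPolynomial.aeval_X, Sum.elim_inr]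
  rfl

section
variable (g : ℕ) (D : ℤ) (K : ℕ) (p : (Σ j : Fin k, Fin (n j) × Fin (n j)) → Polynomial ℤ)

lemma SC_none (j : Fin k) : SC g D K p (Sum.inl ⟨j, none⟩) = EE n g D K * MvPolynomial.X (Sum.inl ⟨j, none⟩) := rfl

lemma SC_some (j : Fin k) (x : Fin (n j) × Fin (n j)) : SC g D K p (Sum.inl ⟨j, some x⟩) =
    (∏ i ∈ Finset.univ.erase j, MvPolynomial.X (Sum.inr (Sum.inr i)) ^ K) *
      ∑ q, (∑ p', MvPolynomial.X (Sum.inr (Sum.inl (en n g (Sum.inr ⟨j, (x.1, p')⟩)))) *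
        MvPolynomial.X (Sum.inl ⟨j, some ((ix (n j)).symm (q, p'))⟩)) * rvp K (p ⟨j, (q, x.2)⟩) (Sum.inr (Sum.inr j)) := rfl

lemma SC_inl (o : Option (Fin g)) : SC g D K p (Sum.inr (Sum.inl o)) =
    EE n g D K * MvPolynomial.X (Sum.inr (Sum.inl (en n g (Sum.inl o)))) := rfl

lemma SC_inr (j : Fin k) : SC g D K p (Sum.inr (Sum.inr j)) = EE n g D K * MvPolynomial.X (Sum.inr (Sum.inr j)) := rfl

end

lemma zf_en (Δ : ∀ j, ZDat (n j) (a j) (m j) (f j)) {g : ℕ} (ζ : Fin g → ℂ) (c : Cst n g) : zf Δ ζ (en n g c) = zz Δ ζ c := by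
  unfold zf
  rw [Equiv.symm_apply_apply]

lemma SC_eval_some (Δ : ∀ j, ZDat (n j) (a j) (m j) (f j)) {g : ℕ} {D : ℤ} {K : ℕ} {p : (Σ j : Fin k, Fin (n j) × Fin (n j)) → Polynomial ℤ}
    (hp : ∀ x, (p x).map (Int.castRingHom ℚ) = Polynomial.C (D : ℚ) * (Δ x.1).U x.2.1 x.2.2) (hK : ∀ x, (p x).natDegree ≤ K)
    (ζ : Fin g → ℂ) (t : Fin k → ℂ) (ht : ∀ j, t j ≠ 0) (l : Fin k → ℂ) (W : ∀ j, Matrix (Fin (n j)) (Fin (n j)) ℂ)
    (j : Fin k) (x : Fin (n j) × Fin (n j)) :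
    ((D : ℂ) * ∏ j, t j ^ K) * Xm Δ t W j x.1 x.2 =
      MvPolynomial.aeval (Sum.elim (yC l W) (Sum.elim (zf Δ ζ) t)) (SC g D K p (Sum.inl ⟨j, some x⟩)) := by
  rw [SC_some, map_mul, map_prod, map_sum]
  have h1 : ∀ q, MvPolynomial.aeval (Sum.elim (yC l W) (Sum.elim (zf Δ ζ) t))
      ((∑ p', MvPolynomial.X (Sum.inr (Sum.inl (en n g (Sum.inr ⟨j, (x.1, p')⟩)))) *
      MvPolynomial.X (Sum.inl ⟨j, some ((ix (n j)).symm (q, p'))⟩)) * rvp K (p ⟨j, (q, x.2)⟩) (Sum.inr (Sum.inr j)) :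
        MvPolynomial (Vr n g) ℤ) = (∑ p', AC (a j) (m j) (Δ j).V x.1 p' * W j p' q) *
          (t j ^ K * ((D : ℂ) * Polynomial.aeval (1 / t j) ((Δ j).U q x.2))) := by
    intro q
    rw [map_mul, map_sum, aeval_rvp (hK _) (Sum.inr (Sum.inr j)) _ (by simpa using ht j)]
    congr 1
    · refine Finset.sum_congr rfl fun p' _ => ?_
      rw [map_mul, MvPolynomial.aeval_X, MvPolynomial.aeval_X, Sum.elim_inr, Sum.elim_inl, Sum.elim_inl, zf_en]
      unfold zz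
      rw [Sum.elim_inr]
      have h2 : yC l W ⟨j, some ((ix (n j)).symm (q, p'))⟩ = co (W j) ((ix (n j)).symm (q, p')) := rfl
      rw [h2]
      unfold co
      rw [Equiv.apply_symm_apply]
    · rw [Sum.elim_inr, Sum.elim_inr]
      congr 1
      have h2 := congrArg (Polynomial.aeval (1 / t j)) (hp ⟨j, (q, x.2)⟩)
      rw [map_mul, Polynomial.aeval_C] at h2
      have h3 : Polynomial.aeval (1 / t j) ((p ⟨j, (q, x.2)⟩).map (Int.castRingHom ℚ)) =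
          Polynomial.aeval (1 / t j) (p ⟨j, (q, x.2)⟩) := by
        rw [← algebraMap_int_eq, Polynomial.aeval_map_algebraMap]
      rw [h3] at h2
      rw [h2]
      simp
  simp only [h1]
  have h4 : ∀ i, MvPolynomial.aeval (Sum.elim (yC l W) (Sum.elim (zf Δ ζ) t)) (MvPolynomial.X (Sum.inr (Sum.inr i)) ^ K :
      MvPolynomial (Vr n g) ℤ) = t i ^ K := by
    intro i
    rw [map_pow, MvPolynomial.aeval_X, Sum.elim_inr, Sum.elim_inr]
  simp only [h4]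
  rw [← Finset.mul_prod_erase Finset.univ (fun j => t j ^ K) (Finset.mem_univ j)]
  have h5 : Xm Δ t W j x.1 x.2 =
      ∑ q, (∑ p', AC (a j) (m j) (Δ j).V x.1 p' * W j p' q) * Polynomial.aeval (1 / t j) ((Δ j).U q x.2) := by
    unfold Xm
    rw [Matrix.mul_apply]
    refine Finset.sum_congr rfl fun q _ => ?_
    rw [Matrix.mul_apply, Matrix.map_apply]
  rw [h5, Finset.mul_sum, Finset.mul_sum]
  refine Finset.sum_congr rfl fun q _ => ?_
  ring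

lemma SC_eval (Δ : ∀ j, ZDat (n j) (a j) (m j) (f j)) {g : ℕ} {D : ℤ} {K : ℕ} {p : (Σ j : Fin k, Fin (n j) × Fin (n j)) → Polynomial ℤ}
    (hp : ∀ x, (p x).map (Int.castRingHom ℚ) = Polynomial.C (D : ℚ) * (Δ x.1).U x.2.1 x.2.2) (hK : ∀ x, (p x).natDegree ≤ K)
    (ζ : Fin g → ℂ) (t : Fin k → ℂ) (ht : ∀ j, t j ≠ 0) (l : Fin k → ℂ) (W : ∀ j, Matrix (Fin (n j)) (Fin (n j)) ℂ)
    (v : Crd n ⊕ (Option (Fin g) ⊕ Fin k)) :
    MvPolynomial.aeval (Sum.elim (yC l W) (Sum.elim (zf Δ ζ) t)) (EE n g D K) *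
      Sum.elim (pnt l (Xm Δ t W)) (Sum.elim (op tpi ζ) t) v =
      MvPolynomial.aeval (Sum.elim (yC l W) (Sum.elim (zf Δ ζ) t)) (SC g D K p v) := by
  rcases v with ⟨j, _ | x⟩ | o | j
  · rw [SC_none, map_mul, MvPolynomial.aeval_X, Sum.elim_inl, Sum.elim_inl]
    congr 1
  · rw [EE_eval, Sum.elim_inl]
    exact SC_eval_some Δ hp hK ζ t ht l W j x
  · rw [SC_inl, map_mul, MvPolynomial.aeval_X, Sum.elim_inr, Sum.elim_inr, Sum.elim_inl, Sum.elim_inl, zf_en]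
    congr 1
  · rw [SC_inr, map_mul, MvPolynomial.aeval_X]
    congr 1

/-- the torsor with the value `lam` of the last coordinate -/
def TorC (n : Fin k → ℕ) (f : Fin k → Polynomial ℚ) (t : Fin k → ℂ) (lam : ℂ) : Set (∀ j, Matrix (Fin (n j)) (Fin (n j)) ℂ) :=
  {X | ∀ j, X j * (Qp (n j) (f j)).map (Polynomial.aeval (1 / t j)) * (X j).transpose = (-2 * lam) • jm ℂ (n j)}

end Pool.Agent.Q189.HC
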