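import Pool.Agent.Q189.HC.Mes

/-!
# Measures of algebraic independence and near relations for the periods of almost all products of hyperelliptic curves
-/

set_option autoImplicit false

open PowerSeries

namespace Pool.Agent.Q189.HC

open Pool.Agent.Y118.HP Pool.Agent.Y118.HG
open Pool.Agent.Q246.NR Pool.Agent.Q246.NR2 Pool.Agent.Q189.MF Pool.Agent.Y916.Sl
open Pool.Agent.Q189.HG (pnt)

variable {k : ℕ} {n : Fin k → ℕ} {a : ∀ j, Fin (n j) → ℝ} {m : ∀ j, Fin (n j + 1)} {f : Fin k → Polynomial ℚ}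

lemma Tr.mono {g d B B' : ℕ} {ζ : Fin g → ℂ} {t : Fin k → ℂ} {H H' : ℝ} (h1 : 1 ≤ H) (h2 : H ≤ H') (h3 : H' ≤ H ^ 2)
    (hB : 2 * B ≤ B') (hg : Tr n a m f d B ζ t H') : Tr n a m f d B' ζ t H := by
  intro ℓ hℓ hℓH P hd hH l X hX
  refine (hg ℓ hℓ (fun j => (hℓH j).trans h2) P hd (fun e => (hH e).trans h2) l X hX).trans ?_
  refine mul_le_mul_of_nonneg_right ?_ (norm_nonneg _)
  have h4 : 1 ≤ max 1 ‖pnt l X‖ := le_max_left _ _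
  have h5 : 1 ≤ H * max 1 ‖pnt l X‖ := by nlinarith
  refine le_trans ?_ (pow_le_pow_right₀ h5 hB)
  rw [pow_mul]
  refine pow_le_pow_left₀ (mul_nonneg (by linarith) (by positivity)) ?_ _
  calc H' * max 1 ‖pnt l X‖ ≤ H ^ 2 * max 1 ‖pnt l X‖ := mul_le_mul_of_nonneg_right h3 (by positivity)
    _ ≤ H ^ 2 * max 1 ‖pnt l X‖ ^ 2 := mul_le_mul_of_nonneg_left (le_self_pow₀ h4 (by norm_num)) (by positivity)
    _ = _ := by ring

lemma Ms.mono {d B B' : ℕ} {t : Fin k → ℂ} {H H' : ℝ} (h1 : 1 ≤ H) (h2 : H ≤ H') (h3 : H' ≤ H ^ 2)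
    (hB : 2 * B ≤ B') (hg : Ms n a m f d B t H') : Ms n a m f d B' t H := by
  intro ℓ hℓ hℓH P hd hH hy
  refine (hg ℓ hℓ (fun j => (hℓH j).trans h2) P hd (fun e => (hH e).trans h2) hy).trans ?_
  refine mul_le_mul_of_nonneg_right ?_ (norm_nonneg _)
  refine le_trans ?_ (pow_le_pow_right₀ h1 hB)
  rw [pow_mul]
  exact pow_le_pow_left₀ (by linarith) h3 _

/-- the periods are on the torsor -/
theorem CMz_mem (hn : ∀ j, Even (n j)) (h0 : ∀ j, InGap (a j) (m j) 0) (ha : ∀ j, StrictMono (a j))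
    (hf : ∀ j, (f j).map (algebraMap ℚ ℝ) = ∏ i, (Polynomial.X - Polynomial.C (a j i))) (Δ : ∀ j, ZDat (n j) (a j) (m j) (f j)) :
    ∃ R : ℕ, ∀ t : Fin k → ℂ, (∀ j, (R : ℝ) < ‖t j‖) → (fun j => CMz (a j) (m j) (1 / t j)) ∈ TorC n f t tpi := by
  choose r hr hrD hval using fun j => CMz_val (hn j) (ha j) (h0 j) (Δ j)
  choose K hK hs using fun j => size_hz (Δ j)
  obtain ⟨R, hR⟩ := exists_nat_ge (∑ j, (1 / r j + K j) + 1)
  have hnn : ∀ j, 0 ≤ 1 / r j + K j := fun j => by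
    have := hr j
    have := hK j
    positivity
  have hRj : ∀ j, 1 / r j + K j ≤ R - 1 := by
    intro j
    have : 1 / r j + K j ≤ ∑ j, (1 / r j + K j) := Finset.single_le_sum (f := fun j => 1 / r j + K j)
      (fun j _ => hnn j) (Finset.mem_univ j)
    linarith
  refine ⟨R, fun t ht j => ?_⟩
  have h1 := hRj j
  have h2 := ht j
  have h3 := hr j
  have h4 := hK j
  have h5 : 0 < 1 / r j := by positivity
  have htp : 0 < ‖t j‖ := by linarith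
  have hz : ‖1 / t j‖ < r j := by
    rw [norm_div, norm_one, div_lt_iff₀ htp]
    have h6 : 1 / r j < ‖t j‖ := by linarith
    rw [div_lt_iff₀ h3] at h6
    linarith
  have hv := hval j (1 / t j) hz
  have hsp := Zi_sp (Δ j) h4 (hs j) (t := t j) (by linarith)
  have hA := AC_J (hn j) (ha j) (h0 j) (hf j) (Δ j).VJ
  have hc : (-2 * tpi : ℂ) = -4 * Real.pi * Complex.I := by unfold tpi; ring
  rw [← hc] at hA
  simp only
  rw [hv, Qp_aevalC (Δ j).VJ]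
  have h8 : ((Δ j).V.map (Polynomial.aeval (1 / t j))).transpose * ((Δ j).U.map (Polynomial.aeval (1 / t j))).transpose = 1 := by
    rw [← Matrix.transpose_mul, UVc, Matrix.transpose_one]
  have h9 : (Δ j).U.map (Polynomial.aeval (1 / t j)) * (Δ j).V.map (Polynomial.aeval (1 / t j)) = 1 := UVc _ _
  set A := AC (a j) (m j) (Δ j).V
  set U := (Δ j).U.map (Polynomial.aeval (1 / t j))
  set V := (Δ j).V.map (Polynomial.aeval (1 / t j))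
  have hZ : Zi (Δ j) (1 / t j) = Zt (Δ j) (t j) := rfl
  rw [hZ]
  set Z := Zt (Δ j) (t j)
  rw [Matrix.transpose_mul, Matrix.transpose_mul]
  calc A * Z * U * (V * jm ℂ (n j) * V.transpose) * (U.transpose * (Z.transpose * A.transpose)) =
      A * (Z * (U * V) * jm ℂ (n j) * (V.transpose * U.transpose) * Z.transpose) * A.transpose := by
        simp only [Matrix.mul_assoc]
    _ = _ := by rw [h8, h9, Matrix.mul_one, Matrix.mul_one, hsp, hA]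

theorem main (hn : ∀ j, Even (n j)) (h0 : ∀ j, InGap (a j) (m j) 0) (ha : ∀ j, StrictMono (a j))
    (hf : ∀ j, (f j).map (algebraMap ℚ ℝ) = ∏ i, (Polynomial.X - Polynomial.C (a j i))) (hf0 : ∀ j, (f j).coeff 0 ≠ 0)
    (g mm d : ℕ) (hm : 1 ≤ mm) : ∃ R : ℕ, 1 ≤ R ∧
    (∀ t : Fin k → ℂ, (∀ j, (R : ℝ) < ‖t j‖) → (fun j => CMz (a j) (m j) (1 / t j)) ∈ TorC n f t tpi) ∧
    ∀ (Z : Type) (ζf : Z → Fin g → ℂ) (Gd : ℕ → Z → (Fin k → ℂ) → ℝ → Prop),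
    (∀ B₀ : ℕ, ∃ B : ℕ, ∀ T : ℕ, 1 ≤ T → ∃ H₀ : ℝ, ∀ z x H, H₀ ≤ H → (∀ j, AInt mm T (x j)) →
      (∀ j, (R : ℝ) < ‖x j‖) → Tr n a m f d B₀ (ζf z) x H → Ms n a m f d B₀ x H → Gd B z x H) →
    (∀ B z x H H', 1 ≤ H → H ≤ H' → H' ≤ H ^ 2 → Gd B z x H' → Gd (2 * B) z x H) →
    ∃ (B : ℕ) (C c : ℝ), 0 < c ∧ ∀ T : ℕ, 1 ≤ T →
    (∃ H₀ : ℝ, ∀ H₁ : ℝ, H₀ ≤ H₁ → ∀ z : Z,
      (({x : Fin k → ℂ | (∀ j, SInt mm T (x j)) ∧ ¬ ∀ H : ℝ, H₁ ≤ H → H ≤ H₁ ^ Real.exp ((T : ℝ) ^ c) →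
        Gd B z x H}.ncard : ℕ) : ℝ) ≤ C * (T : ℝ) ^ (-c) * (({ξ : ℂ | SInt mm T ξ}.ncard : ℕ) : ℝ) ^ k) ∧
    ∀ z : Z, (({x : Fin k → ℂ | (∀ j, SInt mm T (x j)) ∧ ¬ ∀ N₀ : ℕ, ∃ N, N₀ ≤ N ∧
      (({j : ℕ | j < N ∧ ¬ ∀ H : ℝ, 2 ^ (2 ^ j) ≤ H → H ≤ 2 ^ (2 ^ (j + 1)) → Gd B z x H}.ncard : ℕ) : ℝ) ≤
          (T : ℝ) ^ (-c) * N}.ncard : ℕ) : ℝ) ≤ C * (T : ℝ) ^ (-c) * (({ξ : ℂ | SInt mm T ξ}.ncard : ℕ) : ℝ) ^ k := by
  classical
  have hΔ : ∀ j, Nonempty (ZDat (n j) (a j) (m j) (f j)) := fun j => exists_ZDat (hn j) (ha j) (h0 j) (hf j) (hf0 j)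
  set Δ : ∀ j, ZDat (n j) (a j) (m j) (f j) := fun j => (hΔ j).some with hΔd
  choose T₀ A₀ hgfs using fun j => gfs_hz (hn j) (ha j) (h0 j) (hf j) (hf0 j) (Δ j)
  obtain ⟨D₀, R₁, htr⟩ := transfer hn h0 ha hf Δ g d
  obtain ⟨R₂, hR₂⟩ := CMz_mem hn h0 ha hf Δ
  have hc1 : ((max (max R₁ R₂) 1 : ℕ) : ℝ) = max (max (R₁ : ℝ) R₂) 1 := by push_cast; rfl
  refine ⟨max (max R₁ R₂) 1, le_max_right _ _, fun t ht => hR₂ t fun j => lt_of_le_of_lt (by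
    rw [hc1]
    exact (le_max_right _ _).trans (le_max_left _ _)) (ht j), fun Z ζf Gd hGd hmono => ?_⟩
  refine torD (r := fun j => n j * n j) (h := fun j => hz (Δ j)) (fun j => Pool.Agent.Q246.AF.t_famN (hgfs j))
    (fun j => ?_) (fun j => conn_hz (hn j) (ha j) (h0 j) (hf j) (Δ j)) (gg n g) mm D₀ 2 (max (max R₁ R₂) 1) hm (by norm_num)
    (fun z : Z => zf Δ (ζf z)) Gd (fun B₀ => ?_) hmono
  · obtain ⟨K, -, h⟩ := size_hz (Δ j)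
    exact ⟨K, h⟩
  obtain ⟨B₁, H₁, hB₁⟩ := htr B₀
  obtain ⟨B₂, hB₂⟩ := measure hn Δ g d mm B₁
  obtain ⟨B₃, hB₃⟩ := hGd (2 * B₁ + 2 * B₂)
  refine ⟨B₃, fun T hT => ?_⟩
  obtain ⟨H₂, hH₂⟩ := hB₂ T hT
  obtain ⟨H₃, hH₃⟩ := hB₃ T hT
  refine ⟨max (max H₁ H₂) (max H₃ 1), fun z x H hH hx hxR hg => ?_⟩
  have hH1 : 1 ≤ H := (le_max_right _ _).trans ((le_max_right _ _).trans hH)
  have hR1 : ∀ j, (R₁ : ℝ) < ‖x j‖ ∧ 1 ≤ ‖x j‖ := by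
    intro j
    have h5 := hxR j
    rw [hc1] at h5
    exact ⟨lt_of_le_of_lt ((le_max_left _ _).trans (le_max_left _ _)) h5, (le_max_right _ _).trans h5.le⟩
  have h1 := hB₁ (ζf z) x H ((le_max_left _ _).trans ((le_max_left _ _).trans hH)) (fun j => (hR1 j).1) hg
  have h2 := hH₂ (ζf z) x H ((le_max_right _ _).trans ((le_max_left _ _).trans hH)) hx (fun j => (hR1 j).2) h1
  exact hH₃ z x H ((le_max_left _ _).trans ((le_max_right _ _).trans hH)) hx hxR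
    (h1.mono hH1 le_rfl (le_self_pow₀ hH1 (by norm_num)) (by omega))
    (h2.mono hH1 le_rfl (le_self_pow₀ hH1 (by norm_num)) (by omega))

end Pool.Agent.Q189.HC
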