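import Pool.Agent.Q189.HC.Fin

/-!
# The measure for the periods of products of hyperelliptic curves, without logarithms
-/

set_option autoImplicit false

open PowerSeries

namespace Pool.Agent.Q189.HC

open Pool.Agent.Y118.HP Pool.Agent.Y118.HG
open Pool.Agent.Q246.NR Pool.Agent.Q246.NR2 Pool.Agent.Q189.MF Pool.Agent.Y916.Sl
open Pool.Agent.Q189.HG (pnt)

variable {k : ℕ} {n : Fin k → ℕ} {a : ∀ j, Fin (n j) → ℝ} {m : ∀ j, Fin (n j + 1)} {f : Fin k → Polynomial ℚ}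

/-- the coordinates of the period matrices, the number `2πi` and the points -/
def pnM (X : ∀ j, Matrix (Fin (n j)) (Fin (n j)) ℂ) (lam : ℂ) (t : Fin k → ℂ) :
    (Σ j : Fin k, Fin (n j) × Fin (n j)) ⊕ Option (Fin k) → ℂ
  | Sum.inl x => X x.1 x.2.1 x.2.2
  | Sum.inr none => lam
  | Sum.inr (some j) => t j

/-- the measure -/
def MsN (n : Fin k → ℕ) (a : ∀ j, Fin (n j) → ℝ) (m : ∀ j, Fin (n j + 1)) (f : Fin k → Polynomial ℚ) (d B : ℕ)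
    (t : Fin k → ℂ) (H : ℝ) : Prop :=
  ∀ P : MvPolynomial ((Σ j : Fin k, Fin (n j) × Fin (n j)) ⊕ Option (Fin k)) ℤ, P.totalDegree ≤ d →
    (∀ e, |((P.coeff e : ℤ) : ℝ)| ≤ H) →
      (∃ (lam : ℂ) (X : ∀ j, Matrix (Fin (n j)) (Fin (n j)) ℂ), lam ≠ 0 ∧ X ∈ TorC n f t lam ∧
        MvPolynomial.aeval (pnM X lam t) P ≠ 0) →
      1 ≤ H ^ B * ‖MvPolynomial.aeval (pnM (fun j => CMz (a j) (m j) (1 / t j)) tpi t) P‖

lemma MsN.mono {d B B' : ℕ} {t : Fin k → ℂ} {H H' : ℝ} (h1 : 1 ≤ H) (h2 : H ≤ H') (h3 : H' ≤ H ^ 2)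
    (hB : 2 * B ≤ B') (hg : MsN n a m f d B t H') : MsN n a m f d B' t H := by
  intro P hd hH hy
  refine (hg P hd (fun e => (hH e).trans h2) hy).trans ?_
  refine mul_le_mul_of_nonneg_right ?_ (norm_nonneg _)
  refine le_trans ?_ (pow_le_pow_right₀ h1 hB)
  rw [pow_mul]
  exact pow_le_pow_left₀ (by linarith) h3 _

/-- the renaming -/
def rnM (n : Fin k → ℕ) : (Σ j : Fin k, Fin (n j) × Fin (n j)) ⊕ Option (Fin k) → Crd n ⊕ Option (Fin k) :=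
  Sum.map (fun x => ⟨x.1, some x.2⟩) id

lemma rnM_inj : Function.Injective (rnM n) := by
  refine Function.Injective.sumMap ?_ Function.injective_id
  rintro ⟨i, x⟩ ⟨j, y⟩ h
  simp only [Sigma.mk.injEq] at h
  obtain ⟨rfl, h2⟩ := h
  rw [heq_eq_eq] at h2
  rw [Option.some.inj h2]

lemma rnM_eval (l : Fin k → ℂ) (X : ∀ j, Matrix (Fin (n j)) (Fin (n j)) ℂ) (lam : ℂ) (t : Fin k → ℂ)
    (P : MvPolynomial ((Σ j : Fin k, Fin (n j) × Fin (n j)) ⊕ Option (Fin k)) ℤ) :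
    MvPolynomial.aeval (Sum.elim (pnt l X) (op lam t)) (MvPolynomial.rename (rnM n) P) = MvPolynomial.aeval (pnM X lam t) P := by
  rw [MvPolynomial.aeval_rename]
  congr 2
  funext v
  rcases v with v | _ | j
  · rfl
  · rfl
  · rfl

lemma norm_log {z : ℂ} (h1 : 1 ≤ ‖z‖) {T : ℝ} (h2 : ‖z‖ ≤ T) : ‖Complex.log z‖ ≤ T + 4 := by
  have h3 : ‖Complex.log z‖ ≤ |(Complex.log z).re| + |(Complex.log z).im| := Complex.norm_le_abs_re_add_abs_im _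
  rw [Complex.log_re, Complex.log_im] at h3
  have h4 : |Real.log ‖z‖| ≤ T := by
    rw [abs_of_nonneg (Real.log_nonneg h1)]
    have := Real.log_le_sub_one_of_pos (x := ‖z‖) (by linarith)
    linarith
  have h5 := Complex.abs_arg_le_pi z
  have h6 := Real.pi_le_four
  linarith

theorem Ms.toN {d B : ℕ} {t : Fin k → ℂ} {H T : ℝ} (hH : T + 4 ≤ H) (ht1 : ∀ j, 1 ≤ ‖t j‖) (htT : ∀ j, ‖t j‖ ≤ T)
    (h : Ms n a m f d B t H) : MsN n a m f d B t H := by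
  intro P hPd hPH hex
  obtain ⟨lam, X, h1, h2, h3⟩ := hex
  have ht0 : ∀ j, t j ≠ 0 := fun j h => by
    have := ht1 j
    rw [h, norm_zero] at this
    linarith
  have h4 := h (fun j => Complex.log (t j)) (fun j => Complex.exp_log (ht0 j)) (fun j => (norm_log (ht1 j) (htT j)).trans hH)
    (MvPolynomial.rename (rnM n) P) ((MvPolynomial.totalDegree_rename_le _ _).trans hPd) (coeff_rename_le rnM_inj P hPH)
    ⟨fun _ => 0, lam, X, h1, h2, by rw [rnM_eval]; exact h3⟩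
  rw [rnM_eval] at h4
  exact h4

theorem mainN (hn : ∀ j, Even (n j)) (h0 : ∀ j, InGap (a j) (m j) 0) (ha : ∀ j, StrictMono (a j))
    (hf : ∀ j, (f j).map (algebraMap ℚ ℝ) = ∏ i, (Polynomial.X - Polynomial.C (a j i))) (hf0 : ∀ j, (f j).coeff 0 ≠ 0)
    (mm d : ℕ) (hm : 1 ≤ mm) : ∃ R : ℕ, 1 ≤ R ∧
    (∀ t : Fin k → ℂ, (∀ j, (R : ℝ) < ‖t j‖) → (fun j => CMz (a j) (m j) (1 / t j)) ∈ TorC n f t tpi) ∧
    ∃ (B : ℕ) (C c : ℝ), 0 < c ∧ ∀ T : ℕ, 1 ≤ T →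
    (∃ H₀ : ℝ, ∀ H₁ : ℝ, H₀ ≤ H₁ →
      (({x : Fin k → ℂ | (∀ j, SInt mm T (x j)) ∧ ¬ ∀ H : ℝ, H₁ ≤ H → H ≤ H₁ ^ Real.exp ((T : ℝ) ^ c) →
        (∀ j, (R : ℝ) < ‖x j‖) ∧ MsN n a m f d B x H}.ncard : ℕ) : ℝ) ≤
          C * (T : ℝ) ^ (-c) * (({ξ : ℂ | SInt mm T ξ}.ncard : ℕ) : ℝ) ^ k) ∧
    (({x : Fin k → ℂ | (∀ j, SInt mm T (x j)) ∧ ¬ ∀ N₀ : ℕ, ∃ N, N₀ ≤ N ∧
      (({j : ℕ | j < N ∧ ¬ ∀ H : ℝ, 2 ^ (2 ^ j) ≤ H → H ≤ 2 ^ (2 ^ (j + 1)) →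
        (∀ j, (R : ℝ) < ‖x j‖) ∧ MsN n a m f d B x H}.ncard : ℕ) : ℝ) ≤
          (T : ℝ) ^ (-c) * N}.ncard : ℕ) : ℝ) ≤ C * (T : ℝ) ^ (-c) * (({ξ : ℂ | SInt mm T ξ}.ncard : ℕ) : ℝ) ^ k := by
  obtain ⟨R, hR1, hR, hmain⟩ := main hn h0 ha hf hf0 0 mm d hm
  refine ⟨R, hR1, hR, ?_⟩
  have hGd : ∀ B₀ : ℕ, ∃ B : ℕ, ∀ T : ℕ, 1 ≤ T → ∃ H₀ : ℝ, ∀ (z : Unit) (x : Fin k → ℂ) (H : ℝ), H₀ ≤ H →
      (∀ j, AInt mm T (x j)) → (∀ j, (R : ℝ) < ‖x j‖) → Tr n a m f d B₀ ((fun _ i => i.elim0 : Unit → Fin 0 → ℂ) z) x H →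
      Ms n a m f d B₀ x H → (∀ j, (R : ℝ) < ‖x j‖) ∧ MsN n a m f d B x H := by
    intro B₀
    refine ⟨B₀, fun T hT => ⟨T + 4, fun z x H hH hx hxR _ hms => ⟨hxR, hms.toN hH (fun j => ?_) fun j => ?_⟩⟩⟩
    · have h1 : (1 : ℝ) ≤ R := by exact_mod_cast hR1
      exact h1.trans (hxR j).le
    · obtain ⟨q, -, -, h3, h4⟩ := hx j
      exact h4 _ h3
  obtain ⟨B, C, c, hc, hB⟩ := hmain Unit (fun _ i => i.elim0)
    (fun B _ x H => (∀ j, (R : ℝ) < ‖x j‖) ∧ MsN n a m f d B x H) hGd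
    (fun B z x H H' h1 h2 h3 hg => ⟨hg.1, hg.2.mono h1 h2 h3 le_rfl⟩)
  refine ⟨B, C, c, hc, fun T hT => ?_⟩
  obtain ⟨⟨H₀, h1⟩, h2⟩ := hB T hT
  exact ⟨⟨H₀, fun H₁ hH₁ => h1 H₁ hH₁ ()⟩, h2 ()⟩

end Pool.Agent.Q189.HC
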