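import Pool.Agent.Q189.HC.Cng

/-!
# Hyperelliptic families: the relations are invariant under the symplectic group
-/

set_option autoImplicit false

open PowerSeries Filter Topology

namespace Pool.Agent.Q189.HC

open Pool.Agent.Y118.HP Pool.Agent.Y118.HG
open Pool.Agent.Y119.HZ (ix evq isom_inv isom_mul)
open Pool.Agent.Y120.GH (cx Cw ou inn)

variable {n : ℕ} {a : Fin n → ℝ} {m : Fin (n + 1)} {f : Polynomial ℚ}

/-- the coordinates of a matrix -/
def co (W : Matrix (Fin n) (Fin n) ℂ) (e : Fin (n * n)) : ℂ := W (ix n e).2 (ix n e).1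

lemma co_Zt (Δ : ZDat n a m f) (t : ℂ) : co (Zt Δ t) = fun e => ou (cx (hz Δ e)) t := rfl

/-- the polynomial `R (z, B X V (z))` -/
noncomputable def pB (R : MvPolynomial (Fin (n * n)) (Polynomial ℚ)) (B : Matrix (Fin n) (Fin n) ℂ)
    (V : Matrix (Fin n) (Fin n) (Polynomial ℚ)) : MvPolynomial (Option (Fin n × Fin n)) ℂ :=
  MvPolynomial.eval₂ (Polynomial.aeval (MvPolynomial.X none : MvPolynomial (Option (Fin n × Fin n)) ℂ) :
    Polynomial ℚ →ₐ[ℚ] MvPolynomial (Option (Fin n × Fin n)) ℂ).toRingHom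
    (fun e => ∑ q, (∑ p, MvPolynomial.C (B (ix n e).2 p) * MvPolynomial.X (some (p, q))) *
      Polynomial.aeval (MvPolynomial.X none : MvPolynomial (Option (Fin n × Fin n)) ℂ) (V q (ix n e).1)) R

lemma ev_pB (R : MvPolynomial (Fin (n * n)) (Polynomial ℚ)) (B : Matrix (Fin n) (Fin n) ℂ)
    (V : Matrix (Fin n) (Fin n) (Polynomial ℚ)) (z : ℂ) (X : Matrix (Fin n) (Fin n) ℂ) :
    ev (pB R B V) z X = MvPolynomial.eval₂ (evq z) (co (B * X * V.map (Polynomial.aeval z))) R := by
  unfold ev pB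
  rw [MvPolynomial.hom_eval₂]
  have hpol : ∀ p : Polynomial ℚ, MvPolynomial.eval (fun o : Option (Fin n × Fin n) => o.elim z fun x => X x.1 x.2)
      (Polynomial.aeval (MvPolynomial.X none : MvPolynomial (Option (Fin n × Fin n)) ℂ) p) = Polynomial.aeval z p := by
    intro p
    induction p using Polynomial.induction_on' with
    | add p q hp hq => rw [map_add, map_add, hp, hq, map_add]
    | monomial k c =>
      rw [Polynomial.aeval_monomial, Polynomial.aeval_monomial, map_mul, map_pow, MvPolynomial.eval_X]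
      congr 1
      have h1 : (algebraMap ℚ (MvPolynomial (Option (Fin n × Fin n)) ℂ)) c = MvPolynomial.C ((algebraMap ℚ ℂ) c) := rfl
      rw [h1, MvPolynomial.eval_C]
  have h1 : ((MvPolynomial.eval fun o : Option (Fin n × Fin n) => o.elim z fun x => X x.1 x.2).comp
      (Polynomial.aeval (MvPolynomial.X none : MvPolynomial (Option (Fin n × Fin n)) ℂ) :
        Polynomial ℚ →ₐ[ℚ] MvPolynomial (Option (Fin n × Fin n)) ℂ).toRingHom) = evq z := by
    refine RingHom.ext fun p => ?_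
    exact hpol p
  rw [h1]
  congr 1
  funext e
  unfold co
  rw [Matrix.mul_apply, map_sum]
  refine Finset.sum_congr rfl fun q _ => ?_
  rw [map_mul, hpol, map_sum, Matrix.mul_apply, Matrix.map_apply]
  congr 1
  refine Finset.sum_congr rfl fun p _ => ?_
  rw [map_mul, MvPolynomial.eval_C, MvPolynomial.eval_X]
  rfl

/-- **the fibres contain the symplectic group** -/
theorem sp_sub_Vc (hn : Even n) (ha : StrictMono a) (h0 : InGap a m 0)
    (hf : f.map (algebraMap ℚ ℝ) = ∏ i, (Polynomial.X - Polynomial.C (a i))) (Δ : ZDat n a m f)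
    {W : Matrix (Fin n) (Fin n) ℂ} (hW : W * jm ℂ n * W.transpose = jm ℂ n) (x : ℂ) :
    co W ∈ Pool.Agent.Y916.Af.Vc (hz Δ) x := by
  classical
  obtain ⟨K, hK, hs⟩ := size_hz Δ
  have hK0 : 0 < K := by linarith
  intro R hR
  -- the interval
  have hvals := Δ.val.and ((isOpen_InGap a m).mem_nhds h0)
  obtain ⟨ε, hε, hball⟩ := Metric.eventually_nhds_iff.1 hvals
  set β : ℝ := min (ε / 2) (1 / (2 * K)) with hβ
  have hβ0 : 0 < β := lt_min (by positivity) (by positivity)
  have hβε : ∀ z : ℝ, 0 ≤ z → z ≤ β → (RM a m z = RM a m 0 * Δ.V.map (Polynomial.aeval (0 : ℝ)) * Ez Δ.Z z *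
      Δ.U.map (Polynomial.aeval z)) ∧ InGap a m z := by
    intro z hz0 hz
    refine hball ?_
    rw [Real.dist_eq, sub_zero, abs_of_nonneg hz0]
    have : β ≤ ε / 2 := min_le_left _ _
    linarith
  -- matrices
  set A : Matrix (Fin n) (Fin n) ℂ := (RM a m 0 * Δ.V.map (Polynomial.aeval (0 : ℝ))).map (algebraMap ℝ ℂ) with hA
  have hAJ : A * jm ℂ n * A.transpose = (Real.pi : ℂ) • jm ℂ n := by
    have h1 := RM_leg hn ha hf h0
    rw [Qp_aeval Δ.VJ] at h1
    have h2 : (RM a m 0 * Δ.V.map (Polynomial.aeval (0 : ℝ))) * jm ℝ n *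
        (RM a m 0 * Δ.V.map (Polynomial.aeval (0 : ℝ))).transpose = Real.pi • jm ℝ n := by
      rw [← h1, Matrix.transpose_mul]
      simp only [Matrix.mul_assoc]
    have h3 := congrArg (fun M : Matrix (Fin n) (Fin n) ℝ => M.map (algebraMap ℝ ℂ)) h2
    simp only [Matrix.map_mul, Matrix.transpose_map] at h3
    rw [hA, ← jm_map (algebraMap ℝ ℂ)]
    simp only [Matrix.map_mul]
    rw [h3]
    ext i j
    simp [Matrix.smul_apply, Matrix.map_apply]
  have hAdet : IsUnit A.det := by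
    rw [isUnit_iff_ne_zero]
    intro h2
    have := congrArg Matrix.det hAJ
    rw [Matrix.det_mul, Matrix.det_mul, h2, zero_mul, zero_mul, Matrix.det_smul] at this
    exact mul_ne_zero (pow_ne_zero _ (by exact_mod_cast Real.pi_ne_zero)) (jm_det hn) this.symm
  set B := A⁻¹ with hB
  have hBA : B * A = 1 := Matrix.nonsing_inv_mul _ hAdet
  have hAB : A * B = 1 := Matrix.mul_nonsing_inv _ hAdet
  have hUV : ∀ z : ℂ, Δ.U.map (Polynomial.aeval z) * Δ.V.map (Polynomial.aeval z) = 1 := fun z => by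
    rw [← map_aevalC_mul, Δ.UV, map_aevalC_one]
  have hPM : ∀ z : ℝ, 0 ≤ z → z ≤ β → PM a m (z : ℂ) = A * Zi Δ (z : ℂ) * Δ.U.map (Polynomial.aeval (z : ℂ)) := by
    intro z hz0 hz
    obtain ⟨h1, h2⟩ := hβε z hz0 hz
    rw [PM_real ha h2, h1, Zi_real, map_aeval_real]
    simp only [hA, Matrix.map_mul]
  -- the relation
  have hrel : ∀ z ∈ Set.Icc (β / 2) β, ev (pB R B Δ.V) (z : ℂ) (PM a m z) = 0 := by
    intro z hzI
    have hz0 : 0 < z := by have := hzI.1; linarith
    rw [ev_pB, hPM z hz0.le hzI.2]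
    have h1 : B * (A * Zi Δ (z : ℂ) * Δ.U.map (Polynomial.aeval (z : ℂ))) * Δ.V.map (Polynomial.aeval (z : ℂ)) = Zi Δ (z : ℂ) := by
      calc _ = (B * A) * Zi Δ (z : ℂ) * (Δ.U.map (Polynomial.aeval (z : ℂ)) * Δ.V.map (Polynomial.aeval (z : ℂ))) := by
            simp only [Matrix.mul_assoc]
        _ = _ := by rw [hBA, hUV, Matrix.one_mul, Matrix.mul_one]
    rw [h1]
    have hzK : K < ‖(1 / (z : ℂ))‖ := by
      rw [norm_div, norm_one, Complex.norm_real, Real.norm_of_nonneg hz0.le, lt_div_iff₀ hz0]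
      have h2 : z ≤ 1 / (2 * K) := hzI.2.trans (min_le_right _ _)
      have h3 : K * z ≤ K * (1 / (2 * K)) := mul_le_mul_of_nonneg_left h2 hK0.le
      have h4 : K * (1 / (2 * K)) = 1 / 2 := by field_simp
      linarith
    have h2 := (ou_aeval' hK hs R).2 (1 / (z : ℂ)) hzK
    rw [hR, map_zero, Pool.Agent.Y120.GH.ou_zero, one_div_one_div] at h2
    have h3 : (fun e => ou (cx (hz Δ e)) (1 / (z : ℂ))) = co (Zi Δ (z : ℂ)) := by
      rw [← co_Zt]
      unfold Zt
      rw [one_div_one_div]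
    rw [h3] at h2
    exact h2.symm
  -- the invariance
  have hinv := func_inv hn ha m (pB R B Δ.V) (α := β / 2) (β := β) (by linarith)
    (fun z hz => (hβε z (by have := hz.1; linarith) hz.2).2) hrel
  set p : Polynomial ℂ := vp R (co W) with hp
  have hz0 : ∀ z : ℝ, 0 < z → z ≤ β → p.eval (z : ℂ) = 0 := by
    intro z hz0 hz
    rw [hp, eval_vp]
    have hzK : K < ‖(1 / (z : ℂ))‖ := by
      rw [norm_div, norm_one, Complex.norm_real, Real.norm_of_nonneg hz0.le, lt_div_iff₀ hz0]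
      have h2 : z ≤ 1 / (2 * K) := hz.trans (min_le_right _ _)
      have h3 : K * z ≤ K * (1 / (2 * K)) := mul_le_mul_of_nonneg_left h2 hK0.le
      have h4 : K * (1 / (2 * K)) = 1 / 2 := by field_simp
      linarith
    have hZs := Zi_sp Δ hK hs hzK
    unfold Zt at hZs
    rw [one_div_one_div] at hZs
    set Z := Zi Δ (z : ℂ) with hZ
    have hZdet : IsUnit Z.det := by
      rw [isUnit_iff_ne_zero]
      intro h2
      have := congrArg Matrix.det hZs
      rw [Matrix.det_mul, Matrix.det_mul, h2, zero_mul, zero_mul] at this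
      exact (jm_det hn) this.symm
    have hZi : Z⁻¹ * Z = 1 := Matrix.nonsing_inv_mul _ hZdet
    have hZs' : Z⁻¹ * jm ℂ n * (Z⁻¹).transpose = jm ℂ n := by
      have h3 : Z.transpose * (Z⁻¹).transpose = 1 := by rw [← Matrix.transpose_mul, hZi, Matrix.transpose_one]
      calc Z⁻¹ * jm ℂ n * (Z⁻¹).transpose = Z⁻¹ * (Z * jm ℂ n * Z.transpose) * (Z⁻¹).transpose := by rw [hZs]
        _ = (Z⁻¹ * Z) * jm ℂ n * (Z.transpose * (Z⁻¹).transpose) := by simp only [Matrix.mul_assoc]
        _ = jm ℂ n := by rw [hZi, h3, Matrix.one_mul, Matrix.mul_one]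
    set g := A * W * Z⁻¹ * B with hg
    have hAT : (B.transpose) * A.transpose = 1 := by rw [← Matrix.transpose_mul, hAB, Matrix.transpose_one]
    have hBJ : (Real.pi : ℂ) • (B * jm ℂ n * B.transpose) = jm ℂ n := by
      have h3 : A.transpose * B.transpose = 1 := by rw [← Matrix.transpose_mul, hBA, Matrix.transpose_one]
      calc (Real.pi : ℂ) • (B * jm ℂ n * B.transpose) = B * ((Real.pi : ℂ) • jm ℂ n) * B.transpose := by
            rw [Matrix.mul_smul, Matrix.smul_mul]
        _ = B * (A * jm ℂ n * A.transpose) * B.transpose := by rw [hAJ]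
        _ = (B * A) * jm ℂ n * (A.transpose * B.transpose) := by simp only [Matrix.mul_assoc]
        _ = jm ℂ n := by rw [hBA, h3, Matrix.one_mul, Matrix.mul_one]
    have hpi : (Real.pi : ℂ) ≠ 0 := by exact_mod_cast Real.pi_ne_zero
    have hgJ : g * jm ℂ n * g.transpose = jm ℂ n := by
      have h1 : (Real.pi : ℂ) • (g * jm ℂ n * g.transpose) = (Real.pi : ℂ) • jm ℂ n := by
        calc (Real.pi : ℂ) • (g * jm ℂ n * g.transpose) =
            A * (W * (Z⁻¹ * ((Real.pi : ℂ) • (B * jm ℂ n * B.transpose)) * (Z⁻¹).transpose) * W.transpose) * A.transpose := by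
              rw [hg, Matrix.transpose_mul, Matrix.transpose_mul, Matrix.transpose_mul]
              simp only [Matrix.mul_smul, Matrix.smul_mul, Matrix.mul_assoc]
          _ = _ := by rw [hBJ, hZs', hW, hAJ]
      exact smul_right_injective _ hpi h1
    have h1 := hinv g hgJ (z : ℂ) (hβε z hz0.le hz).2.mem_Dm
    rw [ev_pB, hPM z hz0.le hz] at h1
    have h2 : B * (g * (A * Z * Δ.U.map (Polynomial.aeval (z : ℂ)))) * Δ.V.map (Polynomial.aeval (z : ℂ)) = W := by
      calc _ = (B * A) * W * (Z⁻¹ * ((B * A) * Z)) * (Δ.U.map (Polynomial.aeval (z : ℂ)) * Δ.V.map (Polynomial.aeval (z : ℂ))) := by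
            rw [hg]
            simp only [Matrix.mul_assoc]
        _ = W := by rw [hBA, hUV, Matrix.one_mul, Matrix.one_mul, Matrix.mul_one, hZi, Matrix.mul_one]
    rw [h2] at h1
    exact h1
  have hp0 : p = 0 := by
    refine Polynomial.eq_zero_of_infinite_isRoot p (Set.Infinite.mono (s := (fun t : ℝ => (t : ℂ)) '' Set.Ioc 0 β) ?_ ?_)
    · rintro _ ⟨t, ht, rfl⟩
      exact hz0 t ht.1 ht.2
    · exact (Set.Ioc_infinite hβ0).image (Complex.ofReal_injective.injOn)
  have h1 := eval_vp R (co W) x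
  rw [← hp, hp0, Polynomial.eval_zero] at h1
  exact h1.symm

/-- the symplectic group in the coordinates -/
def SpC (n : ℕ) : Set (Fin (n * n) → ℂ) := {y | ∃ W : Matrix (Fin n) (Fin n) ℂ, W * jm ℂ n * W.transpose = jm ℂ n ∧ co W = y}

/-- **hyperelliptic families are connected** -/
theorem conn_hz (hn : Even n) (ha : StrictMono a) (h0 : InGap a m 0)
    (hf : f.map (algebraMap ℚ ℝ) = ∏ i, (Polynomial.X - Polynomial.C (a i))) (Δ : ZDat n a m f) :
    Pool.Agent.Y118.UL.Conn (hz Δ) := by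
  obtain ⟨K, hK, hs⟩ := size_hz Δ
  refine conn_gen hK hs (SpC n) (fun t ht => ⟨Zt Δ t, Zi_sp Δ hK hs ht, co_Zt Δ t⟩) ?_ ?_
  · rintro _ ⟨W, hW, rfl⟩ x
    exact sp_sub_Vc hn ha h0 hf Δ hW x
  · rintro _ ⟨X, hX, rfl⟩ _ ⟨Y, hY, rfl⟩
    have hJ : (jm ℂ n).transpose = -jm ℂ n := jm_transpose
    have hX' : X.transpose.transpose * jm ℂ n * X.transpose = jm ℂ n := by rw [Matrix.transpose_transpose]; exact hX
    have hY' : Y.transpose.transpose * jm ℂ n * Y.transpose = jm ℂ n := by rw [Matrix.transpose_transpose]; exact hY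
    obtain ⟨W, hW1, hW2, hW3⟩ := isom_inv (jm_det hn) hX'
    obtain ⟨Γ, hΓ0, hΓ1, hΓ⟩ := Pool.Agent.Q189.HG.path hJ (jm_det hn) (W * Y.transpose) (isom_mul hW3 hY')
    set Θ : Matrix (Fin n) (Fin n) (Polynomial ℂ) := X.transpose.map Polynomial.C * Γ with hΘ
    have hΘe : ∀ s : ℂ, Θ.map (Polynomial.eval s) = X.transpose * Γ.map (Polynomial.eval s) := by
      intro s
      rw [hΘ, Pool.Agent.Y119.HY.map_mul_eval, Pool.Agent.Y119.HY.map_C_eval]
    have hco : ∀ s : ℂ, (fun e => (Θ (ix n e).1 (ix n e).2).eval s) = co (X.transpose * Γ.map (Polynomial.eval s)).transpose := by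
      intro s
      funext e
      unfold co
      rw [Matrix.transpose_apply, ← hΘe, Matrix.map_apply]
    refine ⟨fun e => Θ (ix n e).1 (ix n e).2, ?_, ?_, fun s => ?_⟩
    · rw [hco, hΓ0, Matrix.mul_one, Matrix.transpose_transpose]
    · rw [hco, hΓ1, ← Matrix.mul_assoc, hW1, Matrix.one_mul, Matrix.transpose_transpose]
    · rw [hco]
      refine ⟨_, ?_, rfl⟩
      have h1 := isom_mul hX' (hΓ s)
      rw [Matrix.transpose_transpose]
      exact h1

end Pool.Agent.Q189.HC
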