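import Pool.Agent.Q189.HC.Msr

/-!
# Hyperelliptic families: the measure of algebraic independence, II
-/

set_option autoImplicit false

open PowerSeries

namespace Pool.Agent.Q189.HC

open Pool.Agent.Y118.HP Pool.Agent.Y118.HG
open Pool.Agent.Q246.NR Pool.Agent.Q246.NR2 Pool.Agent.Q189.MF Pool.Agent.Y916.Sl
open Pool.Agent.Q189.HG (pnt)
open Pool.Agent.TH456.TM (MeasT)

lemma deg_aeval {V σ : Type} [Fintype V] (S : V → MvPolynomial σ ℂ) (hS : ∀ v, (S v).totalDegree ≤ 1) (P : MvPolynomial V ℤ)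
    {D : ℕ} (hD : P.totalDegree ≤ D) : (MvPolynomial.aeval S P).totalDegree ≤ D := by
  classical
  rw [MvPolynomial.aeval_def, MvPolynomial.eval₂_eq']
  refine (MvPolynomial.totalDegree_finsetSum _ _).trans (Finset.sup_le fun d hd => ?_)
  have h3 : (algebraMap ℤ (MvPolynomial σ ℂ)) (MvPolynomial.coeff d P) = MvPolynomial.C ((MvPolynomial.coeff d P : ℤ) : ℂ) := by
    rw [eq_intCast, map_intCast]
  refine (MvPolynomial.totalDegree_mul _ _).trans ?_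
  rw [h3, MvPolynomial.totalDegree_C, zero_add]
  refine (MvPolynomial.totalDegree_finsetProd _ _).trans ?_
  have h4 := (MvPolynomial.le_totalDegree hd).trans hD
  rw [Finsupp.sum_fintype _ _ (fun _ => rfl)] at h4
  refine (Finset.sum_le_sum fun o _ => ?_).trans h4
  refine (MvPolynomial.totalDegree_pow _ _).trans ?_
  exact (Nat.mul_le_mul_left _ (hS o)).trans (by omega)

lemma coeff_rename_le {V W : Type} {ρ : V → W} (hρ : Function.Injective ρ) (P : MvPolynomial V ℤ) {H : ℝ}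
    (hH : ∀ e, |((P.coeff e : ℤ) : ℝ)| ≤ H) (e : W →₀ ℕ) : |(((MvPolynomial.rename ρ P).coeff e : ℤ) : ℝ)| ≤ H := by
  by_cases he : ∃ e' : V →₀ ℕ, e'.mapDomain ρ = e
  · obtain ⟨e', rfl⟩ := he
    rw [MvPolynomial.coeff_rename_mapDomain ρ hρ]
    exact hH e'
  · push Not at he
    rw [MvPolynomial.coeff_rename_eq_zero ρ P e fun u hu => absurd hu (he u)]
    simpa using (abs_nonneg _).trans (hH 0)

variable {k : ℕ} {n : Fin k → ℕ} {a : ∀ j, Fin (n j) → ℝ} {m : ∀ j, Fin (n j + 1)} {f : Fin k → Polynomial ℚ}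

/-- the measure -/
def Ms (n : Fin k → ℕ) (a : ∀ j, Fin (n j) → ℝ) (m : ∀ j, Fin (n j + 1)) (f : Fin k → Polynomial ℚ) (d B : ℕ)
    (t : Fin k → ℂ) (H : ℝ) : Prop :=
  ∀ ℓ : Fin k → ℂ, (∀ j, Complex.exp (ℓ j) = t j) → (∀ j, ‖ℓ j‖ ≤ H) →
    ∀ P : MvPolynomial (Crd n ⊕ Option (Fin k)) ℤ, P.totalDegree ≤ d → (∀ e, |((P.coeff e : ℤ) : ℝ)| ≤ H) →
      (∃ (l : Fin k → ℂ) (lam : ℂ) (X : ∀ j, Matrix (Fin (n j)) (Fin (n j)) ℂ), lam ≠ 0 ∧ X ∈ TorC n f t lam ∧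
        MvPolynomial.aeval (Sum.elim (pnt l X) (op lam t)) P ≠ 0) →
      1 ≤ H ^ B * ‖MvPolynomial.aeval (Sum.elim (pnt ℓ fun j => CMz (a j) (m j) (1 / t j)) (op tpi t)) P‖

/-- the parametrisation of the torsor -/
theorem param (Δ : ∀ j, ZDat (n j) (a j) (m j) (f j)) {t : Fin k → ℂ} {lam : ℂ} (hlam : lam ≠ 0)
    {X : ∀ j, Matrix (Fin (n j)) (Fin (n j)) ℂ} (hX : X ∈ TorC n f t lam) (l : Fin k → ℂ) :
    ∃ (ν : ℂ) (y : ∀ j, Option (Fin (n j) × Fin (n j)) → ℂ), y ∈ GC ℂ n ∧ -ν ^ 2 / 2 = lam ∧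
      (fun j => y j none) = l ∧ X₀ Δ t ν y = X := by
  obtain ⟨ν, hν⟩ := IsAlgClosed.exists_pow_nat_eq (-2 * lam) (n := 2) (by norm_num)
  have hν0 : ν ≠ 0 := by
    intro h0
    rw [h0] at hν
    have h1 : (-2 * lam : ℂ) = 0 := by rw [← hν]; norm_num
    exact (mul_ne_zero (by norm_num) hlam) h1
  set G : ∀ j, Matrix (Fin (n j)) (Fin (n j)) ℂ := fun j => ν⁻¹ • (X j * (Δ j).V.map (Polynomial.aeval (1 / t j))) with hG
  refine ⟨ν, fun j o => o.elim (l j) fun x => G j x.1 x.2, fun j => ?_, ?_, rfl, ?_⟩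
  · show G j * jm ℂ (n j) * (G j).transpose = jm ℂ (n j)
    have h1 := hX j
    rw [Qp_aevalC (Δ j).VJ, ← hν] at h1
    rw [hG]
    simp only
    rw [Matrix.transpose_smul, Matrix.transpose_mul]
    calc ν⁻¹ • (X j * (Δ j).V.map (Polynomial.aeval (1 / t j))) * jm ℂ (n j) *
        (ν⁻¹ • (((Δ j).V.map (Polynomial.aeval (1 / t j))).transpose * (X j).transpose)) =
        (ν⁻¹ * ν⁻¹) • (X j * ((Δ j).V.map (Polynomial.aeval (1 / t j)) * jm ℂ (n j) *
          ((Δ j).V.map (Polynomial.aeval (1 / t j))).transpose) * (X j).transpose) := by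
          rw [Matrix.smul_mul, Matrix.smul_mul, Matrix.mul_smul, smul_smul]
          simp only [Matrix.mul_assoc]
      _ = jm ℂ (n j) := by
          rw [h1, smul_smul]
          have h2 : ν⁻¹ * ν⁻¹ * ν ^ 2 = 1 := by field_simp
          rw [h2, one_smul]
  · rw [neg_div, hν]
    ring
  · funext j
    show ν • (G j * (Δ j).U.map (Polynomial.aeval (1 / t j))) = X j
    rw [hG]
    simp only
    rw [Matrix.smul_mul, smul_smul, mul_inv_cancel₀ hν0, one_smul, Matrix.mul_assoc, VUc, Matrix.mul_one]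

/-- the polynomial in the coordinates of the group -/
noncomputable def Sg (Δ : ∀ j, ZDat (n j) (a j) (m j) (f j)) (t : Fin k → ℂ) (ν : ℂ) :
    Crd n ⊕ Option (Fin k) → MvPolynomial (Crd n) ℂ
  | Sum.inl ⟨j, none⟩ => MvPolynomial.X ⟨j, none⟩
  | Sum.inl ⟨j, some x⟩ => MvPolynomial.C ν * ∑ q, MvPolynomial.X ⟨j, some (x.1, q)⟩ *
      MvPolynomial.C (Polynomial.aeval (1 / t j) ((Δ j).U q x.2))
  | Sum.inr o => MvPolynomial.C (op (-ν ^ 2 / 2) t o)

section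
variable (Δ : ∀ j, ZDat (n j) (a j) (m j) (f j)) (t : Fin k → ℂ) (ν : ℂ)

lemma Sg_none (j : Fin k) : Sg Δ t ν (Sum.inl ⟨j, none⟩) = MvPolynomial.X ⟨j, none⟩ := rfl

lemma Sg_some (j : Fin k) (x : Fin (n j) × Fin (n j)) : Sg Δ t ν (Sum.inl ⟨j, some x⟩) =
    MvPolynomial.C ν * ∑ q, MvPolynomial.X ⟨j, some (x.1, q)⟩ *
      MvPolynomial.C (Polynomial.aeval (1 / t j) ((Δ j).U q x.2)) := rfl

lemma Sg_inr (o : Option (Fin k)) : Sg Δ t ν (Sum.inr o) = MvPolynomial.C (op (-ν ^ 2 / 2) t o) := rfl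

end

lemma Sg_eval (Δ : ∀ j, ZDat (n j) (a j) (m j) (f j)) (t : Fin k → ℂ) (ν : ℂ)
    (y : ∀ j, Option (Fin (n j) × Fin (n j)) → ℂ) (v : Crd n ⊕ Option (Fin k)) :
    MvPolynomial.eval (fun w : Crd n => y w.1 w.2) (Sg Δ t ν v) =
      Sum.elim (pnt (fun j => y j none) (X₀ Δ t ν y)) (op (-ν ^ 2 / 2) t) v := by
  rcases v with ⟨j, _ | x⟩ | o
  · rw [Sg_none, MvPolynomial.eval_X, Sum.elim_inl]
    rfl
  · have h1 : Sum.elim (pnt (fun j => y j none) (X₀ Δ t ν y)) (op (-ν ^ 2 / 2) t) (Sum.inl ⟨j, some x⟩) =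
        ν * ∑ q, y j (some (x.1, q)) * Polynomial.aeval (1 / t j) ((Δ j).U q x.2) := X₀_apply Δ t ν y j x.1 x.2
    rw [h1, Sg_some, map_mul, MvPolynomial.eval_C, map_sum]
    congr 1
    refine Finset.sum_congr rfl fun q _ => ?_
    rw [map_mul, MvPolynomial.eval_C, MvPolynomial.eval_X]
  · rw [Sg_inr, MvPolynomial.eval_C, Sum.elim_inr]

lemma Sg_deg (Δ : ∀ j, ZDat (n j) (a j) (m j) (f j)) (t : Fin k → ℂ) (ν : ℂ) (v : Crd n ⊕ Option (Fin k)) :
    (Sg Δ t ν v).totalDegree ≤ 1 := by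
  rcases v with ⟨j, _ | x⟩ | o
  · rw [Sg_none, MvPolynomial.totalDegree_X]
  · rw [Sg_some]
    refine (MvPolynomial.totalDegree_mul _ _).trans ?_
    rw [MvPolynomial.totalDegree_C, zero_add]
    refine (MvPolynomial.totalDegree_finsetSum _ _).trans (Finset.sup_le fun q _ => ?_)
    refine (MvPolynomial.totalDegree_mul _ _).trans ?_
    rw [MvPolynomial.totalDegree_C, add_zero, MvPolynomial.totalDegree_X]
  · rw [Sg_inr, MvPolynomial.totalDegree_C]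
    exact Nat.zero_le _

lemma aeval_Sg (Δ : ∀ j, ZDat (n j) (a j) (m j) (f j)) (t : Fin k → ℂ) (ν : ℂ)
    (y : ∀ j, Option (Fin (n j) × Fin (n j)) → ℂ) (P : MvPolynomial (Crd n ⊕ Option (Fin k)) ℤ) :
    MvPolynomial.eval (fun w : Crd n => y w.1 w.2) (MvPolynomial.aeval (Sg Δ t ν) P) =
      MvPolynomial.aeval (Sum.elim (pnt (fun j => y j none) (X₀ Δ t ν y)) (op (-ν ^ 2 / 2) t)) P := by
  rw [MvPolynomial.aeval_def, MvPolynomial.hom_eval₂, MvPolynomial.aeval_def]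
  congr 1
  · exact RingHom.ext_int _ _
  · funext v
    exact Sg_eval Δ t ν y v

/-- common denominators of rational numbers -/
lemma rat_den {ι : Type} [Fintype ι] (y : ι → ℚ) : ∃ (D : ℤ) (c : ι → ℤ), D ≠ 0 ∧ ∀ v, ((c v : ℤ) : ℚ) = D * y v := by
  classical
  refine ⟨∏ v, ((y v).den : ℤ), fun v => (∏ w ∈ Finset.univ.erase v, ((y w).den : ℤ)) * (y v).num,
    Finset.prod_ne_zero_iff.2 fun v _ => by exact_mod_cast (y v).den_nz, fun v => ?_⟩
  rw [← Finset.mul_prod_erase Finset.univ (fun v => ((y v).den : ℤ)) (Finset.mem_univ v)]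
  push_cast
  have h1 : ((y v).num : ℚ) = (y v).den * y v := by
    rw [mul_comm]
    exact (Rat.mul_den_eq_num (y v)).symm
  rw [h1]
  ring

/-- bounds for a test point -/
lemma X₀_bd (Δ : ∀ j, ZDat (n j) (a j) (m j) (f j)) (ν : ℂ) (y : ∀ j, Option (Fin (n j) × Fin (n j)) → ℂ) :
    ∃ C : ℝ, ∀ t : Fin k → ℂ, (∀ j, 1 ≤ ‖t j‖) → max 1 ‖pnt (fun j => y j none) (X₀ Δ t ν y)‖ ≤ C := by
  have hb : ∀ v : Crd n, ∃ b : ℝ, 0 ≤ b ∧ ∀ t : Fin k → ℂ, (∀ j, 1 ≤ ‖t j‖) → ‖pnt (fun j => y j none) (X₀ Δ t ν y) v‖ ≤ b := by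
    rintro ⟨j, _ | x⟩
    · exact ⟨‖y j none‖, norm_nonneg _, fun t _ => le_rfl⟩
    · have hq : ∀ q, ∃ b : ℝ, 0 ≤ b ∧ ∀ z : ℂ, ‖z‖ ≤ 1 → ‖Polynomial.aeval z ((Δ j).U q x.2)‖ ≤ b := fun q =>
        ⟨_, Finset.sum_nonneg fun _ _ => abs_nonneg _, fun z hz => poly_bd _ hz⟩
      choose b hb0 hb using hq
      refine ⟨‖ν‖ * ∑ q, ‖y j (some (x.1, q))‖ * b q, by
        have : 0 ≤ ∑ q, ‖y j (some (x.1, q))‖ * b q := Finset.sum_nonneg fun q _ => mul_nonneg (norm_nonneg _) (hb0 q)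
        positivity, fun t ht => ?_⟩
      show ‖X₀ Δ t ν y j x.1 x.2‖ ≤ _
      rw [X₀_apply, norm_mul]
      refine mul_le_mul_of_nonneg_left ?_ (norm_nonneg _)
      refine (norm_sum_le _ _).trans (Finset.sum_le_sum fun q _ => ?_)
      rw [norm_mul]
      refine mul_le_mul_of_nonneg_left (hb q _ ?_) (norm_nonneg _)
      rw [norm_div, norm_one]
      exact (div_le_one (by have := ht j; linarith)).2 (ht j)
  choose b hb0 hb using hb
  refine ⟨1 + ∑ v, b v, fun t ht => ?_⟩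
  have hS : 0 ≤ ∑ v, b v := Finset.sum_nonneg fun v _ => hb0 v
  refine max_le (by linarith) ?_
  rw [pi_norm_le_iff_of_nonneg (by linarith)]
  intro v
  refine (hb v t ht).trans ?_
  have := Finset.single_le_sum (f := b) (fun v _ => hb0 v) (Finset.mem_univ v)
  linarith

theorem measure (hn : ∀ j, Even (n j)) (Δ : ∀ j, ZDat (n j) (a j) (m j) (f j)) (g d mm B₀ : ℕ) :
    ∃ B : ℕ, ∀ T : ℕ, 1 ≤ T → ∃ H₀ : ℝ, ∀ (ζ : Fin g → ℂ) (t : Fin k → ℂ) (H : ℝ), H₀ ≤ H → (∀ j, AInt mm T (t j)) →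
      (∀ j, 1 ≤ ‖t j‖) → Tr n a m f d B₀ ζ t H → Ms n a m f d B t H := by
  classical
  obtain ⟨ν₀, hν₀, hν₀0, hmeas⟩ := exists_nu
  obtain ⟨D, hD0, hD⟩ := common_den fun x : (Σ j : Fin k, Fin (n j) × Fin (n j)) => (Δ x.1).U x.2.1 x.2.2
  choose p hp using hD
  set K : ℕ := ∑ x, (p x).natDegree with hK
  have hKp : ∀ x, (p x).natDegree ≤ K := fun x =>
    Finset.single_le_sum (f := fun x => (p x).natDegree) (fun _ _ => Nat.zero_le _) (Finset.mem_univ x)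
  obtain ⟨κ, _, y₀, hy₀, htest⟩ := test_set hn d
  choose D₂ c hD₂ hc using fun i => rat_den fun v : Crd n => y₀ i v.1 v.2
  choose D₁ Λ hΛ hsub using fun i => sub (ST D (D₂ i) K p (c i)) (ET k D (D₂ i) K) d
  choose C₂ hC₂ using fun i => X₀_bd Δ ν₀ fun j o => ((y₀ i j o : ℚ) : ℂ)
  set Dm : ℕ := ∑ i, D₁ i with hDm
  obtain ⟨κ₀, c₀, hc₀, hli⟩ := liouT hmeas mm k Dm
  set Λs : ℝ := ∑ i, Λ i with hΛs
  set Cs : ℝ := ∑ i, |C₂ i| with hCs
  refine ⟨3 * κ₀ + 2 * B₀ + 2, fun T hT => ?_⟩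
  have hT1 : (1 : ℝ) ≤ T := by exact_mod_cast hT
  set Es : ℝ := ∑ i, (|2 * (D : ℝ) * D₂ i| * (T : ℝ) ^ (k * K)) ^ d with hEs
  refine ⟨max (max (max Λs Cs) (max ((T : ℝ) ^ Dm) Es)) (max 1 (1 / c₀)), fun ζ t H hH ht ht1 htr => ?_⟩
  have hH1 : 1 ≤ H := (le_max_left _ _).trans ((le_max_right _ _).trans hH)
  have hHc : 1 / c₀ ≤ H := (le_max_right _ _).trans ((le_max_right _ _).trans hH)
  have hHΛ : Λs ≤ H := (le_max_left _ _).trans ((le_max_left _ _).trans ((le_max_left _ _).trans hH))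
  have hHC : Cs ≤ H := (le_max_right _ _).trans ((le_max_left _ _).trans ((le_max_left _ _).trans hH))
  have hHT : (T : ℝ) ^ Dm ≤ H := (le_max_left _ _).trans ((le_max_right _ _).trans ((le_max_left _ _).trans hH))
  have hHE : Es ≤ H := (le_max_right _ _).trans ((le_max_right _ _).trans ((le_max_left _ _).trans hH))
  have hHp : 0 < H := by linarith
  have ht0 : ∀ j, t j ≠ 0 := fun j h => by
    have := ht1 j
    rw [h, norm_zero] at this
    linarith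
  have htT : ∀ j, ‖t j‖ ≤ T := by
    intro j
    obtain ⟨q, -, -, h3, h4⟩ := ht j
    exact h4 _ h3
  intro ℓ hℓ hℓH P hPd hPH hex
  obtain ⟨l, lam, X, hlam, hX, hne⟩ := hex
  obtain ⟨ν, y, hy, hνl, hyl, hyX⟩ := param Δ hlam hX l
  -- the test point
  obtain ⟨i, hi⟩ : ∃ i, MvPolynomial.aeval (Sum.elim (pnt (fun j => ((y₀ i j none : ℚ) : ℂ))
      (X₀ Δ t ν fun j o => ((y₀ i j o : ℚ) : ℂ))) (op (-ν ^ 2 / 2) t)) P ≠ 0 := by
    by_contra hcon
    push Not at hcon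
    have h1 := htest (MvPolynomial.aeval (Sg Δ t ν) P) (deg_aeval _ (Sg_deg Δ t ν) P hPd) (fun i => by
      have h2 := aeval_Sg Δ t ν (fun j o => ((y₀ i j o : ℚ) : ℂ)) P
      rw [hcon i] at h2
      exact h2) y hy
    rw [aeval_Sg, hyl, hyX, hνl] at h1
    exact hne h1
  obtain ⟨P', h1, h2, h3⟩ := hsub i P hPd H hPH
  have hcc : ∀ v : Crd n, ((c i v : ℤ) : ℂ) = (D₂ i : ℂ) * ((y₀ i v.1 v.2 : ℚ) : ℂ) := by
    intro v
    have h4 := hc i v
    have h5 := congrArg (fun q : ℚ => (q : ℂ)) h4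
    simpa using h5
  have e1 := h3 _ _ (ST_eval Δ hp hKp (y := fun j o => ((y₀ i j o : ℚ) : ℂ)) hcc t ht0 ν)
  have e2 := h3 _ _ (ST_eval Δ hp hKp (y := fun j o => ((y₀ i j o : ℚ) : ℂ)) hcc t ht0 ν₀)
  rw [ET_eval] at e1 e2
  have hE0 : (2 * D * D₂ i : ℂ) * ∏ j, t j ^ K ≠ 0 := by
    refine mul_ne_zero (mul_ne_zero (mul_ne_zero two_ne_zero (by exact_mod_cast hD0)) (by exact_mod_cast hD₂ i))
      (Finset.prod_ne_zero_iff.2 fun j _ => pow_ne_zero _ (ht0 j))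
  have hΛi : Λ i ≤ H := (Finset.single_le_sum (f := Λ) (fun i _ => by have := hΛ i; linarith) (Finset.mem_univ i)).trans hHΛ
  have h4 := hli t T hT1 ht P' (h1.trans (Finset.single_le_sum (f := D₁) (fun _ _ => Nat.zero_le _) (Finset.mem_univ i)))
    (Λ i * H) (by have := hΛ i; nlinarith) h2 ⟨ν, by rw [e1]; exact mul_ne_zero (pow_ne_zero _ hE0) hi⟩
  have hνt : -ν₀ ^ 2 / 2 = tpi := by
    rw [neg_div, hν₀]
    ring
  rw [e2, hνt, norm_mul] at h4
  -- the transfer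
  set Y : ∀ j, Matrix (Fin (n j)) (Fin (n j)) ℂ := X₀ Δ t ν₀ fun j o => ((y₀ i j o : ℚ) : ℂ) with hY
  set l₀ : Fin k → ℂ := fun j => ((y₀ i j none : ℚ) : ℂ) with hl₀
  have hYT : Y ∈ TorC n f t tpi := by
    intro j
    have h5 := SpS_map (algebraMap ℚ ℂ) (hy₀ i j)
    set G : Matrix (Fin (n j)) (Fin (n j)) ℂ := Matrix.of fun p q => ((y₀ i j (some (p, q)) : ℚ) : ℂ) with hG
    have h6 : (Matrix.of fun p q => y₀ i j (some (p, q))).map (algebraMap ℚ ℂ) = G := by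
      ext p q
      simp [hG]
    rw [h6] at h5
    have h7 : G * jm ℂ (n j) * G.transpose = jm ℂ (n j) := h5
    have hYj : Y j = ν₀ • (G * (Δ j).U.map (Polynomial.aeval (1 / t j))) := rfl
    rw [Qp_aevalC (Δ j).VJ, hYj, Matrix.transpose_smul, Matrix.transpose_mul, ← hν₀]
    have h8 : ((Δ j).V.map (Polynomial.aeval (1 / t j))).transpose * ((Δ j).U.map (Polynomial.aeval (1 / t j))).transpose = 1 := by
      rw [← Matrix.transpose_mul, UVc, Matrix.transpose_one]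
    calc ν₀ • (G * (Δ j).U.map (Polynomial.aeval (1 / t j))) * ((Δ j).V.map (Polynomial.aeval (1 / t j)) * jm ℂ (n j) *
        ((Δ j).V.map (Polynomial.aeval (1 / t j))).transpose) * (ν₀ • (((Δ j).U.map (Polynomial.aeval (1 / t j))).transpose * G.transpose)) =
        (ν₀ * ν₀) • (G * ((Δ j).U.map (Polynomial.aeval (1 / t j)) * (Δ j).V.map (Polynomial.aeval (1 / t j))) * jm ℂ (n j) *
          (((Δ j).V.map (Polynomial.aeval (1 / t j))).transpose * ((Δ j).U.map (Polynomial.aeval (1 / t j))).transpose) * G.transpose) := by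
          rw [Matrix.smul_mul, Matrix.smul_mul, Matrix.mul_smul, smul_smul]
          simp only [Matrix.mul_assoc]
      _ = _ := by rw [UVc, h8, Matrix.mul_one, Matrix.mul_one, h7, pow_two]
  set ρ : Crd n ⊕ Option (Fin k) → Crd n ⊕ (Option (Fin g) ⊕ Fin k) :=
    Sum.map id fun o => o.elim (Sum.inl none) Sum.inr with hρ
  have hρi : Function.Injective ρ := by
    rintro (x | _ | x) (y | _ | y) h
    all_goals simp [hρ] at h
    all_goals first | rfl | rw [h]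
  have hren : ∀ z : Crd n → ℂ, MvPolynomial.aeval (Sum.elim z (Sum.elim (op tpi ζ) t)) (MvPolynomial.rename ρ P) =
      MvPolynomial.aeval (Sum.elim z (op tpi t)) P := by
    intro z
    rw [MvPolynomial.aeval_rename]
    congr 2
    funext v
    rcases v with v | _ | j
    · rfl
    · rfl
    · rfl
  have h5 := htr ℓ hℓ hℓH (MvPolynomial.rename ρ P) ((MvPolynomial.totalDegree_rename_le _ _).trans hPd)
    (coeff_rename_le hρi P hPH) l₀ Y hYT
  rw [hren, hren] at h5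
  -- the estimate
  set act := ‖MvPolynomial.aeval (Sum.elim (pnt ℓ fun j => CMz (a j) (m j) (1 / t j)) (op tpi t)) P‖ with hact
  have hact0 : 0 ≤ act := norm_nonneg _
  have h6 : H * max 1 ‖pnt l₀ Y‖ ≤ H ^ 2 := by
    rw [pow_two]
    refine mul_le_mul_of_nonneg_left ((hC₂ i t ht1).trans ?_) hHp.le
    exact (le_abs_self _).trans ((Finset.single_le_sum (f := fun i => |C₂ i|) (fun i _ => abs_nonneg _) (Finset.mem_univ i)).trans hHC)
  have h7 : ‖((2 * D * D₂ i : ℂ) * ∏ j, t j ^ K) ^ d‖ ≤ H := by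
    refine le_trans ?_ ((Finset.single_le_sum (f := fun i => (|2 * (D : ℝ) * D₂ i| * (T : ℝ) ^ (k * K)) ^ d)
      (fun i _ => by positivity) (Finset.mem_univ i)).trans hHE)
    rw [norm_pow]
    refine pow_le_pow_left₀ (norm_nonneg _) ?_ _
    rw [norm_mul]
    refine mul_le_mul (le_of_eq ?_) ?_ (norm_nonneg _) (abs_nonneg _)
    · have e3 : (2 * D * D₂ i : ℂ) = ((2 * (D : ℝ) * D₂ i : ℝ) : ℂ) := by push_cast; rfl
      rw [e3, Complex.norm_real, Real.norm_eq_abs]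
    · rw [norm_prod]
      calc ∏ j, ‖t j ^ K‖ ≤ ∏ _j : Fin k, (T : ℝ) ^ K := by
            refine Finset.prod_le_prod (fun _ _ => norm_nonneg _) fun j _ => ?_
            rw [norm_pow]
            exact pow_le_pow_left₀ (norm_nonneg _) (htT j) _
        _ = (T : ℝ) ^ (k * K) := by
            rw [Finset.prod_const, Finset.card_univ, Fintype.card_fin, ← pow_mul, mul_comm]
  have h8 : (Λ i * H * (T : ℝ) ^ Dm) ^ κ₀ ≤ H ^ (3 * κ₀) := by
    rw [pow_mul]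
    have := hΛ i
    refine pow_le_pow_left₀ (by positivity) ?_ _
    calc Λ i * H * (T : ℝ) ^ Dm ≤ H * H * H := by
          refine mul_le_mul (mul_le_mul_of_nonneg_right hΛi hHp.le) hHT (by positivity) (by positivity)
      _ = H ^ 3 := by ring
  have h9 : c₀ ≤ H ^ (3 * κ₀) * (H * ((H ^ 2) ^ B₀ * act)) := by
    refine h4.trans ?_
    refine mul_le_mul h8 ?_ (by positivity) (by positivity)
    refine mul_le_mul h7 (h5.trans ?_) (norm_nonneg _) hHp.le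
    exact mul_le_mul_of_nonneg_right (pow_le_pow_left₀ (by positivity) h6 _) hact0
  have h10 : 1 ≤ H * c₀ := by rwa [div_le_iff₀ hc₀] at hHc
  calc (1 : ℝ) ≤ H * c₀ := h10
    _ ≤ H * (H ^ (3 * κ₀) * (H * ((H ^ 2) ^ B₀ * act))) := mul_le_mul_of_nonneg_left h9 hHp.le
    _ = H ^ (3 * κ₀ + 2 * B₀ + 2) * act := by
        rw [← pow_mul]
        ring

end Pool.Agent.Q189.HC
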