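import Pool.Agent.Q189.HC.Tst

/-!
# Hyperelliptic families: the measure of algebraic independence
-/

set_option autoImplicit false

open PowerSeries

namespace Pool.Agent.Q189.HC

open Pool.Agent.Y118.HP Pool.Agent.Y118.HG
open Pool.Agent.Q246.NR Pool.Agent.Q246.NR2 Pool.Agent.Q189.MF Pool.Agent.Y916.Sl
open Pool.Agent.Q189.HG (pnt)
open Pool.Agent.TH456.TM (MeasT)

section meas

/-- multiples of a number with a transcendence measure -/
theorem measT_mul {θ : ℂ} (hθ : MeasT θ) {c : ℤ} (hc : c ≠ 0) : MeasT ((c : ℂ) * θ) := by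
  intro D
  obtain ⟨κ, c₀, hκ, hc₀, h⟩ := hθ D
  set M : ℝ := |(c : ℝ)| ^ D with hM
  have hc1 : 1 ≤ |(c : ℝ)| := by exact_mod_cast Int.one_le_abs hc
  have hM1 : 1 ≤ M := one_le_pow₀ hc1
  refine ⟨κ, c₀ / M ^ κ, hκ, by positivity, fun P hP hPD H hH hPH => ?_⟩
  set Q : Polynomial ℤ := P.comp (Polynomial.C c * Polynomial.X) with hQ
  have hcoef : ∀ i, Q.coeff i = P.coeff i * c ^ i := fun i => Polynomial.comp_C_mul_X_coeff
  have hQ0 : Q ≠ 0 := by
    intro h0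
    apply hP
    ext i
    have h1 := hcoef i
    rw [h0, Polynomial.coeff_zero] at h1
    rw [Polynomial.coeff_zero]
    exact (mul_eq_zero.1 h1.symm).resolve_right (pow_ne_zero _ hc)
  have hQD : Q.natDegree ≤ D := by
    refine Polynomial.natDegree_comp_le.trans ?_
    have h1 : (Polynomial.C c * Polynomial.X : Polynomial ℤ).natDegree ≤ 1 :=
      (Polynomial.natDegree_C_mul_le c _).trans Polynomial.natDegree_X_le
    calc _ ≤ P.natDegree * 1 := Nat.mul_le_mul_left _ h1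
      _ ≤ D := by omega
  have h1 := h Q hQ0 hQD (M * H) (by nlinarith) (fun j => by
    by_cases hj : j ≤ D
    · rw [hcoef]
      push_cast
      rw [abs_mul, abs_pow, mul_comm]
      exact mul_le_mul (pow_le_pow_right₀ hc1 hj) (hPH j) (abs_nonneg _) (by positivity)
    · rw [Polynomial.coeff_eq_zero_of_natDegree_lt (by omega)]
      simp
      positivity)
  have h2 : Polynomial.aeval θ Q = Polynomial.aeval ((c : ℂ) * θ) P := by
    rw [hQ, Polynomial.aeval_comp]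
    simp
  rw [h2, Real.mul_rpow (by positivity) (by linarith)] at h1
  rw [div_le_iff₀ (by positivity)]
  calc c₀ ≤ M ^ κ * H ^ κ * ‖Polynomial.aeval ((c : ℂ) * θ) P‖ := h1
    _ = _ := by ring

/-- squares of a number with a transcendence measure -/
theorem measT_sq {θ : ℂ} (hθ : MeasT θ) : MeasT (θ ^ 2) := by
  intro D
  obtain ⟨κ, c₀, hκ, hc₀, h⟩ := hθ (D * 2)
  refine ⟨κ, c₀, hκ, hc₀, fun P hP hPD H hH hPH => ?_⟩
  have h1 := h (Polynomial.expand ℤ 2 P) (by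
      intro h0
      exact hP ((Polynomial.expand_eq_zero (by norm_num)).1 h0)) (by
      rw [Polynomial.natDegree_expand]
      exact Nat.mul_le_mul_right _ hPD) H hH (fun j => by
      rw [Polynomial.coeff_expand (by norm_num)]
      split_ifs
      · exact hPH _
      · simp
        linarith)
  rwa [Polynomial.expand_aeval] at h1

/-- the number `√(-4πi)` -/
theorem exists_nu : ∃ ν : ℂ, ν ^ 2 = -2 * tpi ∧ ν ≠ 0 ∧ MeasT ν := by
  obtain ⟨ν, hν⟩ := IsAlgClosed.exists_pow_nat_eq (-2 * tpi) (n := 2) (by norm_num)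
  refine ⟨ν, hν, ?_, ?_⟩
  · intro h0
    rw [h0] at hν
    have h1 : (-2 * tpi : ℂ) = 0 := by rw [← hν]; norm_num
    exact (mul_ne_zero (by norm_num) tpi_ne) h1
  have h1 : MeasT ((ν ^ 2) ^ 2) := by
    have h2 := measT_mul (measT_sq Pool.Agent.TH456.TM.measT_pi) (c := -16) (by norm_num)
    have h3 : (((-16 : ℤ) : ℂ) * (Real.pi : ℂ) ^ 2) = (ν ^ 2) ^ 2 := by
      rw [hν]
      unfold tpi
      push_cast
      have := Complex.I_sq
      linear_combination (-16 * (Real.pi : ℂ) ^ 2) * this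
    rwa [h3] at h2
  exact measT_sqrt (measT_sqrt h1 rfl) rfl

end meas

variable {k : ℕ} {n : Fin k → ℕ} {a : ∀ j, Fin (n j) → ℝ} {m : ∀ j, Fin (n j + 1)} {f : Fin k → Polynomial ℚ}

/-- the denominator -/
noncomputable def ET (k : ℕ) (D D₂ : ℤ) (K : ℕ) : MvPolynomial (Option (Fin k)) ℤ :=
  MvPolynomial.C (2 * D * D₂) * ∏ i, MvPolynomial.X (some i) ^ K

/-- the substitution for a test point -/
noncomputable def ST (D D₂ : ℤ) (K : ℕ) (p : (Σ j : Fin k, Fin (n j) × Fin (n j)) → Polynomial ℤ) (c : Crd n → ℤ) :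
    Crd n ⊕ Option (Fin k) → MvPolynomial (Option (Fin k)) ℤ
  | Sum.inl ⟨j, none⟩ => MvPolynomial.C (2 * D * c ⟨j, none⟩) * ∏ i, MvPolynomial.X (some i) ^ K
  | Sum.inl ⟨j, some x⟩ => MvPolynomial.C 2 * MvPolynomial.X none * ((∏ i ∈ Finset.univ.erase j, MvPolynomial.X (some i) ^ K) *
      ∑ q, MvPolynomial.C (c ⟨j, some (x.1, q)⟩) * rvp K (p ⟨j, (q, x.2)⟩) (some j))
  | Sum.inr none => MvPolynomial.C (-(D * D₂)) * MvPolynomial.X none ^ 2 * ∏ i, MvPolynomial.X (some i) ^ K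
  | Sum.inr (some j) => ET k D D₂ K * MvPolynomial.X (some j)

section
variable (D D₂ : ℤ) (K : ℕ) (p : (Σ j : Fin k, Fin (n j) × Fin (n j)) → Polynomial ℤ) (c : Crd n → ℤ)

lemma ST_none (j : Fin k) : ST D D₂ K p c (Sum.inl ⟨j, none⟩) =
    MvPolynomial.C (2 * D * c ⟨j, none⟩) * ∏ i, MvPolynomial.X (some i) ^ K := rfl

lemma ST_some (j : Fin k) (x : Fin (n j) × Fin (n j)) : ST D D₂ K p c (Sum.inl ⟨j, some x⟩) =
    MvPolynomial.C 2 * MvPolynomial.X none * ((∏ i ∈ Finset.univ.erase j, MvPolynomial.X (some i) ^ K) *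
      ∑ q, MvPolynomial.C (c ⟨j, some (x.1, q)⟩) * rvp K (p ⟨j, (q, x.2)⟩) (some j)) := rfl

lemma ST_inr_none : ST D D₂ K p c (Sum.inr none) =
    MvPolynomial.C (-(D * D₂)) * MvPolynomial.X none ^ 2 * ∏ i, MvPolynomial.X (some i) ^ K := rfl

lemma ST_inr_some (j : Fin k) : ST D D₂ K p c (Sum.inr (some j)) = ET k D D₂ K * MvPolynomial.X (some j) := rfl

lemma ET_eval (ν : ℂ) (t : Fin k → ℂ) :
    MvPolynomial.aeval (op ν t) (ET k D D₂ K) = (2 * D * D₂ : ℂ) * ∏ j, t j ^ K := by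
  unfold ET
  rw [map_mul, MvPolynomial.aeval_C, map_prod]
  simp only [map_pow, MvPolynomial.aeval_X, eq_intCast]
  push_cast
  rfl

end

/-- the matrices of a test point -/
noncomputable def X₀ (Δ : ∀ j, ZDat (n j) (a j) (m j) (f j)) (t : Fin k → ℂ) (ν : ℂ)
    (y : ∀ j, Option (Fin (n j) × Fin (n j)) → ℂ) (j : Fin k) : Matrix (Fin (n j)) (Fin (n j)) ℂ :=
  ν • ((Matrix.of fun p q => y j (some (p, q))) * (Δ j).U.map (Polynomial.aeval (1 / t j)))

lemma X₀_apply (Δ : ∀ j, ZDat (n j) (a j) (m j) (f j)) (t : Fin k → ℂ) (ν : ℂ)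
    (y : ∀ j, Option (Fin (n j) × Fin (n j)) → ℂ) (j : Fin k) (r c : Fin (n j)) :
    X₀ Δ t ν y j r c = ν * ∑ q, y j (some (r, q)) * Polynomial.aeval (1 / t j) ((Δ j).U q c) := by
  unfold X₀
  rw [Matrix.smul_apply, smul_eq_mul, Matrix.mul_apply]
  rfl

lemma ST_eval (Δ : ∀ j, ZDat (n j) (a j) (m j) (f j)) {D D₂ : ℤ} {K : ℕ} {p : (Σ j : Fin k, Fin (n j) × Fin (n j)) → Polynomial ℤ}
    (hp : ∀ x, (p x).map (Int.castRingHom ℚ) = Polynomial.C (D : ℚ) * (Δ x.1).U x.2.1 x.2.2) (hK : ∀ x, (p x).natDegree ≤ K)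
    {c : Crd n → ℤ} {y : ∀ j, Option (Fin (n j) × Fin (n j)) → ℂ} (hc : ∀ v : Crd n, ((c v : ℤ) : ℂ) = (D₂ : ℂ) * y v.1 v.2)
    (t : Fin k → ℂ) (ht : ∀ j, t j ≠ 0) (ν : ℂ) (v : Crd n ⊕ Option (Fin k)) :
    MvPolynomial.aeval (op ν t) (ET k D D₂ K) *
      Sum.elim (pnt (fun j => y j none) (X₀ Δ t ν y)) (op (-ν ^ 2 / 2) t) v =
      MvPolynomial.aeval (op ν t) (ST D D₂ K p c v) := by
  have hX : ∀ i : Fin k, MvPolynomial.aeval (op ν t) (MvPolynomial.X (some i) ^ K : MvPolynomial (Option (Fin k)) ℤ) = t i ^ K := by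
    intro i
    rw [map_pow, MvPolynomial.aeval_X]
    rfl
  rcases v with ⟨j, _ | x⟩ | _ | j
  · rw [ET_eval, ST_none, map_mul, MvPolynomial.aeval_C, map_prod]
    simp only [hX, eq_intCast]
    have h1 : Sum.elim (pnt (fun j => y j none) (X₀ Δ t ν y)) (op (-ν ^ 2 / 2) t) (Sum.inl ⟨j, none⟩) = y j none := rfl
    have h2 : ((c ⟨j, none⟩ : ℤ) : ℂ) = (D₂ : ℂ) * y j none := hc ⟨j, none⟩
    rw [h1]
    push_cast
    rw [h2]
    ring
  · rw [ET_eval, ST_some, map_mul, map_mul, map_mul, MvPolynomial.aeval_C, MvPolynomial.aeval_X, map_prod, map_sum]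
    simp only [hX]
    have h1 : ∀ q, MvPolynomial.aeval (op ν t) (MvPolynomial.C (c ⟨j, some (x.1, q)⟩) * rvp K (p ⟨j, (q, x.2)⟩) (some j)) =
        (D₂ : ℂ) * y j (some (x.1, q)) * (t j ^ K * ((D : ℂ) * Polynomial.aeval (1 / t j) ((Δ j).U q x.2))) := by
      intro q
      have e0 : op ν t (some j) = t j := rfl
      rw [map_mul, MvPolynomial.aeval_C, aeval_rvp (hK _) (some j) _ (by rw [e0]; exact ht j), e0, eq_intCast,
        hc ⟨j, some (x.1, q)⟩]
      congr 2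
      have h2 := congrArg (Polynomial.aeval (1 / t j)) (hp ⟨j, (q, x.2)⟩)
      rw [map_mul, Polynomial.aeval_C] at h2
      have h3 : Polynomial.aeval (1 / t j) ((p ⟨j, (q, x.2)⟩).map (Int.castRingHom ℚ)) =
          Polynomial.aeval (1 / t j) (p ⟨j, (q, x.2)⟩) := by
        rw [← algebraMap_int_eq, Polynomial.aeval_map_algebraMap]
      rw [h3] at h2
      rw [h2]
      simp
    rw [Finset.sum_congr rfl fun q _ => h1 q]
    rw [← Finset.mul_prod_erase Finset.univ (fun j => t j ^ K) (Finset.mem_univ j), eq_intCast]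
    have h5 : Sum.elim (pnt (fun j => y j none) (X₀ Δ t ν y)) (op (-ν ^ 2 / 2) t) (Sum.inl ⟨j, some x⟩) =
        ν * ∑ q, y j (some (x.1, q)) * Polynomial.aeval (1 / t j) ((Δ j).U q x.2) := X₀_apply Δ t ν y j x.1 x.2
    have h6 : op ν t none = ν := rfl
    rw [h5, h6, Finset.mul_sum, Finset.mul_sum, Finset.mul_sum, Finset.mul_sum]
    refine Finset.sum_congr rfl fun q _ => ?_
    push_cast
    ring
  · rw [ET_eval, ST_inr_none, map_mul, map_mul, MvPolynomial.aeval_C, map_prod]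
    simp only [hX, eq_intCast, map_pow, MvPolynomial.aeval_X]
    have h1 : Sum.elim (pnt (fun j => y j none) (X₀ Δ t ν y)) (op (-ν ^ 2 / 2) t) (Sum.inr none) = -ν ^ 2 / 2 := rfl
    have h6 : op ν t none = ν := rfl
    rw [h1, h6]
    push_cast
    ring
  · rw [ST_inr_some, map_mul, MvPolynomial.aeval_X]
    congr 1

end Pool.Agent.Q189.HC
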