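import Pool.Agent.Q189.HC.Cor

/-!
# Hyperelliptic families: the transfer of near relations
-/

set_option autoImplicit false

open PowerSeries

namespace Pool.Agent.Q189.HC

open Pool.Agent.Y118.HP Pool.Agent.Y118.HG
open Pool.Agent.Y119.HZ (ix evq)
open Pool.Agent.Y120.GH (cx Cw ou inn)
open Pool.Agent.Q246.NR Pool.Agent.Q246.NR2 Pool.Agent.Q189.MF
open Pool.Agent.Q189.HG (pnt)

lemma tpi_ne : tpi ≠ 0 := by
  unfold tpi
  have := Complex.I_ne_zero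
  have h2 : (Real.pi : ℂ) ≠ 0 := by exact_mod_cast Real.pi_ne_zero
  exact mul_ne_zero (mul_ne_zero two_ne_zero h2) this

section one
variable {n : ℕ} {a : Fin n → ℝ} {m : Fin (n + 1)} {f : Polynomial ℚ}

/-- solving for `W` -/
theorem solve {A U V Q X : Matrix (Fin n) (Fin n) ℂ} (hn : Even n) {c : ℂ} (hc : c ≠ 0)
    (hA : A * jm ℂ n * A.transpose = c • jm ℂ n) (hVU : V * U = 1) (hQ : Q = V * jm ℂ n * V.transpose)
    (hX : X * Q * X.transpose = c • jm ℂ n) :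
    (A⁻¹ * X * V) * jm ℂ n * (A⁻¹ * X * V).transpose = jm ℂ n ∧ A * (A⁻¹ * X * V) * U = X := by
  have hdet : IsUnit A.det := by
    rw [isUnit_iff_ne_zero]
    intro h2
    have := congrArg Matrix.det hA
    rw [Matrix.det_mul, Matrix.det_mul, h2, zero_mul, zero_mul, Matrix.det_smul] at this
    exact mul_ne_zero (pow_ne_zero _ hc) (jm_det hn) this.symm
  have h1 : A⁻¹ * A = 1 := Matrix.nonsing_inv_mul _ hdet
  have h2 : A * A⁻¹ = 1 := Matrix.mul_nonsing_inv _ hdet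
  have h3 : A.transpose * (A⁻¹).transpose = 1 := by rw [← Matrix.transpose_mul, h1, Matrix.transpose_one]
  constructor
  · have h4 : (A⁻¹ * X * V) * jm ℂ n * (A⁻¹ * X * V).transpose = A⁻¹ * (X * Q * X.transpose) * (A⁻¹).transpose := by
      rw [hQ, Matrix.transpose_mul, Matrix.transpose_mul]
      simp only [Matrix.mul_assoc]
    rw [h4, hX, ← hA]
    calc A⁻¹ * (A * jm ℂ n * A.transpose) * (A⁻¹).transpose = (A⁻¹ * A) * jm ℂ n * (A.transpose * (A⁻¹).transpose) := by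
          simp only [Matrix.mul_assoc]
      _ = jm ℂ n := by rw [h1, h3, Matrix.one_mul, Matrix.mul_one]
  · calc A * (A⁻¹ * X * V) * U = (A * A⁻¹) * X * (V * U) := by simp only [Matrix.mul_assoc]
      _ = X := by rw [h2, hVU, Matrix.one_mul, Matrix.mul_one]

lemma VUc (Δ : ZDat n a m f) (z : ℂ) : Δ.V.map (Polynomial.aeval z) * Δ.U.map (Polynomial.aeval z) = 1 := by
  rw [← map_aevalC_mul, Δ.VU, map_aevalC_one]

lemma UVc (Δ : ZDat n a m f) (z : ℂ) : Δ.U.map (Polynomial.aeval z) * Δ.V.map (Polynomial.aeval z) = 1 := by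
  rw [← map_aevalC_mul, Δ.UV, map_aevalC_one]

/-- bounds for the values of polynomials in the unit disc -/
lemma poly_bd (p : Polynomial ℚ) {z : ℂ} (hz : ‖z‖ ≤ 1) :
    ‖Polynomial.aeval z p‖ ≤ ∑ i ∈ Finset.range (p.natDegree + 1), |((p.coeff i : ℚ) : ℝ)| := by
  rw [Polynomial.aeval_eq_sum_range]
  refine (norm_sum_le _ _).trans (Finset.sum_le_sum fun i _ => ?_)
  rw [Algebra.smul_def, norm_mul, norm_pow]
  have h1 : ‖(algebraMap ℚ ℂ) (p.coeff i)‖ = |((p.coeff i : ℚ) : ℝ)| := by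
    rw [eq_ratCast, ← Complex.ofReal_ratCast, Complex.norm_real, Real.norm_eq_abs]
  rw [h1]
  exact mul_le_of_le_one_right (abs_nonneg _) (pow_le_one₀ (norm_nonneg _) hz)

/-- bounds for the inverse -/
theorem solve_bd (Δ : ZDat n a m f) (A' : Matrix (Fin n) (Fin n) ℂ) : ∃ C : ℝ, 0 ≤ C ∧ ∀ z : ℂ, ‖z‖ ≤ 1 →
    ∀ (X : Matrix (Fin n) (Fin n) ℂ) (M : ℝ), 0 ≤ M → (∀ i j, ‖X i j‖ ≤ M) → ∀ i j,
      ‖(A' * X * Δ.V.map (Polynomial.aeval z)) i j‖ ≤ C * M := by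
  have hb : ∀ x : Fin n × Fin n, ∃ b : ℝ, 0 ≤ b ∧ ∀ z : ℂ, ‖z‖ ≤ 1 → ‖Polynomial.aeval z (Δ.V x.1 x.2)‖ ≤ b := fun x =>
    ⟨_, Finset.sum_nonneg fun _ _ => abs_nonneg _, fun z hz => poly_bd _ hz⟩
  choose b hb0 hb using hb
  set CA : ℝ := ∑ x : Fin n × Fin n, ‖A' x.1 x.2‖ with hCA
  set CV : ℝ := ∑ x : Fin n × Fin n, b x with hCV
  have hCA0 : 0 ≤ CA := Finset.sum_nonneg fun _ _ => norm_nonneg _
  have hCV0 : 0 ≤ CV := Finset.sum_nonneg fun x _ => hb0 x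
  refine ⟨n * (n * (CA * CV)), by positivity, fun z hz X M hM hX i j => ?_⟩
  rw [Matrix.mul_apply]
  have h1 : ∀ q, ‖(A' * X) i q‖ ≤ n * (CA * M) := by
    intro q
    rw [Matrix.mul_apply]
    refine (norm_sum_le _ _).trans ?_
    calc _ ≤ ∑ _p : Fin n, CA * M := by
          refine Finset.sum_le_sum fun p _ => ?_
          rw [norm_mul]
          refine mul_le_mul ?_ (hX _ _) (norm_nonneg _) hCA0
          exact Finset.single_le_sum (f := fun x : Fin n × Fin n => ‖A' x.1 x.2‖) (fun _ _ => norm_nonneg _)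
            (Finset.mem_univ (i, p))
      _ = _ := by rw [Finset.sum_const, Finset.card_univ, Fintype.card_fin, nsmul_eq_mul]
  have h2 : ∀ q, ‖Δ.V.map (Polynomial.aeval z) q j‖ ≤ CV := by
    intro q
    rw [Matrix.map_apply]
    exact (hb (q, j) z hz).trans (Finset.single_le_sum (f := b) (fun x _ => hb0 x) (Finset.mem_univ (q, j)))
  refine (norm_sum_le _ _).trans ?_
  calc _ ≤ ∑ _q : Fin n, n * (CA * M) * CV := by
        refine Finset.sum_le_sum fun q _ => ?_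
        rw [norm_mul]
        exact mul_le_mul (h1 q) (h2 q) (norm_nonneg _) (by positivity)
    _ = _ := by
        rw [Finset.sum_const, Finset.card_univ, Fintype.card_fin, nsmul_eq_mul]
        ring

end one

variable {k : ℕ} {n : Fin k → ℕ} {a : ∀ j, Fin (n j) → ℝ} {m : ∀ j, Fin (n j + 1)} {f : Fin k → Polynomial ℚ}

/-- the matrices in terms of the periods -/
noncomputable def Ws (Δ : ∀ j, ZDat (n j) (a j) (m j) (f j)) (t : Fin k → ℂ) (X : ∀ j, Matrix (Fin (n j)) (Fin (n j)) ℂ) (j : Fin k) :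
    Matrix (Fin (n j)) (Fin (n j)) ℂ :=
  (AC (a j) (m j) (Δ j).V)⁻¹ * X j * (Δ j).V.map (Polynomial.aeval (1 / t j))

theorem Ws_spec (hn : ∀ j, Even (n j)) (h0 : ∀ j, InGap (a j) (m j) 0) (ha : ∀ j, StrictMono (a j))
    (hf : ∀ j, (f j).map (algebraMap ℚ ℝ) = ∏ i, (Polynomial.X - Polynomial.C (a j i)))
    (Δ : ∀ j, ZDat (n j) (a j) (m j) (f j)) {t : Fin k → ℂ} {X : ∀ j, Matrix (Fin (n j)) (Fin (n j)) ℂ}
    (hX : X ∈ TorC n f t tpi) :
    (∀ j, Ws Δ t X j * jm ℂ (n j) * (Ws Δ t X j).transpose = jm ℂ (n j)) ∧ Xm Δ t (Ws Δ t X) = X := by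
  have key : ∀ j, Ws Δ t X j * jm ℂ (n j) * (Ws Δ t X j).transpose = jm ℂ (n j) ∧ Xm Δ t (Ws Δ t X) j = X j := by
    intro j
    have h1 := AC_J (hn j) (ha j) (h0 j) (hf j) (Δ j).VJ
    have hc : (-2 * tpi : ℂ) = -4 * Real.pi * Complex.I := by unfold tpi; ring
    rw [← hc] at h1
    have h2 := hX j
    exact solve (hn j) (mul_ne_zero (by norm_num) tpi_ne) h1 (VUc (Δ j) (1 / t j)) (Qp_aevalC (Δ j).VJ (1 / t j)) h2
  exact ⟨fun j => (key j).1, funext fun j => (key j).2⟩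

theorem Ws_bd (Δ : ∀ j, ZDat (n j) (a j) (m j) (f j)) : ∃ C : ℝ, 1 ≤ C ∧ ∀ t : Fin k → ℂ, (∀ j, 1 ≤ ‖t j‖) →
    ∀ (l : Fin k → ℂ) (X : ∀ j, Matrix (Fin (n j)) (Fin (n j)) ℂ),
      max 1 ‖yC l (Ws Δ t X)‖ ≤ C * max 1 ‖pnt l X‖ := by
  choose C hC hb using fun j => solve_bd (Δ j) (AC (a j) (m j) (Δ j).V)⁻¹
  refine ⟨1 + ∑ j, C j, by
    have : 0 ≤ ∑ j, C j := Finset.sum_nonneg fun j _ => hC j
    linarith, fun t ht l X => ?_⟩
  have hS0 : 0 ≤ ∑ j, C j := Finset.sum_nonneg fun j _ => hC j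
  set M := max 1 ‖pnt l X‖ with hM
  have hM1 : 1 ≤ M := le_max_left _ _
  have hMle : ∀ v, ‖pnt l X v‖ ≤ M := fun v => (norm_le_pi_norm (pnt l X) v).trans (le_max_right _ _)
  refine max_le (by nlinarith) ?_
  rw [pi_norm_le_iff_of_nonneg (by positivity)]
  rintro ⟨j, _ | e⟩
  · have h1 := hMle ⟨j, none⟩
    have h2 : pnt l X ⟨j, none⟩ = l j := rfl
    rw [h2] at h1
    have h3 : yC l (Ws Δ t X) ⟨j, none⟩ = l j := rfl
    rw [h3]
    nlinarith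
  · have h3 : yC l (Ws Δ t X) ⟨j, some e⟩ = Ws Δ t X j (ix (n j) e).2 (ix (n j) e).1 := rfl
    rw [h3]
    have h4 := hb j (1 / t j) (by
      rw [norm_div, norm_one]
      exact (div_le_one (by have := ht j; linarith)).2 (ht j)) (X j) M (by linarith) (fun p q => hMle ⟨j, some (p, q)⟩)
      (ix (n j) e).2 (ix (n j) e).1
    refine h4.trans (mul_le_mul_of_nonneg_right ?_ (by linarith))
    have h5 : C j ≤ ∑ j, C j := Finset.single_le_sum (f := C) (fun j _ => hC j) (Finset.mem_univ j)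
    linarith

lemma ptD_eq (Δ : ∀ j, ZDat (n j) (a j) (m j) (f j)) (t ℓ : Fin k → ℂ) :
    ptD (r := fun j => n j * n j) (fun j => hz (Δ j)) t ℓ = yC ℓ fun j => Zt (Δ j) (t j) := by
  funext x
  obtain ⟨j, _ | e⟩ := x
  · rfl
  · show Pool.Agent.Y916.Al.evc (1 / t j) (hz (Δ j) e) = ou (cx (hz (Δ j) e)) (t j)
    unfold Pool.Agent.Y120.GH.ou Pool.Agent.Y120.GH.inn Pool.Agent.Y916.Al.evc
    refine tsum_congr fun m => ?_
    rw [Pool.Agent.Y120.GH.coeff_cx]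

/-- the transfer of near relations -/
def Tr (n : Fin k → ℕ) (a : ∀ j, Fin (n j) → ℝ) (m : ∀ j, Fin (n j + 1)) (f : Fin k → Polynomial ℚ) {g : ℕ} (d B : ℕ)
    (ζ : Fin g → ℂ) (t : Fin k → ℂ) (H : ℝ) : Prop :=
  ∀ ℓ : Fin k → ℂ, (∀ j, Complex.exp (ℓ j) = t j) → (∀ j, ‖ℓ j‖ ≤ H) →
    ∀ P : MvPolynomial (Crd n ⊕ (Option (Fin g) ⊕ Fin k)) ℤ, P.totalDegree ≤ d → (∀ e, |((P.coeff e : ℤ) : ℝ)| ≤ H) →
      ∀ (l : Fin k → ℂ), ∀ X ∈ TorC n f t tpi,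
      ‖MvPolynomial.aeval (Sum.elim (pnt l X) (Sum.elim (op tpi ζ) t)) P‖ ≤ (H * max 1 ‖pnt l X‖) ^ B *
        ‖MvPolynomial.aeval (Sum.elim (pnt ℓ fun j => CMz (a j) (m j) (1 / t j)) (Sum.elim (op tpi ζ) t)) P‖

theorem transfer (hn : ∀ j, Even (n j)) (h0 : ∀ j, InGap (a j) (m j) 0) (ha : ∀ j, StrictMono (a j))
    (hf : ∀ j, (f j).map (algebraMap ℚ ℝ) = ∏ i, (Polynomial.X - Polynomial.C (a j i)))
    (Δ : ∀ j, ZDat (n j) (a j) (m j) (f j)) (g d : ℕ) : ∃ (D₀ R : ℕ), ∀ B₀ : ℕ, ∃ B : ℕ, ∃ H₀ : ℝ,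
    ∀ (ζ : Fin g → ℂ) (t : Fin k → ℂ) (H : ℝ), H₀ ≤ H → (∀ j, (R : ℝ) < ‖t j‖) →
      GdD (r := fun j => n j * n j) (fun j => hz (Δ j)) D₀ B₀ (zf Δ ζ) t (H ^ 2) → Tr n a m f d B ζ t H := by
  classical
  choose r hr hrD hval using fun j => CMz_val (hn j) (ha j) (h0 j) (Δ j)
  obtain ⟨D, hD0, hD⟩ := common_den fun x : (Σ j : Fin k, Fin (n j) × Fin (n j)) => (Δ x.1).U x.2.1 x.2.2
  choose p hp using hD
  set K : ℕ := ∑ x, (p x).natDegree with hK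
  have hKp : ∀ x, (p x).natDegree ≤ K := fun x =>
    Finset.single_le_sum (f := fun x => (p x).natDegree) (fun _ _ => Nat.zero_le _) (Finset.mem_univ x)
  obtain ⟨D₁, Λ, hΛ, hsub⟩ := sub (SC (n := n) g D K p) (EE n g D K) d
  obtain ⟨C, hC, hbd⟩ := Ws_bd Δ
  obtain ⟨R, hR⟩ := exists_nat_ge (∑ j, 1 / r j + 1)
  have hRj : ∀ j, 1 / r j ≤ R := by
    intro j
    have : 1 / r j ≤ ∑ j, 1 / r j := Finset.single_le_sum (f := fun j => 1 / r j)
      (fun j _ => by have := hr j; positivity) (Finset.mem_univ j)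
    linarith
  have hR1 : (1 : ℝ) ≤ R := by
    have : 0 ≤ ∑ j, 1 / r j := Finset.sum_nonneg fun j _ => by have := hr j; positivity
    linarith
  refine ⟨D₁, R, fun B₀ => ⟨3 * B₀, max Λ C, fun ζ t H hH ht hg => ?_⟩⟩
  have hHΛ : Λ ≤ H := (le_max_left _ _).trans hH
  have hHC : C ≤ H := (le_max_right _ _).trans hH
  have hH1 : 1 ≤ H := hΛ.trans hHΛ
  have hHp : 0 < H := by linarith
  have ht1 : ∀ j, 1 ≤ ‖t j‖ := fun j => by
    have := ht j
    linarith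
  have ht0 : ∀ j, t j ≠ 0 := fun j h => by
    have := ht1 j
    rw [h, norm_zero] at this
    linarith
  intro ℓ hℓ hℓH P hPd hPH l X hX
  obtain ⟨-, g2⟩ := hg ℓ hℓ fun j => (hℓH j).trans (le_self_pow₀ hH1 (by norm_num))
  obtain ⟨P', h1, h2, h3⟩ := hsub P hPd H hPH
  obtain ⟨hW1, hW2⟩ := Ws_spec hn h0 ha hf Δ hX
  set W := Ws Δ t X with hW
  have hfib : yC l W ∈ FibD (r := fun j => n j * n j) (fun j => hz (Δ j)) fun j => 1 / t j := by
    intro j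
    exact sp_sub_Vc (hn j) (ha j) (h0 j) (hf j) (Δ j) (hW1 j) (1 / t j)
  have h4 := g2 P' h1 (fun e => (coeff_le_len _ _).trans (h2.trans (by
    rw [pow_two]
    exact mul_le_mul_of_nonneg_right hHΛ hHp.le))) (yC l W) hfib
  have hCM : (fun j => CMz (a j) (m j) (1 / t j)) = Xm Δ t fun j => Zt (Δ j) (t j) := by
    funext j
    unfold Xm Zt
    refine hval j (1 / t j) ?_
    rw [norm_div, norm_one, div_lt_iff₀ (by have := ht1 j; linarith)]
    have h5 := (hRj j).trans_lt (ht j)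
    rw [div_lt_iff₀ (hr j)] at h5
    linarith
  have e1 := h3 _ _ (SC_eval Δ hp hKp ζ t ht0 l W)
  have e2 := h3 _ _ (SC_eval Δ hp hKp ζ t ht0 ℓ fun j => Zt (Δ j) (t j))
  rw [hW2] at e1
  rw [← hCM, ← ptD_eq] at e2
  rw [e1, e2, norm_mul, norm_mul, EE_eval, EE_eval] at h4
  have hE : 0 < ‖((D : ℂ) * ∏ j, t j ^ K) ^ d‖ := by
    rw [norm_pos_iff]
    refine pow_ne_zero _ (mul_ne_zero (by exact_mod_cast hD0) (Finset.prod_ne_zero_iff.2 fun j _ => pow_ne_zero _ (ht0 j)))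
  set M := max 1 ‖pnt l X‖ with hM
  have hM1 : 1 ≤ M := le_max_left _ _
  have hHM : 1 ≤ H * M := by nlinarith
  refine le_of_mul_le_mul_left (a := ‖((D : ℂ) * ∏ j, t j ^ K) ^ d‖) (h4.trans ?_) hE
  rw [mul_left_comm]
  refine mul_le_mul_of_nonneg_left (mul_le_mul_of_nonneg_right ?_ (norm_nonneg _)) hE.le
  rw [pow_mul]
  refine pow_le_pow_left₀ (by positivity) ?_ _
  calc H ^ 2 * max 1 ‖yC l W‖ ≤ H ^ 2 * (C * M) := mul_le_mul_of_nonneg_left (hbd t ht1 l X) (by positivity)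
    _ ≤ H ^ 2 * (H * M) := by
        refine mul_le_mul_of_nonneg_left ?_ (by positivity)
        exact mul_le_mul_of_nonneg_right hHC (by linarith)
    _ = H ^ 3 * M := by ring
    _ ≤ H ^ 3 * M ^ 3 := mul_le_mul_of_nonneg_left (le_self_pow₀ hM1 (by norm_num)) (by positivity)
    _ = _ := by ring

end Pool.Agent.Q189.HC
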