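import Pool.Agent.Q189.HC.Trn

/-!
# Finite sets of rational points of products of symplectic groups
-/

set_option autoImplicit false

open PowerSeries

namespace Pool.Agent.Q189.HC

open Pool.Agent.Y118.HP Pool.Agent.Y118.HG
open Pool.Agent.Q246.NR Pool.Agent.Q246.NR2

/-- one factor -/
theorem dense_one {N : ℕ} (hN : Even N) (q : MvPolynomial (Option (Fin N × Fin N)) ℂ)
    (hq : ∀ (c : ℚ) (g : Matrix (Fin N) (Fin N) ℚ), g ∈ SpS ℚ N →
      MvPolynomial.eval (fun o : Option (Fin N × Fin N) => o.elim (c : ℂ) fun x => ((g x.1 x.2 : ℚ) : ℂ)) q = 0)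
    (z : Option (Fin N × Fin N) → ℂ) (hz : (Matrix.of fun p r => z (some (p, r))) ∈ SpS ℂ N) :
    MvPolynomial.eval z q = 0 := by
  classical
  -- the matrix
  have h1 : ∀ c : ℚ, MvPolynomial.eval (fun o : Option (Fin N × Fin N) => o.elim (c : ℂ) fun x => z (some x)) q = 0 := by
    intro c
    set P : MvPolynomial (Fin N × Fin N) ℂ := MvPolynomial.bind₁ (fun o : Option (Fin N × Fin N) =>
      o.elim (MvPolynomial.C (c : ℂ)) MvPolynomial.X) q with hP
    have hev : ∀ M : Matrix (Fin N) (Fin N) ℂ, evM P M =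
        MvPolynomial.eval (fun o : Option (Fin N × Fin N) => o.elim (c : ℂ) fun x => M x.1 x.2) q := by
      intro M
      unfold evM
      rw [hP, ← MvPolynomial.coe_aeval_eq_eval, ← MvPolynomial.coe_aeval_eq_eval]
      simp only [RingHom.coe_coe]
      rw [MvPolynomial.aeval_bind₁]
      congr 2
      funext o
      rcases o with _ | x
      · simp
      · simp
    have h2 := dense_rat hN P (fun g hg => by
      rw [hev]
      have h3 := hq c g hg
      simpa using h3) _ hz
    rw [hev] at h2
    exact h2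
  -- the number
  set F : Polynomial ℂ := MvPolynomial.aeval (fun o : Option (Fin N × Fin N) =>
    o.elim Polynomial.X fun x => Polynomial.C (z (some x))) q with hF
  have hFe : ∀ c : ℂ, F.eval c = MvPolynomial.eval (fun o : Option (Fin N × Fin N) => o.elim c fun x => z (some x)) q := by
    intro c
    rw [hF, ← Polynomial.coe_aeval_eq_eval]
    have h2 := MvPolynomial.comp_aeval_apply (f := fun o : Option (Fin N × Fin N) =>
      (o.elim Polynomial.X fun x => Polynomial.C (z (some x)) : Polynomial ℂ)) (Polynomial.aeval c : Polynomial ℂ →ₐ[ℂ] ℂ) q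
    rw [h2, ← MvPolynomial.coe_aeval_eq_eval, RingHom.coe_coe]
    congr 2
    funext o
    rcases o with _ | x
    · simp
    · simp
  have hF0 : F = 0 := by
    refine Polynomial.eq_zero_of_infinite_isRoot F (Set.Infinite.mono (s := Set.range fun c : ℚ => (c : ℂ)) ?_ ?_)
    · rintro _ ⟨c, rfl⟩
      show F.eval (c : ℂ) = 0
      rw [hFe]
      exact h1 c
    · exact Set.infinite_range_of_injective Rat.cast_injective
  have h2 := hFe (z none)
  rw [hF0, Polynomial.eval_zero] at h2
  rw [h2]
  congr 2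
  funext o
  rcases o with _ | x
  · rfl
  · rfl

variable {k : ℕ} {n : Fin k → ℕ}

/-- the points of the product -/
def GC (K : Type) [Field K] (n : Fin k → ℕ) : Set (∀ j, Option (Fin (n j) × Fin (n j)) → K) :=
  {y | ∀ j, (Matrix.of fun p q => y j (some (p, q))) ∈ SpS K (n j)}

/-- the rational points are dense -/
theorem dense_prod (hn : ∀ j, Even (n j)) (P : MvPolynomial (Crd n) ℂ)
    (hP : ∀ y ∈ GC ℚ n, MvPolynomial.eval (fun v : Crd n => ((y v.1 v.2 : ℚ) : ℂ)) P = 0) :
    ∀ y ∈ GC ℂ n, MvPolynomial.eval (fun v : Crd n => y v.1 v.2) P = 0 := by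
  classical
  have key : ∀ s : Finset (Fin k), ∀ y ∈ GC ℂ n, (∀ j ∉ s, ∃ y' : Option (Fin (n j) × Fin (n j)) → ℚ,
      (Matrix.of fun p q => y' (some (p, q))) ∈ SpS ℚ (n j) ∧ ∀ o, ((y' o : ℚ) : ℂ) = y j o) →
      MvPolynomial.eval (fun v : Crd n => y v.1 v.2) P = 0 := by
    intro s
    induction s using Finset.induction_on with
    | empty =>
      intro y hy h
      choose y' hy' hyy using fun j => h j (Finset.notMem_empty j)
      have h1 := hP y' hy'
      have h2 : (fun v : Crd n => ((y' v.1 v.2 : ℚ) : ℂ)) = fun v : Crd n => y v.1 v.2 := by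
        funext v
        exact hyy v.1 v.2
      rwa [h2] at h1
    | insert j₀ s hj₀ ih =>
      intro y hy h
      set Q : MvPolynomial (Option (Fin (n j₀) × Fin (n j₀))) ℂ := MvPolynomial.bind₁ (fun v : Crd n =>
        if hv : v.1 = j₀ then MvPolynomial.X (hv ▸ v.2) else MvPolynomial.C (y v.1 v.2)) P with hQ
      have hev : ∀ z : Option (Fin (n j₀) × Fin (n j₀)) → ℂ, MvPolynomial.eval z Q =
          MvPolynomial.eval (fun v : Crd n => Function.update y j₀ z v.1 v.2) P := by
        intro z
        rw [hQ, ← MvPolynomial.coe_aeval_eq_eval, ← MvPolynomial.coe_aeval_eq_eval]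
        simp only [RingHom.coe_coe]
        rw [MvPolynomial.aeval_bind₁]
        congr 2
        funext v
        obtain ⟨j, o⟩ := v
        by_cases hj : j = j₀
        · subst hj
          simp
        · simp [hj]
      have h1 := dense_one (hn j₀) Q (fun c g hg => by
        rw [hev]
        refine ih _ ?_ ?_
        · intro j
          by_cases hj : j = j₀
          · subst hj
            simp only [Function.update_self]
            have h2 := SpS_map (algebraMap ℚ ℂ) hg
            have h3 : (Matrix.of fun p q => Option.elim (some (p, q)) (c : ℂ) fun x : Fin (n j) × Fin (n j) => ((g x.1 x.2 : ℚ) : ℂ)) =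
                g.map (algebraMap ℚ ℂ) := by
              ext p q
              simp
            rw [h3]
            exact h2
          · simp only [Function.update_of_ne hj]
            exact hy j
        · intro j hj
          by_cases hjj : j = j₀
          · subst hjj
            refine ⟨fun o => o.elim c fun x => g x.1 x.2, ?_, fun o => ?_⟩
            · exact hg
            · rw [Function.update_self]
              rcases o with _ | x
              · rfl
              · rfl
          · obtain ⟨y', hy', hyy⟩ := h j (by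
              rw [Finset.mem_insert]
              push Not
              exact ⟨hjj, hj⟩)
            exact ⟨y', hy', fun o => by rw [Function.update_of_ne hjj]; exact hyy o⟩) (y j₀) (hy j₀)
      rw [hev, Function.update_eq_self] at h1
      exact h1
  intro y hy
  exact key Finset.univ y hy fun j hj => absurd (Finset.mem_univ j) hj

/-- finite test sets -/
theorem test_set (hn : ∀ j, Even (n j)) (D : ℕ) : ∃ (κ : Type) (_ : Fintype κ) (y₀ : κ → ∀ j, Option (Fin (n j) × Fin (n j)) → ℚ),
    (∀ i, y₀ i ∈ GC ℚ n) ∧ ∀ P : MvPolynomial (Crd n) ℂ, P.totalDegree ≤ D →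
      (∀ i, MvPolynomial.eval (fun v : Crd n => ((y₀ i v.1 v.2 : ℚ) : ℂ)) P = 0) →
      ∀ y ∈ GC ℂ n, MvPolynomial.eval (fun v : Crd n => y v.1 v.2) P = 0 := by
  classical
  let v : GC ℚ n → ((Crd n → Fin (D + 1)) → ℂ) := fun y e => ∏ s : Crd n, ((y.1 s.1 s.2 : ℚ) : ℂ) ^ (e s : ℕ)
  obtain ⟨κ, b, hb, hspan, hli⟩ := exists_linearIndependent' ℂ v
  have : Finite κ := hli.finite
  have : Fintype κ := Fintype.ofFinite κ
  refine ⟨κ, inferInstance, fun i => (b i).1, fun i => (b i).2, fun P hPD h0 => ?_⟩
  refine dense_prod hn P fun y hy => ?_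
  -- the functional
  set φ : ((Crd n → Fin (D + 1)) → ℂ) →ₗ[ℂ] ℂ := ∑ e, (P.coeff (tB e)) • LinearMap.proj (R := ℂ) (φ := fun _ => ℂ) e with hφ
  have hφv : ∀ y : GC ℚ n, φ (v y) = MvPolynomial.eval (fun s : Crd n => ((y.1 s.1 s.2 : ℚ) : ℂ)) P := by
    intro y
    have h1 := eval_tB (RingHom.id ℂ) P hPD (fun s : Crd n => ((y.1 s.1 s.2 : ℚ) : ℂ))
    have h2 : MvPolynomial.eval (fun s : Crd n => ((y.1 s.1 s.2 : ℚ) : ℂ)) P =
        MvPolynomial.eval₂ (RingHom.id ℂ) (fun s : Crd n => ((y.1 s.1 s.2 : ℚ) : ℂ)) P := by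
      rfl
    rw [h2, h1, hφ]
    simp only [LinearMap.sum_apply, LinearMap.smul_apply, LinearMap.proj_apply, smul_eq_mul, RingHom.id_apply]
    rfl
  have h1 : v ⟨y, hy⟩ ∈ Submodule.span ℂ (Set.range (v ∘ b)) := by
    rw [hspan]
    exact Submodule.subset_span ⟨⟨y, hy⟩, rfl⟩
  have h2 : Submodule.span ℂ (Set.range (v ∘ b)) ≤ LinearMap.ker φ := by
    rw [Submodule.span_le]
    rintro _ ⟨i, rfl⟩
    show φ (v (b i)) = 0
    rw [hφv]
    exact h0 i
  have h3 : φ (v ⟨y, hy⟩) = 0 := h2 h1
  rw [hφv] at h3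
  exact h3

end Pool.Agent.Q189.HC
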