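import Pool.Agent.Q189.HC.Base

/-!
# Hyperelliptic families: the values
-/

set_option autoImplicit false

open PowerSeries Filter Topology

namespace Pool.Agent.Q189.HC

open Pool.Agent.Y118.HP Pool.Agent.Y118.HG
open Pool.Agent.Y119.HZ (ix evq)
open Pool.Agent.Y113 (SDc ps)
open Pool.Agent.Y120.GH (cx Cw ou inn)

variable {n : ℕ} {a : Fin n → ℝ} {m : Fin (n + 1)} {f : Polynomial ℚ}

/-- the complex period matrix -/
noncomputable def CMz (a : Fin n → ℝ) (m : Fin (n + 1)) (z : ℂ) : Matrix (Fin n) (Fin n) ℂ :=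
  Matrix.of fun l j => dl l * perC (ee a m z) l (j : ℕ)

lemma CMz_real (hn : Even n) (ha : StrictMono a) {t : ℝ} (ht : InGap a m t) : CMz a m (t : ℂ) = CM a m t := by
  ext l j
  have h1 := congrFun (congrFun (PM_real ha ht) l) j
  rw [CM_apply hn ha ht]
  unfold CMz
  rw [Matrix.of_apply]
  unfold PM at h1
  rw [Matrix.of_apply] at h1
  rw [h1]
  rfl

/-- the value of a power series with rational coefficients -/
lemma inn_cx_real (F : ℚ⟦X⟧) (z : ℝ) : inn (cx F) (z : ℂ) = ((Pool.Agent.Y37.GF.E F z : ℝ) : ℂ) := by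
  unfold Pool.Agent.Y120.GH.inn Pool.Agent.Y37.GF.E
  rw [Complex.ofReal_tsum]
  refine tsum_congr fun k => ?_
  rw [Pool.Agent.Y120.GH.coeff_cx]
  push_cast
  rfl

/-- the matrix of the values at `z` -/
noncomputable def Zi (Δ : ZDat n a m f) (z : ℂ) : Matrix (Fin n) (Fin n) ℂ := Matrix.of fun i j => inn (cx (Δ.Z i j)) z

/-- the matrix of the values at `1 / t` -/
noncomputable def Zt (Δ : ZDat n a m f) (t : ℂ) : Matrix (Fin n) (Fin n) ℂ := Zi Δ (1 / t)

lemma Zi_real (Δ : ZDat n a m f) (z : ℝ) : Zi Δ (z : ℂ) = (Ez Δ.Z z).map (algebraMap ℝ ℂ) := by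
  ext i j
  unfold Zi
  rw [Matrix.of_apply, inn_cx_real]
  rfl

lemma mem_CwZ (Δ : ZDat n a m f) {K : ℝ} (hC : 1 ≤ K) (hs : ∀ i m, |((coeff m (hz Δ i) : ℚ) : ℝ)| ≤ K ^ (m + 1)) (i j : Fin n) :
    cx (Δ.Z i j) ∈ Cw K := by
  refine Pool.Agent.Y120.GH.cx_mem (by linarith) fun m => ?_
  have h1 := hs ((ix n).symm (j, i)) m
  unfold hz at h1
  rw [Equiv.apply_symm_apply] at h1
  exact h1

theorem CMz_val (hn : Even n) (ha : StrictMono a) (h0 : InGap a m 0) (Δ : ZDat n a m f) :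
    ∃ r : ℝ, 0 < r ∧ Metric.ball 0 r ⊆ Dm a m ∧ ∀ z : ℂ, ‖z‖ < r → CMz a m z = AC a m Δ.V * Zi Δ z * Δ.U.map (Polynomial.aeval z) := by
  obtain ⟨K, hK, hs⟩ := size_hz Δ
  have hK0 : 0 < K := by linarith
  have hD0 : (0 : ℂ) ∈ Dm a m := by
    have := h0.mem_Dm
    simpa using this
  obtain ⟨ε, hε, hεD⟩ := Metric.isOpen_iff.1 (isOpen_Dm a m) 0 hD0
  set r₀ : ℝ := 1 / (2 * K) with hr₀
  have hr₀p : 0 < r₀ := by positivity
  set r : ℝ := min r₀ ε with hr
  have hrp : 0 < r := lt_min hr₀p hε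
  refine ⟨r, hrp, fun z hz => hεD ?_, fun z hz => ?_⟩
  · rw [Metric.mem_ball] at hz ⊢
    exact lt_of_lt_of_le hz (min_le_right _ _)
  ext l c
  set F : ℂ → ℂ := fun z => CMz a m z l c - (AC a m Δ.V * Zi Δ z * Δ.U.map (Polynomial.aeval z)) l c with hF
  have hZd : ∀ i j, DifferentiableOn ℂ (fun z => Zi Δ z i j) (Metric.ball 0 r) := by
    intro i j
    have h1 := Pool.Agent.Y120.GH.inn_diff (mem_CwZ Δ hK hs i j r₀ hr₀p.le (by
      rw [hr₀]
      have : 1 / (2 * K) * K = 1 / 2 := by field_simp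
      rw [this]
      norm_num))
    exact h1.mono (Metric.ball_subset_ball (min_le_left _ _))
  have hFd : DifferentiableOn ℂ F (Metric.ball 0 r) := by
    have h1 : DifferentiableOn ℂ (fun z => CMz a m z l c) (Metric.ball 0 r) := by
      have h2 := (differentiableOn_perC ha m l (c : ℕ)).mono (s := Metric.ball 0 r) fun z hz => hεD (by
        rw [Metric.mem_ball] at hz ⊢
        exact lt_of_lt_of_le hz (min_le_right _ _))
      exact (differentiableOn_const _).mul h2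
    refine h1.sub ?_
    have h2 : (fun z => (AC a m Δ.V * Zi Δ z * Δ.U.map (Polynomial.aeval z)) l c) =
        fun z => ∑ q, (∑ p, AC a m Δ.V l p * Zi Δ z p q) * Polynomial.aeval z (Δ.U q c) := by
      funext z
      rw [Matrix.mul_apply]
      simp only [Matrix.mul_apply, Matrix.map_apply]
    rw [h2]
    refine DifferentiableOn.fun_sum fun q _ => DifferentiableOn.mul (DifferentiableOn.fun_sum fun p _ => ?_) ?_
    · exact (differentiableOn_const _).mul (hZd p q)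
    · exact (Polynomial.differentiable_aeval _).differentiableOn
  have hFa : AnalyticOnNhd ℂ F (Metric.ball 0 r) := hFd.analyticOnNhd Metric.isOpen_ball
  have hfreq : ∃ᶠ z in 𝓝[≠] (0 : ℂ), F z = 0 := by
    have h2 : Tendsto (fun t : ℝ => (t : ℂ)) (𝓝[>] 0) (𝓝[≠] (0 : ℂ)) := by
      refine tendsto_nhdsWithin_iff.2 ⟨?_, ?_⟩
      · have := (Complex.continuous_ofReal.tendsto (0 : ℝ)).mono_left (nhdsWithin_le_nhds (s := Set.Ioi 0))
        simpa using this
      · filter_upwards [self_mem_nhdsWithin] with t ht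
        simp only [Set.mem_compl_iff, Set.mem_singleton_iff, Complex.ofReal_eq_zero]
        exact (ne_of_gt ht)
    refine h2.frequently (Eventually.frequently ?_)
    filter_upwards [(CM_val hn ha h0 Δ).filter_mono nhdsWithin_le_nhds] with t ht
    rw [hF]
    simp only
    rw [CMz_real hn ha ht.1, Zi_real, ht.2, sub_self]
  have h1 := hFa.eqOn_zero_of_preconnected_of_frequently_eq_zero (convex_ball (0 : ℂ) r).isPreconnected
    (Metric.mem_ball_self hrp) hfreq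
  have h2 := h1 (Metric.mem_ball.2 (by rwa [dist_zero_right]))
  exact sub_eq_zero.1 h2

/-- the values are symplectic -/
theorem Zi_sp (Δ : ZDat n a m f) {K : ℝ} (hC : 1 ≤ K) (hs : ∀ i m, |((coeff m (hz Δ i) : ℚ) : ℝ)| ≤ K ^ (m + 1)) {t : ℂ}
    (ht : K < ‖t‖) : Zt Δ t * jm ℂ n * (Zt Δ t).transpose = jm ℂ n := by
  classical
  have hC0 : 0 ≤ K := by linarith
  have hZo : ∀ i j, Zt Δ t i j = ou (cx (Δ.Z i j)) t := fun i j => rfl
  ext i j
  have h2 := congrArg (fun M : Matrix (Fin n) (Fin n) ℚ⟦X⟧ => ou (cx (M i j)) t) Δ.zJ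
  simp only [Matrix.mul_apply, Matrix.transpose_apply, Finset.sum_mul] at h2
  have hj : ∀ c d : Fin n, jm (PowerSeries ℚ) n d c = C (jm ℚ n d c) := by
    intro c d
    rw [← jm_map (PowerSeries.C (R := ℚ)), Matrix.map_apply]
  have hjc : ∀ c d : Fin n, ((jm ℚ n d c : ℚ) : ℂ) = jm ℂ n d c := by
    intro c d
    rw [← jm_map (algebraMap ℚ ℂ), Matrix.map_apply]
    rfl
  have h3 : ∀ c d : Fin n, cx (Δ.Z i d * jm (PowerSeries ℚ) n d c * Δ.Z j c) =
      cx (Δ.Z i d) * C ((jm ℚ n d c : ℚ) : ℂ) * cx (Δ.Z j c) := by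
    intro c d
    rw [map_mul, map_mul, hj, Pool.Agent.Y120.GH.cx_C]
  have h4 : ∀ c d : Fin n, cx (Δ.Z i d) * C ((jm ℚ n d c : ℚ) : ℂ) ∈ Cw K := fun c d =>
    Subring.mul_mem _ (mem_CwZ Δ hC hs i d) (Pool.Agent.Y120.GH.C_mem _)
  have h5 : ∀ c d : Fin n, ou (cx (Δ.Z i d * jm (PowerSeries ℚ) n d c * Δ.Z j c)) t =
      Zt Δ t i d * jm ℂ n d c * Zt Δ t j c := by
    intro c d
    rw [h3, Pool.Agent.Y120.GH.ou_mul hC0 (h4 c d) (mem_CwZ Δ hC hs j c) ht,
      Pool.Agent.Y120.GH.ou_mul hC0 (mem_CwZ Δ hC hs i d) (Pool.Agent.Y120.GH.C_mem _) ht, Pool.Agent.Y120.GH.ou_C, hjc]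
    rfl
  rw [map_sum, Pool.Agent.Y120.GH.ou_sum hC0 _ (fun c _ => by
    rw [map_sum]
    refine Subring.sum_mem _ fun d _ => ?_
    rw [h3]
    exact Subring.mul_mem _ (h4 c d) (mem_CwZ Δ hC hs j c)) ht] at h2
  have h6 : ∀ c, ou (cx (∑ d, Δ.Z i d * jm (PowerSeries ℚ) n d c * Δ.Z j c)) t =
      ∑ d, Zt Δ t i d * jm ℂ n d c * Zt Δ t j c := by
    intro c
    rw [map_sum, Pool.Agent.Y120.GH.ou_sum hC0 _ (fun d _ => by
      rw [h3]
      exact Subring.mul_mem _ (h4 c d) (mem_CwZ Δ hC hs j c)) ht]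
    exact Finset.sum_congr rfl fun d _ => h5 c d
  simp only [h6] at h2
  rw [hj, Pool.Agent.Y120.GH.cx_C, Pool.Agent.Y120.GH.ou_C, hjc] at h2
  rw [Matrix.mul_apply]
  simp only [Matrix.mul_apply, Matrix.transpose_apply, Finset.sum_mul]
  exact h2

end Pool.Agent.Q189.HC
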